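import Mathlib
import Pool.Agent.HpBall.Sphere
import Pool.Agent.Helper633.SubMean

set_option autoImplicit false

open MeasureTheory Complex
open scoped ENNReal NNReal

namespace Pool.Agent.Helper19.RU

open Pool.Agent.HpBall

/-- surface measure on the unit sphere -/
noncomputable def sg (n : ℕ) : Measure (Metric.sphere (0 : E n) 1) :=
  (volume : Measure (E n)).toSphere

lemma lintegral_Ioi_pow (k : ℕ) (g : ℝ → ℝ≥0∞) (hg : Measurable g) :
    ∫⁻ t : Set.Ioi (0 : ℝ), g t ∂(Measure.volumeIoiPow k) =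
      ∫⁻ t in Set.Ioi (0 : ℝ), ENNReal.ofReal (t ^ k) * g t := by
  rw [Measure.volumeIoiPow, lintegral_withDensity_eq_lintegral_mul]
  · simp only [Pi.mul_apply]
    exact lintegral_subtype_comap measurableSet_Ioi (fun t : ℝ => ENNReal.ofReal (t ^ k) * g t)
  · fun_prop
  · exact hg.comp measurable_subtype_coe

lemma finrank_E (n : ℕ) : Module.finrank ℝ (E n) = 2 * n := by
  rw [← Module.finrank_mul_finrank ℝ ℂ (E n), Complex.finrank_real_complex]
  simp

lemma nontriv_E (n : ℕ) (hn : 1 ≤ n) : Nontrivial (E n) := by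
  have : Nonempty (Fin n) := ⟨⟨0, hn⟩⟩
  infer_instance

theorem lintegral_polar_E (n : ℕ) (hn : 1 ≤ n) (G : E n → ℝ≥0∞) (hG : Measurable G) :
    ∫⁻ z, G z = ∫⁻ ζ, (∫⁻ t in Set.Ioi (0 : ℝ), ENNReal.ofReal (t ^ (2 * n - 1)) *
      G ((t : ℂ) • (ζ : E n))) ∂(sg n) := by
  have := nontriv_E n hn
  rw [Pool.Agent.Helper633.SubMean.lintegral_polar (volume : Measure (E n)) G hG, finrank_E]
  refine lintegral_congr fun ζ => ?_
  rw [← lintegral_Ioi_pow (2 * n - 1) (fun t => G ((t : ℂ) • (ζ : E n)))]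
  · refine lintegral_congr fun t => ?_
    rw [Complex.coe_smul]
  · exact hG.comp (by fun_prop)

/-- change of variables t = e^{-x} -/
lemma lintegral_exp_subst (g : ℝ → ℝ≥0∞) :
    ∫⁻ t in Set.Ioo (0 : ℝ) 1, g t =
      ∫⁻ x in Set.Ioi (0 : ℝ), ENNReal.ofReal (Real.exp (-x)) * g (Real.exp (-x)) := by
  have himg : (fun x : ℝ => Real.exp (-x)) '' Set.Ioi 0 = Set.Ioo 0 1 := by
    ext y
    constructor
    · rintro ⟨x, hx, rfl⟩
      exact ⟨Real.exp_pos _, by rw [Real.exp_lt_one_iff]; simpa using hx⟩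
    · rintro ⟨h0, h1⟩
      refine ⟨-Real.log y, ?_, ?_⟩
      · simpa using Real.log_neg h0 h1
      · simp [Real.exp_log h0]
  have hderiv : ∀ x ∈ Set.Ioi (0 : ℝ), HasDerivWithinAt (fun x : ℝ => Real.exp (-x))
      (-Real.exp (-x)) (Set.Ioi 0) x := by
    intro x _
    have h : HasDerivAt (fun x : ℝ => Real.exp (-x)) (Real.exp (-x) * (-1)) x :=
      (hasDerivAt_neg x).exp
    rw [mul_neg_one] at h
    exact h.hasDerivWithinAt
  have hinj : Set.InjOn (fun x : ℝ => Real.exp (-x)) (Set.Ioi 0) := by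
    intro x _ y _ h
    have := Real.exp_injective h
    linarith
  rw [← himg, lintegral_image_eq_lintegral_abs_deriv_mul measurableSet_Ioi hderiv hinj]
  refine lintegral_congr fun x => ?_
  rw [abs_neg, abs_of_pos (Real.exp_pos _)]

theorem lintegral_ball (n : ℕ) (hn : 1 ≤ n) (G : E n → ℝ≥0∞) (hG : Measurable G) :
    ∫⁻ z in Metric.ball (0 : E n) 1, G z = ∫⁻ x in Set.Ioi (0 : ℝ),
      ENNReal.ofReal (Real.exp (-(2 * n * x))) *
        ∫⁻ ζ, G ((Real.exp (-x) : ℂ) • (ζ : E n)) ∂(sg n) := by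
  have hσ : IsFiniteMeasure (sg n) := by unfold sg; infer_instance
  rw [← lintegral_indicator Metric.isOpen_ball.measurableSet,
    lintegral_polar_E n hn _ (hG.indicator Metric.isOpen_ball.measurableSet)]
  have hstep : ∀ ζ : Metric.sphere (0 : E n) 1,
      (∫⁻ t in Set.Ioi (0 : ℝ), ENNReal.ofReal (t ^ (2 * n - 1)) *
        (Metric.ball (0 : E n) 1).indicator G ((t : ℂ) • (ζ : E n))) =
      ∫⁻ x in Set.Ioi (0 : ℝ), ENNReal.ofReal (Real.exp (-(2 * n * x))) *
        G ((Real.exp (-x) : ℂ) • (ζ : E n)) := by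
    intro ζ
    have hζ : ‖(ζ : E n)‖ = 1 := by simp
    have h1 : (∫⁻ t in Set.Ioi (0 : ℝ), ENNReal.ofReal (t ^ (2 * n - 1)) *
        (Metric.ball (0 : E n) 1).indicator G ((t : ℂ) • (ζ : E n))) =
        ∫⁻ t in Set.Ioo (0 : ℝ) 1, ENNReal.ofReal (t ^ (2 * n - 1)) *
          G ((t : ℂ) • (ζ : E n)) := by
      rw [← lintegral_indicator measurableSet_Ioi, ← lintegral_indicator measurableSet_Ioo]
      refine lintegral_congr fun t => ?_
      by_cases ht0 : 0 < t
      · by_cases ht1 : t < 1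
        · have hm : ((t : ℂ) • (ζ : E n)) ∈ Metric.ball (0 : E n) 1 := by
            rw [mem_ball_zero_iff, norm_smul, hζ, mul_one, Complex.norm_real,
              Real.norm_eq_abs, abs_of_pos ht0]
            exact ht1
          rw [Set.indicator_of_mem (show t ∈ Set.Ioi (0 : ℝ) from ht0),
            Set.indicator_of_mem (show t ∈ Set.Ioo (0 : ℝ) 1 from ⟨ht0, ht1⟩),
            Set.indicator_of_mem hm]
        · have hm : ((t : ℂ) • (ζ : E n)) ∉ Metric.ball (0 : E n) 1 := by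
            rw [mem_ball_zero_iff, norm_smul, hζ, mul_one, Complex.norm_real,
              Real.norm_eq_abs, abs_of_pos ht0]
            exact ht1
          rw [Set.indicator_of_mem (show t ∈ Set.Ioi (0 : ℝ) from ht0),
            Set.indicator_of_notMem (show t ∉ Set.Ioo (0 : ℝ) 1 from fun h => ht1 h.2),
            Set.indicator_of_notMem hm, mul_zero]
      · rw [Set.indicator_of_notMem (show t ∉ Set.Ioi (0 : ℝ) from ht0),
          Set.indicator_of_notMem (show t ∉ Set.Ioo (0 : ℝ) 1 from fun h => ht0 h.1)]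
    rw [h1, lintegral_exp_subst]
    refine lintegral_congr fun x => ?_
    rw [← mul_assoc, ← ENNReal.ofReal_mul (Real.exp_pos _).le]
    congr 2
    rw [← Real.exp_nat_mul, ← Real.exp_add]
    congr 1
    have : ((2 * n - 1 : ℕ) : ℝ) = 2 * n - 1 := by
      rw [Nat.cast_sub (by omega)]; push_cast; ring
    rw [this]; ring
  rw [lintegral_congr hstep, lintegral_lintegral_swap]
  · refine lintegral_congr fun x => ?_
    rw [lintegral_const_mul]
    exact hG.comp (by fun_prop)
  · refine Measurable.aemeasurable ?_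
    refine Measurable.mul (by fun_prop) (hG.comp (by fun_prop))

/-- the measure sig of HpBall is a multiple of the surface measure -/
theorem sig_eq (n : ℕ) (hn : 1 ≤ n) : ∃ c : ℝ≥0, 0 < c ∧ ∀ f : E n → ℝ≥0∞, Measurable f →
    ∫⁻ ξ, f ξ ∂(sig n) = c * ∫⁻ ζ, f (ζ : E n) ∂(sg n) := by
  have hσ : IsFiniteMeasure (sg n) := by unfold sg; infer_instance
  obtain ⟨a, ha0, ha⟩ : ∃ a : ℝ≥0, a ≠ 0 ∧ vol n = a • (volume : Measure (E n)) := by
    refine ⟨Measure.addHaarScalarFactor (vol n) volume, ?_, ?_⟩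
    · exact (Measure.addHaarScalarFactor_pos_of_isAddHaarMeasure (vol n) volume).ne'
    · exact Measure.isAddLeftInvariant_eq_smul (vol n) (volume : Measure (E n))
  set J : ℝ≥0∞ := ∫⁻ t in Set.Ioi (0 : ℝ), ENNReal.ofReal (t ^ (2 * n - 1)) *
    ENNReal.ofReal (Real.exp (-t ^ 2)) with hJ
  have key : ∀ f : E n → ℝ≥0∞, Measurable f →
      ∫⁻ ξ, f ξ ∂(sig n) = (a * J) * ∫⁻ ζ, f (ζ : E n) ∂(sg n) := by
    intro f hf
    unfold sig
    rw [lintegral_map hf measurable_proj]
    unfold gam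
    have hfp : Measurable (fun z : E n => f ((((‖z‖⁻¹ : ℝ)) : ℂ) • z)) := hf.comp measurable_proj
    rw [lintegral_withDensity_eq_lintegral_mul _ (by fun_prop) hfp, ha,
      lintegral_smul_measure, lintegral_polar_E n hn _
        (Measurable.mul (by fun_prop) hfp)]
    rw [mul_assoc]
    change (a : ℝ≥0∞) * _ = _
    congr 1
    have hfs : Measurable (fun ζ : Metric.sphere (0 : E n) 1 => f (ζ : E n)) :=
      hf.comp measurable_subtype_coe
    rw [← lintegral_const_mul _ hfs]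
    refine lintegral_congr fun ζ => ?_
    have hζ : ‖(ζ : E n)‖ = 1 := by simp
    rw [hJ, ← lintegral_mul_const _ (by fun_prop)]
    refine setLIntegral_congr_fun measurableSet_Ioi fun t ht => ?_
    have ht0 : (0 : ℝ) < t := ht
    have hnorm : ‖(t : ℂ) • (ζ : E n)‖ = t := by
      rw [norm_smul, hζ, mul_one, Complex.norm_real, Real.norm_eq_abs, abs_of_pos ht0]
    simp only [Pi.mul_apply, hnorm]
    have hs : (((t⁻¹ : ℝ) : ℂ)) • ((t : ℂ) • (ζ : E n)) = (ζ : E n) := by
      rw [smul_smul, ← Complex.ofReal_mul, inv_mul_cancel₀ ht0.ne', Complex.ofReal_one, one_smul]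
    rw [hs, mul_assoc]
  have hone := key (fun _ => 1) measurable_const
  simp only [lintegral_one] at hone
  have hsp : 0 < sig n Set.univ := sig_univ_pos
  have hsf : sig n Set.univ < ⊤ := by rw [sig_univ]; exact gam_finite_aux
  have hgf : sg n Set.univ < ⊤ := measure_lt_top _ _
  have hg0 : sg n Set.univ ≠ 0 := by
    intro h
    rw [h, mul_zero] at hone
    exact hsp.ne' hone
  have hc0 : (a : ℝ≥0∞) * J ≠ 0 := by
    intro h
    rw [h, zero_mul] at hone
    exact hsp.ne' hone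
  have hct : (a : ℝ≥0∞) * J ≠ ⊤ := by
    intro h
    rw [h, ENNReal.top_mul hg0] at hone
    exact hsf.ne hone
  refine ⟨((a : ℝ≥0∞) * J).toNNReal, ?_, ?_⟩
  · exact ENNReal.toNNReal_pos hc0 hct
  · intro f hf
    rw [ENNReal.coe_toNNReal hct]
    exact key f hf

end Pool.Agent.Helper19.RU
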