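import Mathlib
import Pool.Agent.Helper19.RU.Polar

set_option autoImplicit false

open MeasureTheory Complex
open scoped ENNReal NNReal

namespace Pool.Agent.Helper19.RU

open Pool.Agent.HpBall

/-- radial measure e^{-2nx} dx on (0,∞) -/
noncomputable def rx (n : ℕ) : Measure ℝ :=
  (volume.restrict (Set.Ioi (0 : ℝ))).withDensity (fun x => ENNReal.ofReal (Real.exp (-(2 * n * x))))

instance rx_sfinite (n : ℕ) : SFinite (rx n) := by unfold rx; infer_instance

lemma measurable_expsmul (n : ℕ) :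
    Measurable (fun q : ℝ × E n => (Real.exp (-q.1) : ℂ) • q.2) := by fun_prop

/-- volume on the ball in polar coordinates z = e^{-x} ξ, with the measure sig of HpBall -/
theorem vol_ball_eq (n : ℕ) (hn : 1 ≤ n) : ∃ c : ℝ≥0, 0 < c ∧
    (volume : Measure (E n)).restrict (Metric.ball (0 : E n) 1) =
      c • ((rx n).prod (sig n)).map (fun q : ℝ × E n => (Real.exp (-q.1) : ℂ) • q.2) := by
  obtain ⟨c, hc, h⟩ := sig_eq n hn
  refine ⟨c⁻¹, inv_pos.2 hc, ?_⟩
  refine Measure.ext_of_lintegral _ fun G hG => ?_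
  have hsm : ∀ μ : Measure (E n), ∫⁻ z, G z ∂(c⁻¹ • μ) = (c⁻¹ : ℝ≥0) * ∫⁻ z, G z ∂μ := by
    intro μ; rw [lintegral_smul_measure]; rfl
  rw [hsm, lintegral_map hG (measurable_expsmul n), lintegral_prod _ (by
    exact (hG.comp (measurable_expsmul n)).aemeasurable), lintegral_ball n hn G hG]
  unfold rx
  rw [lintegral_withDensity_eq_lintegral_mul _ (by fun_prop)]
  · rw [← lintegral_const_mul]
    · refine lintegral_congr fun x => ?_
      simp only [Pi.mul_apply]
      have hm : Measurable (fun ξ : E n => G ((Real.exp (-x) : ℂ) • ξ)) :=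
        hG.comp (by fun_prop)
      have hcc : ((c⁻¹ : ℝ≥0) : ℝ≥0∞) * (c : ℝ≥0∞) = 1 := by
        rw [← ENNReal.coe_mul, inv_mul_cancel₀ hc.ne', ENNReal.coe_one]
      rw [h _ hm, mul_left_comm, ← mul_assoc _ (c : ℝ≥0∞), hcc, one_mul]
    · refine Measurable.mul (by fun_prop) ?_
      exact (hG.comp (measurable_expsmul n)).lintegral_prod_right'
  · exact (hG.comp (measurable_expsmul n)).lintegral_prod_right'

end Pool.Agent.Helper19.RU
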