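import Mathlib
import Pool.Agent.HpBall.Defs2
import Pool.Agent.Helper19.RU.Polar

set_option autoImplicit false

open MeasureTheory Complex
open scoped ENNReal NNReal

namespace Pool.Agent.Helper19.RU

open Pool.Agent.HpBall

/-- the operator R + N (R = radial derivative) -/
noncomputable def DD {n : ℕ} (N : ℕ) (F : E n → ℂ) (z : E n) : ℂ := rad F z + N * F z

/-- weighted area energy ∫_B |Φ|² a⁻² (1-|w|²) dV -/
noncomputable def energy {n : ℕ} (a : E n → ℝ) (Φ : E n → ℂ) : ℝ≥0∞ :=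
  ∫⁻ w in Metric.ball (0 : E n) 1, ENNReal.ofReal (‖Φ w‖ ^ 2 * (a w ^ 2)⁻¹ * (1 - ‖w‖ ^ 2))

/-- synthesis operator; al is the exponent alpha -/
noncomputable def synth (n al : ℕ) (Φ : E n → ℂ) (z : E n) : ℂ :=
  ∫ w in Metric.ball (0 : E n) 1,
    Φ w * ((1 - ‖w‖ ^ 2 : ℝ) : ℂ) ^ al * ((1 - inner ℂ w z) ^ (n + al))⁻¹

/-- g is holomorphic on the ball, with H² norm squared (surface measure toSphere) at most M -/
def H2 (n : ℕ) (M : ℝ≥0∞) (g : E n → ℂ) : Prop :=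
  DifferentiableOn ℂ g (Metric.ball 0 1) ∧ ∀ r : ℝ, 0 ≤ r → r < 1 →
    ∫⁻ ζ, ‖g ((r : ℂ) • (ζ : E n))‖ₑ ^ 2 ∂(sg n) ≤ M

/-- reproducing formula (F1), to be proved by helper19 -/
def ReproProp (n al : ℕ) : Prop :=
  ∃ c : ℂ, ∀ F : E n → ℂ, DifferentiableOn ℂ F (Metric.ball 0 1) →
    energy (fun _ => 1) (DD (n + al) F) < ⊤ →
    ∀ z ∈ Metric.ball (0 : E n) 1, F z = c * synth n al (DD (n + al) F) z

/-- THE ONE STEP THEOREM: result of the selection + operator blocks. -/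
def StepProp (n al Nc : ℕ) (C : ℝ) : Prop :=
  ∀ (R : ℝ) (f : E n → ℂ), 1 < R → DifferentiableOn ℂ f (Metric.ball 0 R) →
    (∫⁻ ζ, ‖f (ζ : E n)‖ₑ ∂(sg n) ≤ 1) →
    ∃ (a : E n → ℝ) (G : Fin Nc → E n → ℂ), Measurable a ∧
      (∃ δ : ℝ, 0 < δ ∧ ∀ z, δ ≤ a z) ∧ (∃ B : ℝ, ∀ z, a z ≤ B) ∧
      (∀ c, H2 n (ENNReal.ofReal C) (G c)) ∧
      energy a (DD (n + al) f) ≤ ENNReal.ofReal C ∧
      ∀ Φ : E n → ℂ, Measurable Φ → energy a Φ < ⊤ →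
        ∃ (X : Fin Nc → E n → ℂ) (Φ' : E n → ℂ), Measurable Φ' ∧
          (∀ c, H2 n (ENNReal.ofReal C * energy a Φ) (X c)) ∧
          4 * energy a Φ' ≤ energy a Φ ∧
          ∀ z ∈ Metric.ball (0 : E n) 1,
            synth n al Φ z = ∑ c, G c z * X c z + synth n al Φ' z

/-- the statement S03469 for a fixed dimension n -/
def Goal (n : ℕ) : Prop :=
  ∀ f : E n → ℂ,
    DifferentiableOn ℂ f (Metric.ball (0 : E n) 1) →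
    (∃ C : ℝ, ∀ r : ℝ, 0 ≤ r → r < 1 →
      ∫⁻ ζ, ‖f ((r : ℂ) • (ζ : E n))‖ₑ ∂(sg n) ≤ ENNReal.ofReal C) →
    ∃ N : ℕ, ∃ g h : Fin N → E n → ℂ,
      (∀ i, DifferentiableOn ℂ (g i) (Metric.ball (0 : E n) 1) ∧
        ∃ C : ℝ, ∀ r : ℝ, 0 ≤ r → r < 1 →
          ∫⁻ ζ, ‖g i ((r : ℂ) • (ζ : E n))‖ₑ ^ 2 ∂(sg n) ≤ ENNReal.ofReal C) ∧
      (∀ i, DifferentiableOn ℂ (h i) (Metric.ball (0 : E n) 1) ∧
        ∃ C : ℝ, ∀ r : ℝ, 0 ≤ r → r < 1 →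
          ∫⁻ ζ, ‖h i ((r : ℂ) • (ζ : E n))‖ₑ ^ 2 ∂(sg n) ≤ ENNReal.ofReal C) ∧
      ∀ z ∈ Metric.ball (0 : E n) 1, f z = ∑ i, g i z * h i z

end Pool.Agent.Helper19.RU
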