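import Mathlib
import Pool.Agent.HpBall.Defs2
import Pool.Agent.Helper19.RU.Step
import Pool.Agent.Helper19.RU.BallEq
set_option autoImplicit false
open MeasureTheory Complex
open scoped ENNReal NNReal

namespace Pool.Agent.Helper19.RU
open Pool.Agent.HpBall





/-- kernel of the divided synthesis operator -/
noncomputable def kq {n : ℕ} (N m : ℕ) (w w0 z : E n) : ℂ :=
  ((1 - inner ℂ w z) ^ N)⁻¹ * (1 - inner ℂ w0 z) ^ m

/-- its image under R + M (derivative in z) -/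
noncomputable def dkq {n : ℕ} (M N m : ℕ) (w w0 z : E n) : ℂ :=
  N * (inner ℂ w z) * ((1 - inner ℂ w z) ^ (N + 1))⁻¹ * (1 - inner ℂ w0 z) ^ m
    - m * (inner ℂ w0 z) * ((1 - inner ℂ w z) ^ N)⁻¹ * (1 - inner ℂ w0 z) ^ (m - 1)
    + M * kq N m w w0 z

/-- the derivative of the kernel in `z` -/
noncomputable def diff_int_dk {n : ℕ} (N m : ℕ) (w w0 z : E n) : E n →L[ℂ] ℂ :=
  ((N : ℂ) * ((1 - inner ℂ w z) ^ (N + 1))⁻¹ * (1 - inner ℂ w0 z) ^ m) • innerSL ℂ w
    - ((m : ℂ) * ((1 - inner ℂ w z) ^ N)⁻¹ * (1 - inner ℂ w0 z) ^ (m - 1)) • innerSL ℂ w0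

theorem diff_int_dk_apply {n : ℕ} (M N m : ℕ) (w w0 z : E n) :
    diff_int_dk N m w w0 z z + M * kq N m w w0 z = dkq M N m w w0 z := by
  unfold diff_int_dk dkq
  simp only [sub_apply, smul_apply, innerSL_apply_apply,
    smul_eq_mul]
  ring

theorem diff_int_u_lower {n : ℕ} {w z : E n} {ρ : ℝ} (hw : ‖w‖ ≤ 1) (hz : ‖z‖ ≤ ρ) :
    1 - ρ ≤ ‖1 - inner ℂ w z‖ := by
  have h1 : ‖inner ℂ w z‖ ≤ ρ := by
    refine (norm_inner_le_norm w z).trans ?_
    have := norm_nonneg z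
    have := norm_nonneg w
    nlinarith
  have h2 := norm_sub_norm_le (1 : ℂ) (inner ℂ w z)
  rw [norm_one] at h2
  linarith

theorem diff_int_u_upper {n : ℕ} {w z : E n} (hw : ‖w‖ ≤ 1) (hz : ‖z‖ ≤ 1) :
    ‖1 - inner ℂ w z‖ ≤ 2 := by
  have h1 : ‖inner ℂ w z‖ ≤ 1 := by
    refine (norm_inner_le_norm w z).trans ?_
    have := norm_nonneg z
    have := norm_nonneg w
    nlinarith
  have h2 := norm_sub_le (1 : ℂ) (inner ℂ w z)
  rw [norm_one] at h2
  linarith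

theorem diff_int_u_inv {n : ℕ} {w z : E n} {ρ : ℝ} (hρ : ρ < 1) (hw : ‖w‖ ≤ 1) (hz : ‖z‖ ≤ ρ) (N : ℕ) :
    ‖((1 - inner ℂ w z) ^ N)⁻¹‖ ≤ ((1 - ρ) ^ N)⁻¹ := by
  rw [norm_inv, norm_pow]
  have h0 : 0 < 1 - ρ := by linarith
  exact inv_anti₀ (pow_pos h0 N) (pow_le_pow_left₀ h0.le (diff_int_u_lower hw hz) N)

theorem diff_int_kq_bound {n : ℕ} (N m : ℕ) {w w0 z : E n} {ρ : ℝ} (hρ : ρ < 1) (hw : ‖w‖ ≤ 1)
    (hw0 : ‖w0‖ ≤ 1) (hz : ‖z‖ ≤ ρ) : ‖kq N m w w0 z‖ ≤ ((1 - ρ) ^ N)⁻¹ * 2 ^ m := by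
  unfold kq
  rw [norm_mul, norm_pow]
  have h1 := diff_int_u_inv hρ hw hz N
  have h2 := pow_le_pow_left₀ (norm_nonneg _) (diff_int_u_upper hw0 (hz.trans hρ.le)) m
  have h3 : 0 ≤ ((1 - ρ) ^ N)⁻¹ := by
    have : 0 < 1 - ρ := by linarith
    positivity
  exact mul_le_mul h1 h2 (by positivity) h3

theorem diff_int_dk_bound {n : ℕ} (N m : ℕ) {w w0 z : E n} {ρ : ℝ} (hρ : ρ < 1) (hw : ‖w‖ ≤ 1)
    (hw0 : ‖w0‖ ≤ 1) (hz : ‖z‖ ≤ ρ) : ‖diff_int_dk N m w w0 z‖ ≤
      N * ((1 - ρ) ^ (N + 1))⁻¹ * 2 ^ m + m * ((1 - ρ) ^ N)⁻¹ * 2 ^ (m - 1) := by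
  unfold diff_int_dk
  refine (norm_sub_le _ _).trans ?_
  rw [norm_smul, norm_smul, norm_mul, norm_mul, norm_mul, norm_mul, innerSL_apply_norm,
    innerSL_apply_norm, norm_pow (1 - inner ℂ w0 z), norm_pow (1 - inner ℂ w0 z),
    Complex.norm_natCast, Complex.norm_natCast]
  have h0 : 0 < 1 - ρ := by linarith
  have h1 := diff_int_u_inv hρ hw hz N
  have h1' := diff_int_u_inv hρ hw hz (N + 1)
  have h2 := pow_le_pow_left₀ (norm_nonneg _) (diff_int_u_upper hw0 (hz.trans hρ.le)) m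
  have h2' := pow_le_pow_left₀ (norm_nonneg _) (diff_int_u_upper hw0 (hz.trans hρ.le)) (m - 1)
  have h3 : 0 ≤ ((1 - ρ) ^ N)⁻¹ := by positivity
  have h3' : 0 ≤ ((1 - ρ) ^ (N + 1))⁻¹ := by positivity
  apply add_le_add
  · calc _ ≤ (N * ((1 - ρ) ^ (N + 1))⁻¹ * 2 ^ m) * 1 := by
          apply mul_le_mul _ hw (norm_nonneg _) (by positivity)
          apply mul_le_mul _ h2 (by positivity) (by positivity)
          exact mul_le_mul_of_nonneg_left h1' (by positivity)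
      _ = _ := mul_one _
  · calc _ ≤ (m * ((1 - ρ) ^ N)⁻¹ * 2 ^ (m - 1)) * 1 := by
          apply mul_le_mul _ hw0 (norm_nonneg _) (by positivity)
          apply mul_le_mul _ h2' (by positivity) (by positivity)
          exact mul_le_mul_of_nonneg_left h1 (by positivity)
      _ = _ := mul_one _

theorem diff_int_u_deriv {n : ℕ} (w z : E n) :
    HasFDerivAt (fun z : E n => 1 - inner ℂ w z) (-(innerSL ℂ w)) z := by
  have h1 : HasFDerivAt (fun z : E n => inner ℂ w z) (innerSL ℂ w) z :=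
    (innerSL ℂ w).hasFDerivAt
  have := h1.const_sub 1
  exact this

theorem diff_int_kq_deriv {n : ℕ} (N m : ℕ) {w w0 z : E n} (hu : 1 - inner ℂ w z ≠ 0) :
    HasFDerivAt (fun z => kq N m w w0 z) (diff_int_dk N m w w0 z) z := by
  have h1 := (diff_int_u_deriv w z).pow N
  have hne : (1 - inner ℂ w z) ^ N ≠ 0 := pow_ne_zero _ hu
  have h2 := (hasDerivAt_inv hne).hasFDerivAt.comp z h1
  have h3 := (diff_int_u_deriv w0 z).pow m
  have h4 := h2.mul h3
  have h5 : HasFDerivAt (fun z => kq N m w w0 z) _ z := h4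
  refine h5.congr_fderiv ?_
  unfold diff_int_dk
  ext v
  simp only [sub_apply, smul_apply, innerSL_apply_apply,
    smul_eq_mul, add_apply, ContinuousLinearMap.comp_apply,
    ContinuousLinearMap.toSpanSingleton_apply, neg_apply,
    Function.comp_apply]
  rcases N with _ | N
  · simp
  · simp only [Nat.add_sub_cancel]
    push_cast
    field_simp
    ring

theorem diff_int_u_meas {n : ℕ} (w0 : E n → E n) (hw0 : Measurable w0) (z : E n) :
    Measurable (fun w => 1 - inner ℂ (w0 w) z) :=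
  measurable_const.sub (hw0.inner measurable_const)

theorem diff_int_kq_meas {n : ℕ} (N m : ℕ) (w0 : E n → E n) (hw0 : Measurable w0) (z : E n) :
    Measurable (fun w => kq N m w (w0 w) z) := by
  unfold kq
  exact (((diff_int_u_meas id measurable_id z).pow_const N).inv).mul ((diff_int_u_meas w0 hw0 z).pow_const m)

theorem diff_int_dk_meas {n : ℕ} (N m : ℕ) (w0 : E n → E n) (hw0 : Measurable w0) (z : E n) :
    StronglyMeasurable (fun w => diff_int_dk N m w (w0 w) z) := by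
  unfold diff_int_dk
  have h1 : StronglyMeasurable (fun w : E n => (innerSL ℂ w : E n →L[ℂ] ℂ)) :=
    (innerSL ℂ).continuous.stronglyMeasurable
  have h2 : StronglyMeasurable (fun w : E n => (innerSL ℂ (w0 w) : E n →L[ℂ] ℂ)) :=
    (innerSL ℂ).continuous.comp_stronglyMeasurable hw0.stronglyMeasurable
  have m1 := (diff_int_u_meas id measurable_id z)
  have m2 := (diff_int_u_meas w0 hw0 z)
  have a1 : StronglyMeasurable (fun w : E n =>
      (N : ℂ) * ((1 - inner ℂ w z) ^ (N + 1))⁻¹ * (1 - inner ℂ (w0 w) z) ^ m) :=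
    ((measurable_const.mul ((m1.pow_const (N + 1)).inv)).mul
      (m2.pow_const m)).stronglyMeasurable
  have a2 : StronglyMeasurable (fun w : E n =>
      (m : ℂ) * ((1 - inner ℂ w z) ^ N)⁻¹ * (1 - inner ℂ (w0 w) z) ^ (m - 1)) :=
    ((measurable_const.mul ((m1.pow_const N).inv)).mul
      (m2.pow_const (m - 1))).stronglyMeasurable
  exact (a1.smul h1).sub (a2.smul h2)

theorem diff_int_diff_at {n : ℕ} (μ : Measure (E n)) (hae : ∀ᵐ w ∂μ, ‖w‖ ≤ 1) (Φ : E n → ℂ)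
    (hΦ : Integrable Φ μ) (w0 : E n → E n) (hw0 : Measurable w0) (hw01 : ∀ w, ‖w0 w‖ ≤ 1)
    (N m : ℕ) (z : E n) (hz : ‖z‖ < 1) :
    Integrable (fun w => Φ w * kq N m w (w0 w) z) μ ∧
    Integrable (fun w => Φ w • diff_int_dk N m w (w0 w) z) μ ∧
    HasFDerivAt (fun z => ∫ w, Φ w * kq N m w (w0 w) z ∂μ)
      (∫ w, Φ w • diff_int_dk N m w (w0 w) z ∂μ) z := by
  obtain ⟨ρ, hρ1, hρ2⟩ := exists_between hz
  have hint : ∀ z' : E n, ‖z'‖ ≤ ρ → Integrable (fun w => Φ w * kq N m w (w0 w) z') μ := by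
    intro z' hz'
    refine Integrable.mono' (hΦ.norm.mul_const (((1 - ρ) ^ N)⁻¹ * 2 ^ m))
      (hΦ.1.mul (diff_int_kq_meas N m w0 hw0 z').aestronglyMeasurable) ?_
    filter_upwards [hae] with w hw
    rw [norm_mul]
    exact mul_le_mul_of_nonneg_left (diff_int_kq_bound N m hρ2 hw (hw01 w) hz') (norm_nonneg _)
  have hmeas : ∀ z' : E n, AEStronglyMeasurable (fun w => Φ w • diff_int_dk N m w (w0 w) z') μ :=
    fun z' => hΦ.1.smul (diff_int_dk_meas N m w0 hw0 z').aestronglyMeasurable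
  have hbd : ∀ᵐ w ∂μ, ∀ z' ∈ Metric.ball (0 : E n) ρ, ‖Φ w • diff_int_dk N m w (w0 w) z'‖ ≤
      ‖Φ w‖ * (N * ((1 - ρ) ^ (N + 1))⁻¹ * 2 ^ m + m * ((1 - ρ) ^ N)⁻¹ * 2 ^ (m - 1)) := by
    filter_upwards [hae] with w hw
    intro z' hz'
    rw [norm_smul]
    exact mul_le_mul_of_nonneg_left
      (diff_int_dk_bound N m hρ2 hw (hw01 w) (by simpa using (Metric.mem_ball.1 hz').le)) (norm_nonneg _)
  have hbi : Integrable (fun w => ‖Φ w‖ * (N * ((1 - ρ) ^ (N + 1))⁻¹ * 2 ^ m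
      + m * ((1 - ρ) ^ N)⁻¹ * 2 ^ (m - 1))) μ := hΦ.norm.mul_const _
  have hzb : z ∈ Metric.ball (0 : E n) ρ := by simpa using hρ1
  refine ⟨hint z hρ1.le, ?_, ?_⟩
  · refine Integrable.mono' hbi (hmeas z) ?_
    filter_upwards [hbd] with w hw
    exact hw z hzb
  · refine hasFDerivAt_integral_of_dominated_of_fderiv_le (s := Metric.ball (0 : E n) ρ)
      (bound := fun w => ‖Φ w‖ * (N * ((1 - ρ) ^ (N + 1))⁻¹ * 2 ^ m
        + m * ((1 - ρ) ^ N)⁻¹ * 2 ^ (m - 1)))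
      (F' := fun z w => Φ w • diff_int_dk N m w (w0 w) z)
      (Metric.isOpen_ball.mem_nhds hzb) ?_ (hint z hρ1.le) (hmeas z) hbd hbi ?_
    · exact Filter.Eventually.of_forall
        (fun z' => hΦ.1.mul (diff_int_kq_meas N m w0 hw0 z').aestronglyMeasurable)
    · filter_upwards [hae] with w hw
      intro z' hz'
      have hz'' : ‖z'‖ ≤ ρ := by simpa using (Metric.mem_ball.1 hz').le
      have h1 := diff_int_u_lower hw hz''
      have h2 : 1 - inner ℂ w z' ≠ 0 := by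
        rw [← norm_pos_iff]
        linarith
      exact (diff_int_kq_deriv N m h2).const_mul (Φ w)

/-- differentiation under the integral sign: here w0 may depend on w (the owner of w), but takes
values in the closed ball. -/
theorem diff_int {n : ℕ} (μ : Measure (E n)) (hae : ∀ᵐ w ∂μ, ‖w‖ ≤ 1) (Φ : E n → ℂ)
    (hΦ : Integrable Φ μ) (w0 : E n → E n) (hw0 : Measurable w0) (hw01 : ∀ w, ‖w0 w‖ ≤ 1)
    (M N m : ℕ) :
    DifferentiableOn ℂ (fun z => ∫ w, Φ w * kq N m w (w0 w) z ∂μ) (Metric.ball 0 1) ∧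
    ∀ z ∈ Metric.ball (0 : E n) 1,
      DD M (fun z => ∫ w, Φ w * kq N m w (w0 w) z ∂μ) z = ∫ w, Φ w * dkq M N m w (w0 w) z ∂μ := by
  constructor
  · intro z hz
    have hz' : ‖z‖ < 1 := by simpa using hz
    exact (diff_int_diff_at μ hae Φ hΦ w0 hw0 hw01 N m z hz').2.2.differentiableAt.differentiableWithinAt
  · intro z hz
    have hz' : ‖z‖ < 1 := by simpa using hz
    obtain ⟨h1, h2, h3⟩ := diff_int_diff_at μ hae Φ hΦ w0 hw0 hw01 N m z hz'
    unfold DD rad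
    rw [h3.fderiv, ContinuousLinearMap.integral_apply h2, ← integral_const_mul, ← integral_add]
    · refine integral_congr_ae (Filter.Eventually.of_forall (fun w => ?_))
      simp only [smul_apply, smul_eq_mul]
      rw [← diff_int_dk_apply]
      ring
    · exact (ContinuousLinearMap.apply ℂ ℂ z).integrable_comp h2
    · exact h1.const_mul _

end Pool.Agent.Helper19.RU
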