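import Mathlib
import Pool.Agent.HpBall.Defs2
import Pool.Agent.Helper19.RU.Step
import Pool.Agent.Helper19.RU.BallEq
set_option autoImplicit false
open MeasureTheory Complex
open scoped ENNReal NNReal

namespace Pool.Agent.Helper19.RU
open Pool.Agent.HpBall



theorem int_exp_aux (n : ℤ) :
    ∫ t in (0:ℝ)..(2 * Real.pi), Complex.exp ((n : ℂ) * I * t) = if n = 0 then ((2 * Real.pi : ℝ) : ℂ) else 0 := by
  by_cases hn : n = 0
  · subst hn
    simp
  · rw [if_neg hn, integral_exp_mul_complex (mul_ne_zero (by exact_mod_cast hn) I_ne_zero)]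
    have h1 : Complex.exp ((n : ℂ) * I * ((2 * Real.pi : ℝ) : ℂ)) = 1 := by
      rw [← Complex.exp_int_mul_two_pi_mul_I n]
      congr 1
      push_cast
      ring
    rw [h1]
    simp

theorem coef_aux {a : ℕ → ℂ} (ha : Summable fun k => ‖a k‖) {g : ℝ → ℂ}
    (hg : ∀ t : ℝ, HasSum (fun k : ℕ => a k * Complex.exp ((k : ℂ) * I * t)) (g t)) (k : ℕ) :
    ∫ t in (0:ℝ)..(2 * Real.pi), g t * Complex.exp (-((k : ℂ) * I * t)) = ((2 * Real.pi : ℝ) : ℂ) * a k := by
  have hn : ∀ (n : ℕ) (t : ℝ), ‖Complex.exp ((n : ℂ) * I * t)‖ = 1 := by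
    intro n t
    rw [Complex.norm_exp]
    simp
  have hn' : ∀ (n : ℕ) (t : ℝ), ‖Complex.exp (-((n : ℂ) * I * t))‖ = 1 := by
    intro n t
    rw [Complex.norm_exp]
    simp
  have h1 := intervalIntegral.hasSum_integral_of_dominated_convergence (μ := volume)
    (a := (0:ℝ)) (b := 2 * Real.pi)
    (F := fun (n : ℕ) (t : ℝ) => a n * Complex.exp ((n : ℂ) * I * t) * Complex.exp (-((k : ℂ) * I * t)))
    (f := fun t : ℝ => g t * Complex.exp (-((k : ℂ) * I * t)))
    (fun n _ => ‖a n‖)
    (fun n => (Continuous.aestronglyMeasurable (by fun_prop)))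
    (fun n => Filter.Eventually.of_forall fun t _ => by
      rw [norm_mul, norm_mul, hn, hn', mul_one, mul_one])
    (Filter.Eventually.of_forall fun t _ => ha)
    (by simp)
    (Filter.Eventually.of_forall fun t _ => (hg t).mul_right _)
  have h2 : ∀ n : ℕ, ∫ t in (0:ℝ)..(2 * Real.pi), a n * Complex.exp ((n : ℂ) * I * t) *
      Complex.exp (-((k : ℂ) * I * t)) = if n = k then ((2 * Real.pi : ℝ) : ℂ) * a k else 0 := by
    intro n
    have h3 : ∀ t : ℝ, a n * Complex.exp ((n : ℂ) * I * t) * Complex.exp (-((k : ℂ) * I * t)) =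
        a n * Complex.exp (((((n : ℤ) - (k : ℤ) : ℤ)) : ℂ) * I * t) := by
      intro t
      rw [mul_assoc, ← Complex.exp_add]
      congr 2
      push_cast
      ring
    simp only [h3]
    rw [intervalIntegral.integral_const_mul, int_exp_aux]
    by_cases hnk : n = k
    · subst hnk
      simp [mul_comm]
    · rw [if_neg hnk, if_neg (by omega), mul_zero]
  simp only [h2] at h1
  exact h1.unique (hasSum_ite_eq k _)

theorem pars_aux {a : ℕ → ℂ} (ha : Summable fun k => ‖a k‖) {g : ℝ → ℂ} (hgc : Continuous g)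
    (hg : ∀ t : ℝ, HasSum (fun k : ℕ => a k * Complex.exp ((k : ℂ) * I * t)) (g t)) :
    HasSum (fun k => 2 * Real.pi * ‖a k‖ ^ 2) (∫ t in (0:ℝ)..(2 * Real.pi), ‖g t‖ ^ 2) := by
  have hn : ∀ (n : ℕ) (t : ℝ), ‖Complex.exp ((n : ℂ) * I * t)‖ = 1 := by
    intro n t
    rw [Complex.norm_exp]
    simp
  have hgb : ∀ t, ‖g t‖ ≤ ∑' k, ‖a k‖ := by
    intro t
    rw [← (hg t).tsum_eq]
    have h1 : ∀ k : ℕ, ‖a k * Complex.exp ((k : ℂ) * I * t)‖ = ‖a k‖ := by
      intro k
      rw [norm_mul, hn, mul_one]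
    refine (norm_tsum_le_tsum_norm ?_).trans (le_of_eq ?_)
    · simp only [h1]; exact ha
    · simp only [h1]
  have h1 := intervalIntegral.hasSum_integral_of_dominated_convergence (μ := volume)
    (a := (0:ℝ)) (b := 2 * Real.pi)
    (F := fun (n : ℕ) (t : ℝ) => a n * Complex.exp ((n : ℂ) * I * t) * (starRingEnd ℂ) (g t))
    (f := fun t : ℝ => g t * (starRingEnd ℂ) (g t))
    (fun n _ => ‖a n‖ * ∑' k, ‖a k‖)
    (fun n => (Continuous.aestronglyMeasurable (by fun_prop)))
    (fun n => Filter.Eventually.of_forall fun t _ => by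
      rw [norm_mul, norm_mul, hn, mul_one, RCLike.norm_conj]
      exact mul_le_mul_of_nonneg_left (hgb t) (norm_nonneg _))
    (Filter.Eventually.of_forall fun t _ => ha.mul_right _)
    (by simp)
    (Filter.Eventually.of_forall fun t _ => (hg t).mul_right _)
  have h2 : ∀ n : ℕ, ∫ t in (0:ℝ)..(2 * Real.pi), a n * Complex.exp ((n : ℂ) * I * t) *
      (starRingEnd ℂ) (g t) = ((2 * Real.pi * ‖a n‖ ^ 2 : ℝ) : ℂ) := by
    intro n
    have h3 : ∀ t : ℝ, a n * Complex.exp ((n : ℂ) * I * t) * (starRingEnd ℂ) (g t) =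
        a n * (starRingEnd ℂ) (g t * Complex.exp (-((n : ℂ) * I * t))) := by
      intro t
      rw [map_mul, ← Complex.exp_conj]
      have : (starRingEnd ℂ) (-((n : ℂ) * I * t)) = (n : ℂ) * I * t := by
        simp
      rw [this]
      ring
    simp only [h3]
    rw [intervalIntegral.integral_const_mul]
    have h4 : ∫ t in (0:ℝ)..(2 * Real.pi), (starRingEnd ℂ) (g t * Complex.exp (-((n : ℂ) * I * t))) =
        (starRingEnd ℂ) (∫ t in (0:ℝ)..(2 * Real.pi), g t * Complex.exp (-((n : ℂ) * I * t))) := by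
      rw [intervalIntegral.integral_of_le (by positivity), intervalIntegral.integral_of_le (by positivity)]
      exact integral_conj
    rw [h4, coef_aux ha hg n, map_mul, Complex.conj_ofReal]
    have h5 : a n * (((2 * Real.pi : ℝ) : ℂ) * (starRingEnd ℂ) (a n)) =
        ((2 * Real.pi : ℝ) : ℂ) * (a n * (starRingEnd ℂ) (a n)) := by ring
    rw [h5, Complex.mul_conj, Complex.normSq_eq_norm_sq]
    push_cast
    ring
  have h6 : ∫ t in (0:ℝ)..(2 * Real.pi), g t * (starRingEnd ℂ) (g t) =
      ((∫ t in (0:ℝ)..(2 * Real.pi), ‖g t‖ ^ 2 : ℝ) : ℂ) := by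
    rw [← intervalIntegral.integral_ofReal]
    apply intervalIntegral.integral_congr
    intro t _
    beta_reduce
    rw [Complex.mul_conj, Complex.normSq_eq_norm_sq]
  simp only [h2] at h1
  rw [h6] at h1
  exact Complex.hasSum_ofReal.mp h1

theorem HasSum.congr_fun' {f g : ℕ → ℂ} {a : ℂ} (h : HasSum f a) (hfg : ∀ k, g k = f k) :
    HasSum g a := by
  have : g = f := funext hfg
  rw [this]; exact h

/-- Parseval for a holomorphic function on the circle of radius r < 1. -/
theorem parseval_disc {G : ℂ → ℂ} (hG : DifferentiableOn ℂ G (Metric.ball 0 1)) {r : ℝ}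
    (hr0 : 0 ≤ r) (hr1 : r < 1) :
    ∫⁻ t in Set.Ioc (0:ℝ) (2 * Real.pi), ENNReal.ofReal (‖G (r * Complex.exp (t * I))‖ ^ 2) =
      ENNReal.ofReal (2 * Real.pi) * ∑' k : ℕ, ENNReal.ofReal (‖tc G k‖ ^ 2 * (r ^ k) ^ 2) := by
  have hmem : ∀ t : ℝ, (r : ℂ) * Complex.exp (t * I) ∈ Metric.ball (0:ℂ) 1 := by
    intro t
    rw [mem_ball_zero_iff, norm_mul, Complex.norm_exp_ofReal_mul_I, mul_one, Complex.norm_real,
      Real.norm_of_nonneg hr0]
    exact hr1
  have hgc : Continuous fun t : ℝ => G (r * Complex.exp (t * I)) := by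
    apply hG.continuousOn.comp_continuous
    · fun_prop
    · exact hmem
  have hg : ∀ t : ℝ, HasSum (fun k : ℕ => (tc G k * (r : ℂ) ^ k) * Complex.exp ((k : ℂ) * I * t))
      (G (r * Complex.exp (t * I))) := by
    intro t
    have h1 := Complex.hasSum_taylorSeries_on_ball hG (hmem t)
    refine HasSum.congr_fun' h1 ?_
    intro k
    unfold tc
    rw [sub_zero, smul_eq_mul, smul_eq_mul, mul_pow, ← Complex.exp_nat_mul]
    have : (k : ℂ) * I * t = k * (t * I) := by ring
    rw [this]
    ring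
  have ha : Summable fun k => ‖tc G k * (r : ℂ) ^ k‖ := by
    have h1 := (hg 0).summable.norm
    simpa using h1
  have hp := pars_aux ha hgc hg
  rw [intervalIntegral.integral_of_le (by positivity)] at hp
  rw [← ofReal_integral_eq_lintegral_ofReal]
  · rw [← hp.tsum_eq, ← ENNReal.tsum_mul_left]
    rw [ENNReal.ofReal_tsum_of_nonneg (fun k => by positivity) hp.summable]
    apply tsum_congr
    intro k
    rw [ENNReal.ofReal_mul (by positivity)]
    congr 2
    rw [norm_mul, norm_pow, Complex.norm_real, Real.norm_of_nonneg hr0, mul_pow]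
  · have h1 : Continuous fun t : ℝ => ‖G (r * Complex.exp (t * I))‖ ^ 2 := (hgc.norm).pow 2
    exact (h1.integrableOn_Icc (a := 0) (b := 2 * Real.pi)).mono_set Set.Ioc_subset_Icc_self
  · exact Filter.Eventually.of_forall fun t => by positivity

/-- the Taylor coefficients of z G' + N G -/
theorem tc_euler {G : ℂ → ℂ} (hG : DifferentiableOn ℂ G (Metric.ball 0 1)) (N k : ℕ) :
    tc (fun z => z * deriv G z + N * G z) k = (k + N) * tc G k := by
  have han : AnalyticOnNhd ℂ G (Metric.ball 0 1) := hG.analyticOnNhd Metric.isOpen_ball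
  have hd : ∀ (n : ℕ) (z : ℂ), z ∈ Metric.ball (0:ℂ) 1 → DifferentiableAt ℂ (iteratedDeriv n G) z := by
    intro n z hz
    rw [iteratedDeriv_eq_iterate]
    exact (han.iterated_deriv n z hz).differentiableAt
  have key : ∀ n : ℕ, ∀ z ∈ Metric.ball (0:ℂ) 1,
      iteratedDeriv n (fun z => z * deriv G z + N * G z) z =
        z * iteratedDeriv (n + 1) G z + (n + N) * iteratedDeriv n G z := by
    intro n
    induction n with
    | zero =>
      intro z _
      rw [iteratedDeriv_zero, iteratedDeriv_zero, zero_add, iteratedDeriv_one]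
      push_cast
      ring
    | succ n ih =>
      intro z hz
      rw [iteratedDeriv_succ]
      have h1 : iteratedDeriv n (fun z => z * deriv G z + N * G z) =ᶠ[nhds z]
          fun z => z * iteratedDeriv (n + 1) G z + (n + N) * iteratedDeriv n G z := by
        filter_upwards [Metric.isOpen_ball.mem_nhds hz] with w hw
        exact ih w hw
      rw [h1.deriv_eq]
      have h2 : HasDerivAt (iteratedDeriv (n + 1) G) (iteratedDeriv (n + 2) G z) z := by
        have := (hd (n + 1) z hz).hasDerivAt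
        rwa [← iteratedDeriv_succ] at this
      have h3 : HasDerivAt (iteratedDeriv n G) (iteratedDeriv (n + 1) G z) z := by
        have := (hd n z hz).hasDerivAt
        rwa [← iteratedDeriv_succ] at this
      have h4 := ((hasDerivAt_id z).mul h2).add (h3.const_mul ((n : ℂ) + N))
      have h5 : HasDerivAt (fun z => z * iteratedDeriv (n + 1) G z + (n + N) * iteratedDeriv n G z)
          (1 * iteratedDeriv (n + 1) G z + z * iteratedDeriv (n + 2) G z +
            ((n : ℂ) + N) * iteratedDeriv (n + 1) G z) z := h4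
      rw [h5.deriv]
      push_cast
      ring
  unfold tc
  rw [key k 0 (Metric.mem_ball_self one_pos)]
  ring

end Pool.Agent.Helper19.RU
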