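import Mathlib
import Pool.Agent.HpBall.Defs2
import Pool.Agent.Helper19.RU.Step
import Pool.Agent.Helper19.RU.BallEq
set_option autoImplicit false
open MeasureTheory Complex
open scoped ENNReal NNReal

namespace Pool.Agent.Helper19.RU
open Pool.Agent.HpBall


theorem ruj_prod (a : ℕ) (K : ℕ) : 
    (∏ j ∈ Finset.range (a + 2), ((K : ℝ) + j)) =
      (∏ j ∈ Finset.range (a + 1), ((K : ℝ) + j)) * (K + a + 1) ∧
    (∏ j ∈ Finset.range (a + 2), ((K : ℝ) + j)) =
      K * ∏ j ∈ Finset.range (a + 1), (((K + 1 : ℕ) : ℝ) + j) := by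
  constructor
  · rw [Finset.prod_range_succ]
    push_cast
    ring
  · rw [Finset.prod_range_succ', mul_comm]
    push_cast
    congr 1
    · ring
    · apply Finset.prod_congr rfl
      intro j _
      ring

/-- radial Beta integral -/
theorem radial_int (a : ℕ) (K : ℕ) (hK : 1 ≤ K) :
    IntegrableOn (fun x : ℝ => Real.exp (-(2 * K * x)) * (1 - Real.exp (-(2 * x))) ^ a) (Set.Ioi 0) ∧
    ∫ x in Set.Ioi (0:ℝ), Real.exp (-(2 * K * x)) * (1 - Real.exp (-(2 * x))) ^ a =
      (a.factorial : ℝ) / (2 * ∏ j ∈ Finset.range (a + 1), ((K : ℝ) + j)) := by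
  induction a generalizing K with
  | zero =>
    have hK0 : (0 : ℝ) < K := by exact_mod_cast hK
    have hneg : -(2 * (K : ℝ)) < 0 := by linarith
    have h1 : ∀ x : ℝ, Real.exp (-(2 * K * x)) * (1 - Real.exp (-(2 * x))) ^ 0 =
        Real.exp (-(2 * (K : ℝ)) * x) := by
      intro x
      rw [pow_zero, mul_one]
      congr 1
      ring
    simp_rw [h1]
    refine ⟨integrableOn_exp_mul_Ioi hneg 0, ?_⟩
    rw [integral_exp_mul_Ioi hneg 0]
    simp
  | succ a ih =>
    obtain ⟨i1, v1⟩ := ih K hK
    obtain ⟨i2, v2⟩ := ih (K + 1) (by omega)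
    have h1 : ∀ x : ℝ, Real.exp (-(2 * K * x)) * (1 - Real.exp (-(2 * x))) ^ (a + 1) =
        Real.exp (-(2 * K * x)) * (1 - Real.exp (-(2 * x))) ^ a -
          Real.exp (-(2 * (K + 1 : ℕ) * x)) * (1 - Real.exp (-(2 * x))) ^ a := by
      intro x
      have h2 : Real.exp (-(2 * (K + 1 : ℕ) * x)) = Real.exp (-(2 * K * x)) * Real.exp (-(2 * x)) := by
        rw [← Real.exp_add]
        congr 1
        push_cast
        ring
      rw [h2]
      ring
    simp_rw [h1]
    refine ⟨i1.sub i2, ?_⟩
    rw [integral_sub i1 i2, v1, v2]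
    obtain ⟨p1, p2⟩ := ruj_prod a K
    set P := ∏ j ∈ Finset.range (a + 1), ((K : ℝ) + j) with hP
    set Q := ∏ j ∈ Finset.range (a + 1), (((K + 1 : ℕ) : ℝ) + j) with hQ
    set R := ∏ j ∈ Finset.range (a + 1 + 1), ((K : ℝ) + j) with hR
    have hK0 : (0 : ℝ) < K := by exact_mod_cast hK
    have hP0 : 0 < P := Finset.prod_pos (fun j _ => by positivity)
    have hQ0 : 0 < Q := Finset.prod_pos (fun j _ => by positivity)
    have hR0 : 0 < R := Finset.prod_pos (fun j _ => by positivity)
    change R = P * (K + a + 1) at p1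
    change R = K * Q at p2
    rw [Nat.factorial_succ]
    push_cast
    have e1 : 1 / P = (K + a + 1) / R := by
      rw [p1]; field_simp
    have e2 : 1 / Q = K / R := by
      rw [p2]; field_simp
    calc (a.factorial : ℝ) / (2 * P) - a.factorial / (2 * Q) 
        = a.factorial / 2 * (1 / P - 1 / Q) := by field_simp
      _ = a.factorial / 2 * ((K + a + 1) / R - K / R) := by rw [e1, e2]
      _ = ((a : ℝ) + 1) * a.factorial / (2 * R) := by field_simp; ring

/-- a = 1, lintegral form -/
theorem radial_lint (K : ℕ) (hK : 1 ≤ K) :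
    ∫⁻ x in Set.Ioi (0:ℝ), ENNReal.ofReal (Real.exp (-(2 * K * x)) * (1 - Real.exp (-(2 * x)))) =
      ENNReal.ofReal (1 / (2 * (K * (K + 1)))) := by
  obtain ⟨i1, v1⟩ := radial_int 1 K hK
  simp only [pow_one] at i1 v1
  rw [← ofReal_integral_eq_lintegral_ofReal i1, v1]
  · congr 1
    simp [Finset.prod_range_succ]
  · refine (ae_restrict_iff' measurableSet_Ioi).mpr (Filter.Eventually.of_forall ?_)
    intro x hx
    have h1 : Real.exp (-(2 * x)) ≤ 1 := by
      rw [Real.exp_le_one_iff]
      have : (0:ℝ) < x := hx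
      linarith
    have h2 := Real.exp_pos (-(2 * K * x))
    show 0 ≤ Real.exp (-(2 * K * x)) * (1 - Real.exp (-(2 * x)))
    exact mul_nonneg h2.le (by linarith)

/-- the constants in the reproducing formula: with cn = binom(k+n-1, n-1)/pi^n -/
theorem repro_const (n a k : ℕ) (hn : 1 ≤ n) :
    ((k + (n + a - 1)).choose (n + a - 1) : ℝ) * ((k : ℝ) + (n + a : ℕ)) *
      ((((k + n - 1).choose (n - 1) : ℕ) : ℝ) / Real.pi ^ n)⁻¹ *
      ((a.factorial : ℝ) / (2 * ∏ j ∈ Finset.range (a + 1), (((k + n : ℕ) : ℝ) + j))) =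
      Real.pi ^ n * a.factorial * (n - 1).factorial / (2 * (n + a - 1).factorial) := by
  obtain ⟨m, rfl⟩ : ∃ m, n = m + 1 := ⟨n - 1, by omega⟩
  have e1 : m + 1 + a - 1 = m + a := by omega
  have e2 : k + (m + 1) - 1 = k + m := by omega
  have e3 : m + 1 - 1 = m := by omega
  rw [e1, e2, e3]
  have h1 : ((k + (m + a)).choose (m + a) : ℝ) * (m + a).factorial * k.factorial =
      (k + (m + a)).factorial := by
    have := Nat.choose_mul_factorial_mul_factorial (show m + a ≤ k + (m + a) by omega)
    rw [Nat.add_sub_cancel] at this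
    exact_mod_cast this
  have h2 : ((k + m).choose m : ℝ) * m.factorial * k.factorial = (k + m).factorial := by
    have := Nat.choose_mul_factorial_mul_factorial (show m ≤ k + m by omega)
    rw [Nat.add_sub_cancel] at this
    exact_mod_cast this
  have h3 : ((k + m).factorial : ℝ) * ∏ j ∈ Finset.range (a + 1), (((k + (m + 1) : ℕ) : ℝ) + j) =
      (k + (m + a)).factorial * (k + m + a + 1) := by
    have h4 := Nat.factorial_mul_ascFactorial (k + m) (a + 1)
    rw [Nat.ascFactorial_eq_prod_range] at h4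
    have h5 : (k + m + (a + 1)).factorial = (k + m + a + 1) * (k + (m + a)).factorial := by
      rw [show k + m + (a + 1) = (k + (m + a)) + 1 by ring, Nat.factorial_succ]
      ring
    rw [h5] at h4
    have h6 := congrArg (Nat.cast : ℕ → ℝ) h4
    push_cast at h6 ⊢
    rw [mul_comm ((k + (m + a)).factorial : ℝ)]
    rw [← h6]
    congr 1
    apply Finset.prod_congr rfl
    intro j _
    ring
  set P := ∏ j ∈ Finset.range (a + 1), (((k + (m + 1) : ℕ) : ℝ) + j) with hP
  have hP0 : 0 < P := Finset.prod_pos (fun j _ => by positivity)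
  have f1 : (0:ℝ) < (m + a).factorial := by exact_mod_cast Nat.factorial_pos _
  have f2 : (0:ℝ) < k.factorial := by exact_mod_cast Nat.factorial_pos _
  have f3 : (0:ℝ) < m.factorial := by exact_mod_cast Nat.factorial_pos _
  have f4 : (0:ℝ) < (k + m).factorial := by exact_mod_cast Nat.factorial_pos _
  have f5 : (0:ℝ) < (k + (m + a)).factorial := by exact_mod_cast Nat.factorial_pos _
  have f6 : (0:ℝ) < (k : ℝ) + m + a + 1 := by positivity
  have g1 : ((k + (m + a)).choose (m + a) : ℝ) =
      (k + (m + a)).factorial / ((m + a).factorial * k.factorial) := by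
    rw [← h1]; field_simp
  have g2 : ((k + m).choose m : ℝ) = (k + m).factorial / (m.factorial * k.factorial) := by
    rw [← h2]; field_simp
  have g3 : P = (k + (m + a)).factorial * (k + m + a + 1) / (k + m).factorial := by
    rw [← h3]; field_simp
  rw [g1, g2, g3]
  have hpi := Real.pi_pos
  push_cast
  rw [show (k : ℝ) + (m + 1 + a) = k + m + a + 1 by ring]
  field_simp

end Pool.Agent.Helper19.RU
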