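import Mathlib
import Pool.Agent.HpBall.Defs2
import Pool.Agent.Helper19.RU.Step
import Pool.Agent.Helper19.RU.BallEq
set_option autoImplicit false
open MeasureTheory Complex
open scoped ENNReal NNReal

namespace Pool.Agent.Helper19.RU
open Pool.Agent.HpBall







/-- the moments of DD N F on the sphere of radius e^{-x}. sig is a rotation invariant measure
on the unit sphere of E n which reproduces homogeneous polynomials. The facts hcoef, hrad, heuler,
hhom, hdd are already proved in our library; use them. -/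
theorem sphere_moment {n : ℕ} (μ : Measure (E n)) [IsFiniteMeasure μ] (hae : ∀ᵐ ξ ∂μ, ‖ξ‖ = 1)
    (hrot : ∀ (θ : ℝ) (f : E n → ℂ), ∫ ξ, f (Complex.exp (θ * I) • ξ) ∂μ = ∫ ξ, f ξ ∂μ)
    (cn : ℕ → ℝ) (hcn : ∀ k, 0 < cn k)
    (hrep : ∀ (k : ℕ) (P : E n → ℂ), Differentiable ℂ P →
      (∀ (c : ℂ) (z : E n), P (c • z) = c ^ k * P z) → ∀ x : E n,
      P x = (cn k : ℂ) * ∫ ζ, P ζ * (inner ℂ ζ x : ℂ) ^ k ∂μ)
    (hcoef : ∀ G : ℂ → ℂ, DifferentiableOn ℂ G (Metric.ball 0 1) → ∀ r : ℝ, 0 < r → r < 1 →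
      ∀ k : ℕ, ∫ θ in (0:ℝ)..(2 * Real.pi), Complex.exp (-(θ * I)) ^ k *
        G (r * Complex.exp (θ * I)) = 2 * Real.pi * (tc G k * r ^ k))
    (heuler : ∀ G : ℂ → ℂ, DifferentiableOn ℂ G (Metric.ball 0 1) → ∀ N k : ℕ,
      tc (fun z => z * deriv G z + N * G z) k = (k + N) * tc G k)
    (F : E n → ℂ) (hF : DifferentiableOn ℂ F (Metric.ball 0 1))
    (hrad : ∀ ξ : E n, ‖ξ‖ = 1 → ∀ z : ℂ, ‖z‖ < 1 →
      rad F (z • ξ) = z * deriv (fun z : ℂ => F (z • ξ)) z)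
    (hdd : ∀ N : ℕ, DifferentiableOn ℂ (DD N F) (Metric.ball 0 1))
    (hdiff : ∀ k, Differentiable ℂ (hc F k))
    (hhom : ∀ (k : ℕ) (c : ℂ) (z : E n), hc F k (c • z) = c ^ k * hc F k z)
    (N k : ℕ) (x : ℝ) (hx : 0 < x) (z : E n) :
    ∫ ξ, DD N F ((Real.exp (-x) : ℂ) • ξ) * (inner ℂ ξ z : ℂ) ^ k ∂μ =
      (k + N) * (Real.exp (-(k * x)) : ℂ) * hc F k z / (cn k : ℂ) := by
  have hr0 : 0 < Real.exp (-x) := Real.exp_pos _
  have hr1 : Real.exp (-x) < 1 := by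
    rw [Real.exp_lt_one_iff]; linarith
  set r : ℝ := Real.exp (-x) with hr
  set Φ : E n → ℂ := fun ξ => DD N F ((r : ℂ) • ξ) * (inner ℂ ξ z : ℂ) ^ k with hΦ
  have hI : ∀ θ : ℝ, ∫ ξ, Φ (Complex.exp (θ * I) • ξ) ∂μ = ∫ ξ, Φ ξ ∂μ := fun θ => hrot θ Φ
  have hpi : (0:ℝ) ≤ 2 * Real.pi := by positivity
  have h2 : ∫ θ in (0:ℝ)..(2 * Real.pi), (∫ ξ, Φ (Complex.exp (θ * I) • ξ) ∂μ) =
      (2 * Real.pi : ℂ) * ∫ ξ, Φ ξ ∂μ := by
    simp only [hI]
    rw [intervalIntegral.integral_const]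
    simp
  -- continuity on the ball of radius 1 / r
  have hcontΦ : ContinuousOn Φ (Metric.ball 0 (1 / r)) := by
    apply ContinuousOn.mul
    · apply (hdd N).continuousOn.comp (by fun_prop)
      intro ξ hξ
      rw [Metric.mem_ball, dist_zero_right] at hξ ⊢
      rw [norm_smul, Complex.norm_real, Real.norm_eq_abs, abs_of_pos hr0]
      rw [lt_div_iff₀ hr0] at hξ
      linarith [mul_comm r ‖ξ‖]
    · fun_prop
  have h1r : 1 < 1 / r := by rw [lt_div_iff₀ hr0]; linarith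
  have hexpn : ∀ θ : ℝ, ‖Complex.exp (θ * I)‖ = 1 := fun θ => Complex.norm_exp_ofReal_mul_I θ
  obtain ⟨C, hC⟩ : ∃ C, ∀ ξ ∈ Metric.sphere (0 : E n) 1, ‖Φ ξ‖ ≤ C := by
    apply (isCompact_sphere (0 : E n) 1).exists_bound_of_continuousOn
    apply hcontΦ.mono
    intro ξ hξ
    rw [Metric.mem_ball, dist_zero_right]
    rw [mem_sphere_zero_iff_norm] at hξ
    linarith
  have hae2 : ∀ᵐ p ∂((volume.restrict (Set.Ioc (0:ℝ) (2 * Real.pi))).prod μ), ‖p.2‖ = 1 :=
    Measure.quasiMeasurePreserving_snd.ae hae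
  have hmeas : AEStronglyMeasurable (fun p : ℝ × E n => Φ (Complex.exp (p.1 * I) • p.2))
      ((volume.restrict (Set.Ioc (0:ℝ) (2 * Real.pi))).prod μ) := by
    have hs : IsOpen {p : ℝ × E n | ‖p.2‖ < 1 / r} := by
      apply isOpen_lt <;> fun_prop
    have h3 : ContinuousOn (fun p : ℝ × E n => Φ (Complex.exp (p.1 * I) • p.2))
        {p : ℝ × E n | ‖p.2‖ < 1 / r} := by
      apply hcontΦ.comp (by fun_prop)
      intro p hp
      rw [Metric.mem_ball, dist_zero_right, norm_smul, hexpn, one_mul]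
      exact hp
    have h4 := h3.aestronglyMeasurable
      (μ := ((volume.restrict (Set.Ioc (0:ℝ) (2 * Real.pi))).prod μ)) hs.measurableSet
    rwa [Measure.restrict_eq_self_of_ae_mem] at h4
    filter_upwards [hae2] with p hp
    show ‖p.2‖ < 1 / r
    rw [hp]; exact h1r
  have hint : Integrable (fun p : ℝ × E n => Φ (Complex.exp (p.1 * I) • p.2))
      ((volume.restrict (Set.Ioc (0:ℝ) (2 * Real.pi))).prod μ) := by
    apply Integrable.of_bound hmeas C
    filter_upwards [hae2] with p hp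
    apply hC
    rw [mem_sphere_zero_iff_norm, norm_smul, hexpn, hp, one_mul]
  have hswap : ∫ θ in (0:ℝ)..(2 * Real.pi), (∫ ξ, Φ (Complex.exp (θ * I) • ξ) ∂μ) =
      ∫ ξ, (∫ θ in (0:ℝ)..(2 * Real.pi), Φ (Complex.exp (θ * I) • ξ)) ∂μ := by
    simp only [intervalIntegral.integral_of_le hpi]
    exact integral_integral_swap hint
  have hin : ∀ᵐ ξ ∂μ, (∫ θ in (0:ℝ)..(2 * Real.pi), Φ (Complex.exp (θ * I) • ξ)) =
      (2 * Real.pi * ((k + N) * (r : ℂ) ^ k) : ℂ) * (hc F k ξ * (inner ℂ ξ z : ℂ) ^ k) := by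
    filter_upwards [hae] with ξ hξ
    set G : ℂ → ℂ := fun l => F (l • ξ) with hG
    have hGd : DifferentiableOn ℂ G (Metric.ball 0 1) := by
      apply hF.comp (by fun_prop)
      intro l hl
      rw [Metric.mem_ball, dist_zero_right] at hl ⊢
      rw [norm_smul, hξ, mul_one]; exact hl
    have hHd : DifferentiableOn ℂ (fun l => l * deriv G l + N * G l) (Metric.ball 0 1) := by
      apply DifferentiableOn.add
      · exact differentiableOn_id.mul (hGd.deriv Metric.isOpen_ball)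
      · exact hGd.const_mul _
    have h5 := hcoef _ hHd r hr0 hr1 k
    have h6 : ∀ θ : ℝ, Φ (Complex.exp (θ * I) • ξ) =
        (Complex.exp (-(θ * I)) ^ k * (fun l => l * deriv G l + N * G l) (r * Complex.exp (θ * I))) *
          (inner ℂ ξ z : ℂ) ^ k := by
      intro θ
      have h7 : ‖(r : ℂ) * Complex.exp (θ * I)‖ < 1 := by
        rw [norm_mul, hexpn, mul_one, Complex.norm_real, Real.norm_eq_abs, abs_of_pos hr0]
        exact hr1
      simp only [hΦ, DD]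
      rw [smul_smul, hrad ξ hξ _ h7, inner_smul_left]
      have h8 : (starRingEnd ℂ) (Complex.exp (θ * I)) = Complex.exp (-(θ * I)) := by
        rw [← Complex.exp_conj]; simp
      rw [h8, mul_pow]
      simp only [hG]
      ring
    simp only [h6]
    rw [intervalIntegral.integral_mul_const, h5, heuler G hGd N k]
    have h9 : tc G k = hc F k ξ := rfl
    rw [h9]; ring
  have h10 : (2 * Real.pi : ℂ) * ∫ ξ, Φ ξ ∂μ =
      (2 * Real.pi * ((k + N) * (r : ℂ) ^ k) : ℂ) * ∫ ξ, (hc F k ξ * (inner ℂ ξ z : ℂ) ^ k) ∂μ := by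
    rw [← h2, hswap, integral_congr_ae hin, integral_const_mul]
  have h11 := hrep k (hc F k) (hdiff k) (hhom k) z
  have h12 : (cn k : ℂ) ≠ 0 := by exact_mod_cast (hcn k).ne'
  have h13 : (2 * Real.pi : ℂ) ≠ 0 := by
    have := Real.pi_ne_zero
    exact_mod_cast (mul_ne_zero two_ne_zero this)
  have h14 : ∫ ξ, Φ ξ ∂μ = ((k + N) * (r : ℂ) ^ k) * ∫ ξ, (hc F k ξ * (inner ℂ ξ z : ℂ) ^ k) ∂μ := by
    apply mul_left_cancel₀ h13
    rw [h10]; ring
  rw [h14, h11]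
  have h15 : (Real.exp (-(k * x)) : ℂ) = (r : ℂ) ^ k := by
    rw [hr, ← Complex.ofReal_pow, ← Real.exp_nat_mul]
    congr 2; ring
  rw [h15]
  field_simp

end Pool.Agent.Helper19.RU
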