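import Mathlib
import Pool.Agent.HpBall.Defs2
import Pool.Agent.Helper19.RU.Step
import Pool.Agent.Helper19.RU.BallEq
set_option autoImplicit false
open MeasureTheory Complex
open scoped ENNReal NNReal

namespace Pool.Agent.Helper19.RU
open Pool.Agent.HpBall








/-- reproducing formula: everything in terms of the moments of Φ = DD N F. Abstract version:
ν is a finite measure on the unit ball, Φ measurable with ∫ |Φ|^2 s dν < ∞, and the moments of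
Φ s^a are Mk = c * hk / bk, where bk are the Taylor coefficients of the kernel. -/
theorem repro_abs {n : ℕ} (ν : Measure (E n)) [IsFiniteMeasure ν] (hae : ∀ᵐ w ∂ν, ‖w‖ < 1)
    (Φ : E n → ℂ) (hΦ : AEStronglyMeasurable Φ ν) (a N : ℕ) (ha : 1 ≤ a) (hN : 1 ≤ N)
    (hfin : ∫⁻ w, ENNReal.ofReal (‖Φ w‖ ^ 2 * (1 - ‖w‖ ^ 2)) ∂ν < ⊤)
    (z : E n) (hz : ‖z‖ < 1) (h : ℕ → ℂ) (c : ℂ)
    (hmom : ∀ k : ℕ, ((k + (N - 1)).choose (N - 1) : ℂ) *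
      ∫ w, Φ w * ((1 - ‖w‖ ^ 2 : ℝ) : ℂ) ^ a * (inner ℂ w z : ℂ) ^ k ∂ν = c * h k)
    (S : ℂ) (hS : HasSum h S) :
    Integrable (fun w => Φ w * ((1 - ‖w‖ ^ 2 : ℝ) : ℂ) ^ a) ν ∧
    ∫ w, Φ w * ((1 - ‖w‖ ^ 2 : ℝ) : ℂ) ^ a * ((1 - inner ℂ w z) ^ N)⁻¹ ∂ν = c * S := by
  have hs_cont : Continuous (fun w : E n => ((1 - ‖w‖ ^ 2 : ℝ) : ℂ) ^ a) := by fun_prop
  have hgmeas : AEStronglyMeasurable (fun w => Φ w * ((1 - ‖w‖ ^ 2 : ℝ) : ℂ) ^ a) ν :=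
    hΦ.mul hs_cont.aestronglyMeasurable
  have hint2 : Integrable (fun w => ‖Φ w‖ ^ 2 * (1 - ‖w‖ ^ 2)) ν := by
    refine ⟨(hΦ.norm.pow 2).mul (by fun_prop : Continuous (fun w : E n => 1 - ‖w‖ ^ 2)).aestronglyMeasurable, ?_⟩
    rw [hasFiniteIntegral_iff_ofReal]
    · exact hfin
    · filter_upwards [hae] with w hw
      have : ‖w‖ ^ 2 ≤ 1 := by nlinarith [norm_nonneg w]
      have : 0 ≤ 1 - ‖w‖ ^ 2 := by linarith
      show 0 ≤ ‖Φ w‖ ^ 2 * (1 - ‖w‖ ^ 2)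
      positivity
  have hg : Integrable (fun w => Φ w * ((1 - ‖w‖ ^ 2 : ℝ) : ℂ) ^ a) ν := by
    apply Integrable.mono' (hint2.add (integrable_const (1 : ℝ))) hgmeas
    filter_upwards [hae] with w hw
    have h1 : ‖w‖ ^ 2 < 1 := by nlinarith [norm_nonneg w]
    have hs0 : 0 ≤ 1 - ‖w‖ ^ 2 := by linarith
    have hs1 : 1 - ‖w‖ ^ 2 ≤ 1 := by nlinarith [norm_nonneg w]
    rw [norm_mul, norm_pow, Complex.norm_real, Real.norm_eq_abs, abs_of_nonneg hs0]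
    have h2 : (1 - ‖w‖ ^ 2) ^ a ≤ 1 - ‖w‖ ^ 2 := pow_le_of_le_one hs0 hs1 (by omega)
    show ‖Φ w‖ * (1 - ‖w‖ ^ 2) ^ a ≤ ‖Φ w‖ ^ 2 * (1 - ‖w‖ ^ 2) + 1
    calc ‖Φ w‖ * (1 - ‖w‖ ^ 2) ^ a ≤ ‖Φ w‖ * (1 - ‖w‖ ^ 2) := by gcongr
      _ ≤ (‖Φ w‖ ^ 2 + 1) * (1 - ‖w‖ ^ 2) := by
          apply mul_le_mul_of_nonneg_right _ hs0
          nlinarith [sq_nonneg (‖Φ w‖ - 1)]
      _ ≤ _ := by nlinarith
  refine ⟨hg, ?_⟩
  have ht : ∀ w : E n, ‖w‖ < 1 → ‖(inner ℂ w z : ℂ)‖ ≤ ‖z‖ := by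
    intro w hw
    refine (norm_inner_le_norm w z).trans ?_
    nlinarith [norm_nonneg z, norm_nonneg w]
  have hinner : Continuous (fun w : E n => (inner ℂ w z : ℂ)) := by fun_prop
  set F : ℕ → E n → ℂ := fun k w => Φ w * ((1 - ‖w‖ ^ 2 : ℝ) : ℂ) ^ a *
    (((k + (N - 1)).choose (N - 1) : ℂ) * (inner ℂ w z : ℂ) ^ k) with hF
  have hFmeas : ∀ k, AEStronglyMeasurable (F k) ν := by
    intro k
    exact hgmeas.mul (continuous_const.mul (hinner.pow k)).aestronglyMeasurable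
  have hFb : ∀ k, ∀ᵐ w ∂ν, ‖F k w‖ ≤ ((k + (N - 1)).choose (N - 1) * ‖z‖ ^ k : ℝ) *
      ‖Φ w * ((1 - ‖w‖ ^ 2 : ℝ) : ℂ) ^ a‖ := by
    intro k
    filter_upwards [hae] with w hw
    simp only [hF]
    rw [norm_mul, norm_mul (((k + (N - 1)).choose (N - 1) : ℕ) : ℂ), norm_pow, Complex.norm_natCast, mul_comm]
    gcongr
    exact ht w hw
  have hFint : ∀ k, Integrable (F k) ν := fun k =>
    Integrable.mono' (hg.norm.const_mul _) (hFmeas k) (hFb k)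
  have hzs : Summable fun k : ℕ => ((k + (N - 1)).choose (N - 1) * ‖z‖ ^ k : ℝ) :=
    (hasSum_choose_mul_geometric_of_norm_lt_one (N - 1) (r := ‖z‖) (by simpa using hz)).summable
  have hFsum : Summable fun k => ∫ w, ‖F k w‖ ∂ν := by
    apply Summable.of_nonneg_of_le (fun k => integral_nonneg fun _ => norm_nonneg _) _
      (hzs.mul_right (∫ w, ‖Φ w * ((1 - ‖w‖ ^ 2 : ℝ) : ℂ) ^ a‖ ∂ν))
    intro k
    rw [← integral_const_mul]
    exact integral_mono_ae (hFint k).norm (hg.norm.const_mul _) (hFb k)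
  have key := hasSum_integral_of_summable_integral_norm hFint hFsum
  have e1 : ∀ k, ∫ w, F k w ∂ν = c * h k := by
    intro k
    rw [← hmom k, ← integral_const_mul]
    congr 1
    funext w
    simp only [hF]
    ring
  simp_rw [e1] at key
  have e2 := key.unique (hS.mul_left c)
  rw [← e2]
  apply integral_congr_ae
  filter_upwards [hae] with w hw
  have hlt : ‖(inner ℂ w z : ℂ)‖ < 1 := lt_of_le_of_lt (ht w hw) hz
  have hser := hasSum_choose_mul_geometric_of_norm_lt_one (N - 1) hlt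
  have hser2 := hser.mul_left (Φ w * ((1 - ‖w‖ ^ 2 : ℝ) : ℂ) ^ a)
  show Φ w * ((1 - ‖w‖ ^ 2 : ℝ) : ℂ) ^ a * ((1 - inner ℂ w z) ^ N)⁻¹ = ∑' k, F k w
  have e3 : ∑' k, F k w = Φ w * ((1 - ‖w‖ ^ 2 : ℝ) : ℂ) ^ a * (1 / (1 - inner ℂ w z) ^ (N - 1 + 1)) :=
    hser2.tsum_eq
  rw [e3, Nat.sub_add_cancel hN, one_div]

/-- the volume moments from the sphere moments (Fubini in polar coordinates) -/
theorem vol_moment {n : ℕ} (hn : 1 ≤ n) (μ : Measure (E n)) [IsFiniteMeasure μ]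
    (hae : ∀ᵐ ξ ∂μ, ‖ξ‖ = 1) (c0 : ℝ≥0) (ν : Measure (E n))
    (hν : ν = c0 • ((rx n).prod μ).map (fun q : ℝ × E n => (Real.exp (-q.1) : ℂ) • q.2))
    (Φ : E n → ℂ) (a N k : ℕ)
    (hint : Integrable (fun w => Φ w * ((1 - ‖w‖ ^ 2 : ℝ) : ℂ) ^ a) ν) (z : E n) (hz : ‖z‖ < 1)
    (m : ℂ)
    (hsph : ∀ x : ℝ, 0 < x → ∫ ξ, Φ ((Real.exp (-x) : ℂ) • ξ) * (inner ℂ ξ z : ℂ) ^ k ∂μ =
      (k + N) * (Real.exp (-(k * x)) : ℂ) * m)
    (J : ℝ) (hJ : ∫ x in Set.Ioi (0:ℝ), Real.exp (-(2 * (k + n : ℕ) * x)) *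
      (1 - Real.exp (-(2 * x))) ^ a = J) :
    ∫ w, Φ w * ((1 - ‖w‖ ^ 2 : ℝ) : ℂ) ^ a * (inner ℂ w z : ℂ) ^ k ∂ν =
      (c0 : ℝ) * (k + N) * m * J := by
  by_cases hc : c0 = 0
  · rw [hν, hc]
    simp
  haveI : SFinite (rx n) := by unfold rx; infer_instance
  set T : ℝ × E n → E n := fun q => (Real.exp (-q.1) : ℂ) • q.2 with hT
  have hTc : Continuous T := by
    rw [hT]
    fun_prop
  set M := ((rx n).prod μ).map T with hM
  have hintM : Integrable (fun w => Φ w * ((1 - ‖w‖ ^ 2 : ℝ) : ℂ) ^ a) M := by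
    rw [hν] at hint
    have h1 : (c0 • M : Measure (E n)) = (c0 : ℝ≥0∞) • M := rfl
    rw [h1, integrable_smul_measure (by exact_mod_cast hc) ENNReal.coe_ne_top] at hint
    exact hint
  have hgT : Integrable ((fun w => Φ w * ((1 - ‖w‖ ^ 2 : ℝ) : ℂ) ^ a) ∘ T) ((rx n).prod μ) :=
    (integrable_map_measure hintM.aestronglyMeasurable hTc.aemeasurable).1 hintM
  have hinner : Continuous (fun w : E n => (inner ℂ w z : ℂ) ^ k) := by fun_prop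
  have hx_ae : ∀ᵐ x ∂(rx n), 0 < x := by
    unfold rx
    apply (withDensity_absolutelyContinuous _ _).ae_le
    exact ae_restrict_mem measurableSet_Ioi
  have hae1 : ∀ᵐ q ∂((rx n).prod μ), 0 < q.1 := Measure.quasiMeasurePreserving_fst.ae hx_ae
  have hae2 : ∀ᵐ q ∂((rx n).prod μ), ‖q.2‖ = 1 := Measure.quasiMeasurePreserving_snd.ae hae
  have hfT : Integrable (fun q => (Φ (T q) * ((1 - ‖T q‖ ^ 2 : ℝ) : ℂ) ^ a) * (inner ℂ (T q) z : ℂ) ^ k)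
      ((rx n).prod μ) := by
    apply Integrable.mono' hgT.norm
    · exact hgT.aestronglyMeasurable.mul (hinner.comp hTc).aestronglyMeasurable
    · filter_upwards [hae1, hae2] with q h1 h2
      rw [norm_mul]
      have hTq : ‖T q‖ ≤ 1 := by
        simp only [hT]
        rw [norm_smul, h2, mul_one, Complex.norm_real, Real.norm_eq_abs, abs_of_pos (Real.exp_pos _),
          Real.exp_le_one_iff]
        linarith
      have h3 : ‖(inner ℂ (T q) z : ℂ) ^ k‖ ≤ 1 := by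
        rw [norm_pow]
        apply pow_le_one₀ (norm_nonneg _)
        refine (norm_inner_le_norm _ _).trans ?_
        nlinarith [norm_nonneg (T q), norm_nonneg z]
      calc ‖Φ (T q) * ((1 - ‖T q‖ ^ 2 : ℝ) : ℂ) ^ a‖ * ‖(inner ℂ (T q) z : ℂ) ^ k‖
          ≤ ‖Φ (T q) * ((1 - ‖T q‖ ^ 2 : ℝ) : ℂ) ^ a‖ * 1 := by gcongr
        _ = _ := by rw [mul_one]; rfl
  have hM_eq : ∫ w, Φ w * ((1 - ‖w‖ ^ 2 : ℝ) : ℂ) ^ a * (inner ℂ w z : ℂ) ^ k ∂M =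
      ∫ q, (Φ (T q) * ((1 - ‖T q‖ ^ 2 : ℝ) : ℂ) ^ a) * (inner ℂ (T q) z : ℂ) ^ k ∂((rx n).prod μ) := by
    rw [hM, integral_map hTc.aemeasurable]
    rw [← hM]
    exact hintM.aestronglyMeasurable.mul hinner.aestronglyMeasurable
  have hν_eq : ∫ w, Φ w * ((1 - ‖w‖ ^ 2 : ℝ) : ℂ) ^ a * (inner ℂ w z : ℂ) ^ k ∂ν =
      (c0 : ℝ) * ∫ w, Φ w * ((1 - ‖w‖ ^ 2 : ℝ) : ℂ) ^ a * (inner ℂ w z : ℂ) ^ k ∂M := by
    rw [hν, integral_smul_nnreal_measure, NNReal.smul_def, Complex.real_smul]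
  rw [hν_eq, hM_eq, integral_prod _ hfT]
  have hin : ∀ x : ℝ, 0 < x → ∫ ξ, (Φ (T (x, ξ)) * ((1 - ‖T (x, ξ)‖ ^ 2 : ℝ) : ℂ) ^ a) *
      (inner ℂ (T (x, ξ)) z : ℂ) ^ k ∂μ =
      (((1 - Real.exp (-(2 * x))) ^ a * Real.exp (-(2 * k * x)) : ℝ) : ℂ) * ((k + N) * m) := by
    intro x hx
    have h1 : ∀ᵐ ξ ∂μ, (Φ (T (x, ξ)) * ((1 - ‖T (x, ξ)‖ ^ 2 : ℝ) : ℂ) ^ a) *
        (inner ℂ (T (x, ξ)) z : ℂ) ^ k = (((1 - Real.exp (-(2 * x))) ^ a * Real.exp (-(k * x)) : ℝ) : ℂ) *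
        (Φ ((Real.exp (-x) : ℂ) • ξ) * (inner ℂ ξ z : ℂ) ^ k) := by
      filter_upwards [hae] with ξ hξ
      simp only [hT]
      have e1 : ‖(Real.exp (-x) : ℂ) • ξ‖ ^ 2 = Real.exp (-(2 * x)) := by
        rw [norm_smul, hξ, mul_one, Complex.norm_real, Real.norm_eq_abs, abs_of_pos (Real.exp_pos _),
          ← Real.exp_nat_mul]
        congr 1
        push_cast
        ring
      have e2 : (inner ℂ ((Real.exp (-x) : ℂ) • ξ) z : ℂ) ^ k = ((Real.exp (-(k * x)) : ℝ) : ℂ) *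
          (inner ℂ ξ z : ℂ) ^ k := by
        rw [inner_smul_left, Complex.conj_ofReal, mul_pow, ← Complex.ofReal_pow, ← Real.exp_nat_mul]
        congr 3
        ring
      rw [e1, e2]
      push_cast
      ring
    rw [integral_congr_ae h1, integral_const_mul, hsph x hx]
    have e3 : Real.exp (-(2 * k * x)) = Real.exp (-(k * x)) * Real.exp (-(k * x)) := by
      rw [← Real.exp_add]
      congr 1
      ring
    rw [e3]
    push_cast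
    ring
  have hout : ∫ x, (∫ ξ, (Φ (T (x, ξ)) * ((1 - ‖T (x, ξ)‖ ^ 2 : ℝ) : ℂ) ^ a) *
      (inner ℂ (T (x, ξ)) z : ℂ) ^ k ∂μ) ∂(rx n) = ((k + N) * m) * J := by
    have h1 : ∀ᵐ x ∂(rx n), (∫ ξ, (Φ (T (x, ξ)) * ((1 - ‖T (x, ξ)‖ ^ 2 : ℝ) : ℂ) ^ a) *
      (inner ℂ (T (x, ξ)) z : ℂ) ^ k ∂μ) =
      (((1 - Real.exp (-(2 * x))) ^ a * Real.exp (-(2 * k * x)) : ℝ) : ℂ) * ((k + N) * m) := by
      filter_upwards [hx_ae] with x hx using hin x hx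
    rw [integral_congr_ae h1, integral_mul_const, mul_comm]
    congr 1
    unfold rx
    rw [integral_withDensity_eq_integral_toReal_smul (by fun_prop)
      (Filter.Eventually.of_forall fun x => ENNReal.ofReal_lt_top)]
    rw [← hJ, ← integral_complex_ofReal]
    apply integral_congr_ae
    refine Filter.Eventually.of_forall fun x => ?_
    show (ENNReal.ofReal (Real.exp (-(2 * n * x)))).toReal •
      (((1 - Real.exp (-(2 * x))) ^ a * Real.exp (-(2 * k * x)) : ℝ) : ℂ) = _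
    rw [ENNReal.toReal_ofReal (Real.exp_pos _).le, Complex.real_smul, ← Complex.ofReal_mul]
    congr 1
    have e : Real.exp (-(2 * ((k + n : ℕ) : ℝ) * x)) = Real.exp (-(2 * n * x)) * Real.exp (-(2 * k * x)) := by
      rw [← Real.exp_add]
      congr 1
      push_cast
      ring
    rw [e]
    ring
  have hfinal : ∫ x, (∫ ξ, (Φ (T (x, ξ)) * ((1 - ‖T (x, ξ)‖ ^ 2 : ℝ) : ℂ) ^ a) *
      (inner ℂ (T (x, ξ)) z : ℂ) ^ k ∂μ) ∂(rx n) = ((k + N) * m) * J := hout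
  rw [hfinal]
  ring

end Pool.Agent.Helper19.RU
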