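import Mathlib
import Pool.Agent.HopfPinch.GLib
import Pool.Agent.HpBall.Coef
import Pool.Agent.HpBall2.Repro
import Pool.Agent.HpBall2.HcProps
import Pool.Agent.Helper19.RU.J1
import Pool.Agent.Helper19.RU.J2
import Pool.Agent.Helper19.RU.J3
import Pool.Agent.Helper19.RU.J5

set_option autoImplicit false

open MeasureTheory Complex
open scoped ENNReal NNReal

namespace Pool.Agent.Helper19.RU

open Pool.Agent.HpBall Pool.Agent.HpBall2

theorem DD_diff {n : ℕ} {s : Set (E n)} (hs : IsOpen s) {F : E n → ℂ}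
    (hF : DifferentiableOn ℂ F s) (N : ℕ) : DifferentiableOn ℂ (DD N F) s := by
  have h2 : ContDiffOn ℂ 2 F s := Pool.Agent.HopfPinch.contDiffOn_of_differentiableOn hs hF 2
  have h1 : ContDiffOn ℂ 1 (fderiv ℂ F) s := h2.fderiv_of_isOpen hs (by norm_num)
  have h0 : DifferentiableOn ℂ (fderiv ℂ F) s := h1.differentiableOn (by norm_num)
  unfold DD rad
  refine DifferentiableOn.add ?_ (hF.const_mul _)
  exact h0.clm_apply differentiableOn_id

theorem repro (n al : ℕ) (hn : 1 ≤ n) (hal : 1 ≤ al) : ReproProp n al := by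
  obtain ⟨c0, hc0, hν⟩ := vol_ball_eq n hn
  set ν : Measure (E n) := (volume : Measure (E n)).restrict (Metric.ball 0 1) with hνdef
  set K0 : ℝ := Real.pi ^ n * al.factorial * (n - 1).factorial / (2 * (n + al - 1).factorial)
    with hK0
  have hK0pos : 0 < K0 := by rw [hK0]; positivity
  have hc0' : (0 : ℝ) < c0 := by exact_mod_cast hc0
  have : IsFiniteMeasure ν := ⟨by
    rw [hνdef, Measure.restrict_apply_univ]; exact measure_ball_lt_top⟩
  refine ⟨(((c0 : ℝ) * K0 : ℝ) : ℂ)⁻¹, ?_⟩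
  intro F hF hen z hz
  have hz1 : ‖z‖ < 1 := by simpa using hz
  obtain ⟨hdiff, hhom, hsum⟩ := hc_props n F hF
  have hDD := DD_diff Metric.isOpen_ball hF (n + al)
  have hae : ∀ᵐ w ∂ν, ‖w‖ < 1 := by
    filter_upwards [ae_restrict_mem Metric.isOpen_ball.measurableSet] with w hw
    simpa using hw
  have hmeas : AEStronglyMeasurable (DD (n + al) F) ν :=
    hDD.continuousOn.aestronglyMeasurable Metric.isOpen_ball.measurableSet
  have hfin : ∫⁻ w, ENNReal.ofReal (‖DD (n + al) F w‖ ^ 2 * (1 - ‖w‖ ^ 2)) ∂ν < ⊤ := by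
    unfold energy at hen
    simpa using hen
  have hmom : ∀ k : ℕ, ((k + (n + al - 1)).choose (n + al - 1) : ℂ) *
      ∫ w, DD (n + al) F w * ((1 - ‖w‖ ^ 2 : ℝ) : ℂ) ^ al * (inner ℂ w z : ℂ) ^ k ∂ν =
        (((c0 : ℝ) * K0 : ℝ) : ℂ) * hc F k z := by
    intro k
    have hint : Integrable (fun w => DD (n + al) F w * ((1 - ‖w‖ ^ 2 : ℝ) : ℂ) ^ al) ν := by
      refine (repro_abs ν hae (DD (n + al) F) hmeas al (n + al) hal (by omega) hfin 0 (by simp)
        (fun k => ((k + (n + al - 1)).choose (n + al - 1) : ℂ) *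
          ∫ w, DD (n + al) F w * ((1 - ‖w‖ ^ 2 : ℝ) : ℂ) ^ al * (inner ℂ w (0 : E n) : ℂ) ^ k ∂ν)
        1 (fun k => by rw [one_mul]) _ (hasSum_single 0 ?_)).1
      intro k hk
      simp [hk]
    have hsph : ∀ x : ℝ, 0 < x → ∫ ξ, DD (n + al) F ((Real.exp (-x) : ℂ) • ξ) *
        (inner ℂ ξ z : ℂ) ^ k ∂(sig n) =
        (k + ((n + al : ℕ) : ℂ)) * (Real.exp (-(k * x)) : ℂ) * (hc F k z / (cn n k : ℂ)) := by
      intro x hx
      rw [sphere_moment (sig n) (sig_ae_norm hn)
        (fun θ f => by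
          have h := integral_sig_isometry (rot n θ) f
          simpa only [rot_apply] using h)
        (cn n) (fun k => B02_cn_pos n k) (fun k P hP hh x => repro_hom n hn k P hP hh x)
        (fun G hG r hr0 hr1 k => J15_coef hG hr0 hr1 k) (fun G hG N k => tc_euler hG N k) F hF
        (fun ξ hξ z hz => J15_rad hF hξ hz) (fun N => DD_diff Metric.isOpen_ball hF N) hdiff hhom
        (n + al) k x hx z]
      ring
    have hJ := (radial_int al (k + n) (by omega)).2
    rw [vol_moment hn (sig n) (sig_ae_norm hn) c0 ν hν (DD (n + al) F) al (n + al) k hint z hz1 _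
      hsph _ hJ]
    have hcst := repro_const n al k hn
    have hcn : (cn n k : ℂ) ≠ 0 := by exact_mod_cast (B02_cn_pos n k).ne'
    rw [hK0, ← hcst]
    unfold cn
    push_cast
    ring
  have hfinal := (repro_abs ν hae (DD (n + al) F) hmeas al (n + al) hal (by omega) hfin z hz1
    (fun k => hc F k z) _ hmom (F z) (hsum z hz1).2).2
  unfold synth
  rw [hfinal, ← mul_assoc, inv_mul_cancel₀, one_mul]
  have : (c0 : ℝ) * K0 ≠ 0 := by positivity
  exact_mod_cast this

end Pool.Agent.Helper19.RU
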