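import Mathlib
import Pool.Agent.HpBall.Defs2
import Pool.Agent.Helper19.RU.Step
import Pool.Agent.Helper19.RU.BallEq
set_option autoImplicit false
open MeasureTheory Complex
open scoped ENNReal NNReal

namespace Pool.Agent.Helper19.RU
open Pool.Agent.HpBall








theorem h170_ind {n : ℕ} (F : E n → ℂ) (hF : DifferentiableOn ℂ F (Metric.ball 0 1)) :
    ∃ Ft : E n → ℂ, Measurable Ft ∧ ∀ z, ‖z‖ < 1 → Ft z = F z := by
  classical
  refine ⟨(Metric.ball (0 : E n) 1).piecewise F (fun _ => 0), ?_, ?_⟩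
  · exact ContinuousOn.measurable_piecewise hF.continuousOn continuousOn_const Metric.isOpen_ball.measurableSet
  · intro z hz
    rw [Set.piecewise_eq_of_mem]
    rwa [mem_ball_zero_iff]

theorem h170_slice {n : ℕ} (F : E n → ℂ) (hF : DifferentiableOn ℂ F (Metric.ball 0 1)) (ξ : E n) (hξ : ‖ξ‖ = 1) :
    DifferentiableOn ℂ (fun z : ℂ => F (z • ξ)) (Metric.ball 0 1) := by
  have h1 : DifferentiableOn ℂ (fun z : ℂ => z • ξ) (Metric.ball 0 1) := by fun_prop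
  refine hF.comp h1 ?_
  intro z hz
  rw [mem_ball_zero_iff] at hz ⊢
  rw [norm_smul, hξ, mul_one]
  exact hz

/-- the H^2 norm is controlled by the area integral of DD N X. The facts havg, hpar, heuler, hrl,
hrad, hdd are already proved. -/
theorem h2_bound {n : ℕ} (hn : 1 ≤ n) (μ : Measure (E n)) [IsFiniteMeasure μ]
    (hae : ∀ᵐ ξ ∂μ, ‖ξ‖ = 1)
    (havg : ∀ f : E n → ℝ≥0∞, Measurable f → ENNReal.ofReal (2 * Real.pi) * ∫⁻ ξ, f ξ ∂μ =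
      ∫⁻ ξ, ∫⁻ t in Set.Ioc (0:ℝ) (2 * Real.pi), f (Complex.exp (t * I) • ξ) ∂volume ∂μ)
    (hpar : ∀ G : ℂ → ℂ, DifferentiableOn ℂ G (Metric.ball 0 1) → ∀ r : ℝ, 0 ≤ r → r < 1 →
      ∫⁻ t in Set.Ioc (0:ℝ) (2 * Real.pi), ENNReal.ofReal (‖G (r * Complex.exp (t * I))‖ ^ 2) =
      ENNReal.ofReal (2 * Real.pi) * ∑' k : ℕ, ENNReal.ofReal (‖tc G k‖ ^ 2 * (r ^ k) ^ 2))
    (heuler : ∀ G : ℂ → ℂ, DifferentiableOn ℂ G (Metric.ball 0 1) → ∀ N k : ℕ,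
      tc (fun z => z * deriv G z + N * G z) k = (k + N) * tc G k)
    (hrl : ∀ K : ℕ, 1 ≤ K →
      ∫⁻ x in Set.Ioi (0:ℝ), ENNReal.ofReal (Real.exp (-(2 * K * x)) * (1 - Real.exp (-(2 * x)))) =
      ENNReal.ofReal (1 / (2 * (K * (K + 1)))))
    (X : E n → ℂ) (hX : DifferentiableOn ℂ X (Metric.ball 0 1))
    (hrad : ∀ ξ : E n, ‖ξ‖ = 1 → ∀ z : ℂ, ‖z‖ < 1 →
      rad X (z • ξ) = z * deriv (fun z : ℂ => X (z • ξ)) z)
    (N : ℕ) (hN : n + 1 ≤ N)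
    (hdd : DifferentiableOn ℂ (DD N X) (Metric.ball 0 1))
    (r : ℝ) (hr0 : 0 ≤ r) (hr1 : r < 1) :
    ∫⁻ ξ, ENNReal.ofReal (‖X ((r : ℂ) • ξ)‖ ^ 2) ∂μ ≤
      2 * ∫⁻ x in Set.Ioi (0:ℝ), ∫⁻ ξ, ENNReal.ofReal (Real.exp (-(2 * n * x)) *
        (1 - Real.exp (-(2 * x))) * ‖DD N X ((Real.exp (-x) : ℂ) • ξ)‖ ^ 2) ∂μ := by
  obtain ⟨Xt, hXtm, hXt⟩ := h170_ind X hX
  obtain ⟨Yt, hYtm, hYt⟩ := h170_ind (DD N X) hdd
  have hpi := Real.pi_pos
  have h2pi : ENNReal.ofReal (2 * Real.pi) ≠ 0 := by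
    rw [Ne, ENNReal.ofReal_eq_zero, not_le]; positivity
  have hexpn : ∀ t : ℝ, ‖Complex.exp (t * I)‖ = 1 := fun t => Complex.norm_exp_ofReal_mul_I t
  have hdisc : ∀ s : ℝ, 0 ≤ s → s < 1 → ∀ (t : ℝ) (ξ : E n), ‖ξ‖ = 1 →
      ‖((s : ℂ) * Complex.exp (t * I)) • ξ‖ < 1 := by
    intro s hs0 hs1 t ξ hξ
    rw [norm_smul, hξ, mul_one, norm_mul, hexpn, mul_one, Complex.norm_of_nonneg hs0]
    exact hs1
  have hbase : ∀ s : ℝ, 0 ≤ s → s < 1 → ∀ (ξ : E n), ‖ξ‖ = 1 → ‖(s : ℂ) • ξ‖ < 1 := by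
    intro s hs0 hs1 ξ hξ
    rw [norm_smul, hξ, mul_one, Complex.norm_of_nonneg hs0]
    exact hs1
  have hex : ∀ x : ℝ, 0 < x → 0 ≤ Real.exp (-x) ∧ Real.exp (-x) < 1 := fun x hx =>
    ⟨(Real.exp_pos _).le, by rw [Real.exp_lt_one_iff]; linarith⟩
  have hw0 : ∀ x : ℝ, 0 < x → 0 ≤ Real.exp (-(2 * n * x)) * (1 - Real.exp (-(2 * x))) := by
    intro x hx
    have h1 : Real.exp (-(2 * x)) ≤ 1 := by rw [Real.exp_le_one_iff]; linarith
    exact mul_nonneg (Real.exp_pos _).le (by linarith)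
  -- the functions
  set f0 : E n → ℝ≥0∞ := fun ξ => ENNReal.ofReal (‖Xt ((r : ℂ) • ξ)‖ ^ 2) with hf0
  set f1 : ℝ → E n → ℝ≥0∞ := fun x ξ => ENNReal.ofReal (Real.exp (-(2 * n * x)) *
        (1 - Real.exp (-(2 * x))) * ‖Yt ((Real.exp (-x) : ℂ) • ξ)‖ ^ 2) with hf1
  have hf0m : Measurable f0 := by
    have h1 : Measurable (fun ξ : E n => Xt ((r : ℂ) • ξ)) := hXtm.comp (measurable_const_smul _)
    exact (h1.norm.pow_const 2).ennreal_ofReal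
  have hcm : Continuous (fun x : ℝ => (Complex.exp (-x) : ℂ)) := by fun_prop
  have hf1m : Measurable (fun p : ℝ × E n => f1 p.1 p.2) := by
    have h1 : Measurable (fun p : ℝ × E n => Yt (((Real.exp (-p.1) : ℝ) : ℂ) • p.2)) := by
      refine hYtm.comp ?_
      have h2 : Continuous (fun p : ℝ × E n => ((Real.exp (-p.1) : ℝ) : ℂ) • p.2) := by fun_prop
      exact h2.measurable
    have h3 : Measurable (fun p : ℝ × E n => Real.exp (-(2 * n * p.1)) * (1 - Real.exp (-(2 * p.1)))) := by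
      have h4 : Continuous (fun p : ℝ × E n => Real.exp (-(2 * n * p.1)) * (1 - Real.exp (-(2 * p.1)))) := by fun_prop
      exact h4.measurable
    exact (h3.mul (h1.norm.pow_const 2)).ennreal_ofReal
  have hf1x : ∀ x, Measurable (f1 x) := fun x => hf1m.comp (measurable_const.prodMk measurable_id)
  -- step 1
  have e1 : ∫⁻ ξ, ENNReal.ofReal (‖X ((r : ℂ) • ξ)‖ ^ 2) ∂μ = ∫⁻ ξ, f0 ξ ∂μ := by
    refine lintegral_congr_ae ?_
    filter_upwards [hae] with ξ hξ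
    rw [hf0]
    simp only
    rw [hXt _ (hbase r hr0 hr1 ξ hξ)]
  have e2 : ∫⁻ x in Set.Ioi (0:ℝ), ∫⁻ ξ, ENNReal.ofReal (Real.exp (-(2 * n * x)) *
        (1 - Real.exp (-(2 * x))) * ‖DD N X ((Real.exp (-x) : ℂ) • ξ)‖ ^ 2) ∂μ =
      ∫⁻ x in Set.Ioi (0:ℝ), ∫⁻ ξ, f1 x ξ ∂μ := by
    refine setLIntegral_congr_fun measurableSet_Ioi fun x hx => ?_
    refine lintegral_congr_ae ?_
    filter_upwards [hae] with ξ hξ
    rw [hf1]
    simp only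
    have h1 := hYt _ (hbase (Real.exp (-x)) (hex x hx).1 (hex x hx).2 ξ hξ)
    rw [h1]
  rw [e1, e2, ← ENNReal.mul_le_mul_iff_right h2pi ENNReal.ofReal_ne_top, havg f0 hf0m]
  -- step 4
  have hjm : Measurable (fun p : ℝ × E n => ∫⁻ t in Set.Ioc (0:ℝ) (2 * Real.pi), f1 p.1 (Complex.exp (t * I) • p.2)) := by
    have h1 : Measurable (fun q : (ℝ × E n) × ℝ => f1 q.1.1 (Complex.exp (q.2 * I) • q.1.2)) := by
      have h2 : Continuous (fun q : (ℝ × E n) × ℝ => (q.1.1, Complex.exp (q.2 * I) • q.1.2)) := by fun_prop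
      exact hf1m.comp h2.measurable
    exact h1.lintegral_prod_right'
  have e3 : ENNReal.ofReal (2 * Real.pi) * (2 * ∫⁻ x in Set.Ioi (0:ℝ), ∫⁻ ξ, f1 x ξ ∂μ) =
      2 * ∫⁻ ξ, (∫⁻ x in Set.Ioi (0:ℝ), (∫⁻ t in Set.Ioc (0:ℝ) (2 * Real.pi), f1 x (Complex.exp (t * I) • ξ))) ∂μ := by
    rw [mul_left_comm]
    congr 1
    have hm1 : Measurable (fun x => ∫⁻ ξ, f1 x ξ ∂μ) := hf1m.lintegral_prod_right'
    rw [← lintegral_const_mul _ hm1]
    simp only [havg _ (hf1x _)]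
    exact lintegral_lintegral_swap (f := fun (x : ℝ) (ξ : E n) =>
      ∫⁻ t in Set.Ioc (0:ℝ) (2 * Real.pi), f1 x (Complex.exp (t * I) • ξ)) hjm.aemeasurable
  rw [e3]
  rw [← lintegral_const_mul' _ _ (by norm_num)]
  refine lintegral_mono_ae ?_
  filter_upwards [hae] with ξ hξ
  -- slices
  have hG := h170_slice X hX ξ hξ
  set G : ℂ → ℂ := fun z => X (z • ξ) with hGdef
  have hHeq : ∀ z ∈ Metric.ball (0 : ℂ) 1, z * deriv G z + N * G z = DD N X (z • ξ) := by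
    intro z hz
    rw [mem_ball_zero_iff] at hz
    unfold DD
    rw [hrad ξ hξ z hz]
  have hH : DifferentiableOn ℂ (fun z => z * deriv G z + N * G z) (Metric.ball 0 1) :=
    (h170_slice (DD N X) hdd ξ hξ).congr hHeq
  have k1 : ∫⁻ t in Set.Ioc (0:ℝ) (2 * Real.pi), f0 (Complex.exp (t * I) • ξ) =
      ENNReal.ofReal (2 * Real.pi) * ∑' k : ℕ, ENNReal.ofReal (‖tc G k‖ ^ 2 * (r ^ k) ^ 2) := by
    rw [← hpar G hG r hr0 hr1]
    refine lintegral_congr fun t => ?_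
    rw [hf0]
    simp only
    rw [smul_smul, hXt _ (hdisc r hr0 hr1 t ξ hξ)]
  have k2 : ∀ x ∈ Set.Ioi (0:ℝ), ∫⁻ t in Set.Ioc (0:ℝ) (2 * Real.pi), f1 x (Complex.exp (t * I) • ξ) =
      ENNReal.ofReal (2 * Real.pi) * ∑' k : ℕ, ENNReal.ofReal (((k : ℝ) + N) ^ 2 * ‖tc G k‖ ^ 2) *
        ENNReal.ofReal (Real.exp (-(2 * ((k + n : ℕ) : ℝ) * x)) * (1 - Real.exp (-(2 * x)))) := by
    intro x hx
    have hx0 : 0 < x := hx
    have h1 : ∀ t : ℝ, f1 x (Complex.exp (t * I) • ξ) = ENNReal.ofReal (Real.exp (-(2 * n * x)) * (1 - Real.exp (-(2 * x)))) *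
        ENNReal.ofReal (‖(fun z => z * deriv G z + N * G z) (((Real.exp (-x) : ℝ) : ℂ) * Complex.exp (t * I))‖ ^ 2) := by
      intro t
      rw [hf1]
      simp only
      rw [smul_smul]
      have h2 := hdisc (Real.exp (-x)) (hex x hx0).1 (hex x hx0).2 t ξ hξ
      rw [hYt _ h2, ENNReal.ofReal_mul (hw0 x hx0), hHeq]
      rw [mem_ball_zero_iff, norm_mul, hexpn, mul_one, Complex.norm_of_nonneg (hex x hx0).1]
      exact (hex x hx0).2
    simp only [h1]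
    rw [lintegral_const_mul' _ _ ENNReal.ofReal_ne_top, hpar _ hH _ (hex x hx0).1 (hex x hx0).2, mul_left_comm]
    congr 1
    rw [← ENNReal.tsum_mul_left]
    refine tsum_congr fun k => ?_
    rw [heuler G hG N k, ← ENNReal.ofReal_mul (hw0 x hx0), ← ENNReal.ofReal_mul (by positivity)]
    congr 1
    have h2 : ‖((k : ℂ) + N) * tc G k‖ ^ 2 = ((k : ℝ) + N) ^ 2 * ‖tc G k‖ ^ 2 := by
      rw [norm_mul, mul_pow]
      congr 2
      have : ((k : ℂ) + N) = (((k : ℝ) + N : ℝ) : ℂ) := by push_cast; rfl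
      rw [this, Complex.norm_of_nonneg (by positivity)]
    have h3 : Real.exp (-(2 * ((k + n : ℕ) : ℝ) * x)) = Real.exp (-(2 * n * x)) * (Real.exp (-x) ^ k) ^ 2 := by
      rw [← pow_mul, ← Real.exp_nat_mul, ← Real.exp_add]
      congr 1
      push_cast
      ring
    rw [h2, h3]
    ring
  have k3 : ∫⁻ x in Set.Ioi (0:ℝ), ∫⁻ t in Set.Ioc (0:ℝ) (2 * Real.pi), f1 x (Complex.exp (t * I) • ξ) =
      ENNReal.ofReal (2 * Real.pi) * ∑' k : ℕ, ENNReal.ofReal (((k : ℝ) + N) ^ 2 * ‖tc G k‖ ^ 2) *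
        ENNReal.ofReal (1 / (2 * (((k + n : ℕ) : ℝ) * (((k + n : ℕ) : ℝ) + 1)))) := by
    rw [setLIntegral_congr_fun measurableSet_Ioi k2]
    have hwm : ∀ k : ℕ, Measurable (fun x : ℝ => ENNReal.ofReal (Real.exp (-(2 * ((k + n : ℕ) : ℝ) * x)) * (1 - Real.exp (-(2 * x))))) := by
      intro k
      have h4 : Continuous (fun x : ℝ => Real.exp (-(2 * ((k + n : ℕ) : ℝ) * x)) * (1 - Real.exp (-(2 * x)))) := by fun_prop
      exact h4.measurable.ennreal_ofReal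
    rw [lintegral_const_mul' _ _ ENNReal.ofReal_ne_top]
    congr 1
    rw [lintegral_tsum (fun k => ((hwm k).const_mul _).aemeasurable)]
    refine tsum_congr fun k => ?_
    rw [lintegral_const_mul' _ _ ENNReal.ofReal_ne_top, hrl (k + n) (by omega)]
  rw [k1, k3, mul_left_comm]
  refine mul_le_mul_right ?_ _
  rw [← ENNReal.tsum_mul_left]
  refine ENNReal.tsum_le_tsum fun k => ?_
  have h2 : (2 : ℝ≥0∞) = ENNReal.ofReal 2 := by norm_num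
  rw [h2, ← ENNReal.ofReal_mul (by positivity), ← ENNReal.ofReal_mul (by norm_num)]
  refine ENNReal.ofReal_le_ofReal ?_
  have hn' : (1 : ℝ) ≤ n := by exact_mod_cast hn
  have hN' : (n : ℝ) + 1 ≤ N := by exact_mod_cast hN
  have hk0 : (0 : ℝ) ≤ k := Nat.cast_nonneg k
  have hr2 : (r ^ k) ^ 2 ≤ 1 := by
    have : r ^ k ≤ 1 := pow_le_one₀ hr0 hr1.le
    have h0 : 0 ≤ r ^ k := pow_nonneg hr0 k
    nlinarith
  have ha : 0 ≤ ‖tc G k‖ ^ 2 := by positivity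
  have hq : 1 ≤ 2 * (((k : ℝ) + N) ^ 2 * (1 / (2 * (((k + n : ℕ) : ℝ) * (((k + n : ℕ) : ℝ) + 1))))) := by
    push_cast
    have hden : 0 < (2 * (((k : ℝ) + n) * ((k : ℝ) + n + 1))) := by positivity
    rw [mul_one_div, ← mul_div_assoc, le_div_iff₀ hden]
    nlinarith
  calc ‖tc G k‖ ^ 2 * (r ^ k) ^ 2 ≤ ‖tc G k‖ ^ 2 * 1 := mul_le_mul_of_nonneg_left hr2 ha
    _ ≤ ‖tc G k‖ ^ 2 * (2 * (((k : ℝ) + N) ^ 2 * (1 / (2 * (((k + n : ℕ) : ℝ) * (((k + n : ℕ) : ℝ) + 1)))))) :=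
        mul_le_mul_of_nonneg_left hq ha
    _ = _ := by ring

end Pool.Agent.Helper19.RU
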