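import Mathlib
import Pool.Agent.HpBall.Defs2
import Pool.Agent.Helper19.RU.Step
import Pool.Agent.Helper19.RU.BallEq
set_option autoImplicit false
open MeasureTheory Complex
open scoped ENNReal NNReal

namespace Pool.Agent.Helper19.RU
open Pool.Agent.HpBall








/-- Hardy-Stein inequality down to the unit sphere, by dilation of the known version for x₀ > 0 -/
theorem hs_zero {n : ℕ} (μ : Measure (E n)) [IsFiniteMeasure μ] (hae : ∀ᵐ ξ ∂μ, ‖ξ‖ = 1)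
    (p ε : ℝ) (hε : 0 < ε)
    (hHS : ∀ g : E n → ℂ, DifferentiableOn ℂ g (Metric.ball 0 1) → ∀ x₀ X : ℝ, 0 < x₀ → x₀ ≤ X →
      ∫⁻ x in Set.Ioc x₀ X, ∫⁻ ξ, ENNReal.ofReal ((x - x₀) *
        (‖rad g ((Real.exp (-x) : ℂ) • ξ)‖ ^ 2 *
          (‖g ((Real.exp (-x) : ℂ) • ξ)‖ ^ 2 + ε) ^ (p / 2 - 1))) ∂μ ≤
      ENNReal.ofReal (1 / p ^ 2) * ∫⁻ ξ, ENNReal.ofReal
        ((‖g ((Real.exp (-x₀) : ℂ) • ξ)‖ ^ 2 + ε) ^ (p / 2)) ∂μ)
    (hmeas : ∀ g : E n → ℂ, Measurable (rad g))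
    (f : E n → ℂ) (R : ℝ) (hR : 1 < R) (hf : DifferentiableOn ℂ f (Metric.ball 0 R)) :
    ∫⁻ x in Set.Ioi (0:ℝ), ∫⁻ ξ, ENNReal.ofReal (x *
        (‖rad f ((Real.exp (-x) : ℂ) • ξ)‖ ^ 2 *
          (‖f ((Real.exp (-x) : ℂ) • ξ)‖ ^ 2 + ε) ^ (p / 2 - 1))) ∂μ ≤
      ENNReal.ofReal (1 / p ^ 2) * ∫⁻ ξ, ENNReal.ofReal ((‖f ξ‖ ^ 2 + ε) ^ (p / 2)) ∂μ := by
  have hR0 : 0 < R := by linarith
  have hlog : 0 < Real.log R := Real.log_pos hR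
  obtain ⟨x₀, hx₀⟩ : ∃ x₀, x₀ = Real.log R / 2 := ⟨_, rfl⟩
  have hx0 : 0 < x₀ := by rw [hx₀]; linarith
  have hsR : Real.exp x₀ < R := by
    calc Real.exp x₀ < Real.exp (Real.log R) := Real.exp_lt_exp.2 (by linarith)
      _ = R := Real.exp_log hR0
  obtain ⟨g, hg⟩ : ∃ g : E n → ℂ, g = fun z => f ((Real.exp x₀ : ℂ) • z) := ⟨_, rfl⟩
  have hns : ‖(Real.exp x₀ : ℂ)‖ = Real.exp x₀ := by
    rw [Complex.norm_real, Real.norm_of_nonneg (Real.exp_pos x₀).le]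
  have hgd : DifferentiableOn ℂ g (Metric.ball 0 1) := by
    rw [hg]
    intro z hz
    have hz' : (Real.exp x₀ : ℂ) • z ∈ Metric.ball (0 : E n) R := by
      rw [mem_ball_zero_iff] at hz ⊢
      rw [norm_smul, hns]
      calc Real.exp x₀ * ‖z‖ ≤ Real.exp x₀ * 1 :=
            mul_le_mul_of_nonneg_left hz.le (Real.exp_pos x₀).le
        _ < R := by linarith
    have h1 : DifferentiableAt ℂ f ((Real.exp x₀ : ℂ) • z) :=
      (hf _ hz').differentiableAt (Metric.isOpen_ball.mem_nhds hz')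
    have h2 : DifferentiableAt ℂ (fun z : E n => (Real.exp x₀ : ℂ) • z) z :=
      differentiableAt_fun_id.fun_const_smul _
    exact (h1.comp z h2).differentiableWithinAt
  have hrad : ∀ z, rad g z = rad f ((Real.exp x₀ : ℂ) • z) := by
    intro z
    unfold rad
    rw [hg, fderiv_comp_smul, smul_apply, map_smul]
  obtain ⟨Φ, hΦ⟩ : ∃ Φ : ℝ → ℝ≥0∞, Φ = fun x => ∫⁻ ξ, ENNReal.ofReal (x *
        (‖rad f ((Real.exp (-x) : ℂ) • ξ)‖ ^ 2 *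
          (‖f ((Real.exp (-x) : ℂ) • ξ)‖ ^ 2 + ε) ^ (p / 2 - 1))) ∂μ := ⟨_, rfl⟩
  have hmul : ∀ (x : ℝ) (ξ : E n), (Real.exp x₀ : ℂ) • ((Real.exp (-x) : ℂ) • ξ)
      = (Real.exp (-(x - x₀)) : ℂ) • ξ := by
    intro x ξ
    rw [smul_smul, ← Complex.ofReal_mul, ← Real.exp_add]
    congr 3
    ring
  have hmain : ∀ m : ℕ, ∫⁻ x in Set.Ioc (0 : ℝ) m, Φ x ≤
      ENNReal.ofReal (1 / p ^ 2) * ∫⁻ ξ, ENNReal.ofReal ((‖f ξ‖ ^ 2 + ε) ^ (p / 2)) ∂μ := by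
    intro m
    have h1 := hHS g hgd x₀ (x₀ + m) hx0 (by linarith [(Nat.cast_nonneg m : (0 : ℝ) ≤ m)])
    have e1 : ∀ ξ, g ((Real.exp (-x₀) : ℂ) • ξ) = f ξ := by
      intro ξ
      rw [hg]
      simp only []
      rw [hmul, sub_self, neg_zero, Real.exp_zero, Complex.ofReal_one, one_smul]
    have e2 : ∀ x : ℝ, ∫⁻ ξ, ENNReal.ofReal ((x - x₀) *
        (‖rad g ((Real.exp (-x) : ℂ) • ξ)‖ ^ 2 *
          (‖g ((Real.exp (-x) : ℂ) • ξ)‖ ^ 2 + ε) ^ (p / 2 - 1))) ∂μ = Φ (x - x₀) := by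
      intro x
      rw [hΦ]
      simp only [hrad, hmul]
      have e3 : ∀ ξ, g ((Real.exp (-x) : ℂ) • ξ) = f ((Real.exp (-(x - x₀)) : ℂ) • ξ) := by
        intro ξ
        rw [hg]
        simp only [hmul]
      simp only [e3]
    simp only [e1, e2] at h1
    refine le_trans (le_of_eq ?_) h1
    rw [← lintegral_indicator measurableSet_Ioc, ← lintegral_indicator measurableSet_Ioc,
      ← lintegral_sub_right_eq_self _ x₀]
    congr 1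
    funext x
    by_cases hx : x ∈ Set.Ioc x₀ (x₀ + m)
    · rw [Set.indicator_of_mem hx, Set.indicator_of_mem]
      exact ⟨by linarith [hx.1], by linarith [hx.2]⟩
    · rw [Set.indicator_of_notMem hx, Set.indicator_of_notMem]
      intro hx2
      exact hx ⟨by linarith [hx2.1], by linarith [hx2.2]⟩
  have hU : Set.Ioi (0 : ℝ) = ⋃ m : ℕ, Set.Ioc (0 : ℝ) m := by
    ext x
    rw [Set.mem_iUnion]
    constructor
    · intro hx
      obtain ⟨m, hm⟩ := exists_nat_ge x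
      exact ⟨m, hx, hm⟩
    · rintro ⟨m, hx⟩
      exact hx.1
  have hdir : Directed (· ⊆ ·) (fun m : ℕ => Set.Ioc (0 : ℝ) m) := by
    apply directed_of_isDirected_le
    intro a b hab
    exact Set.Ioc_subset_Ioc_right (by exact_mod_cast hab)
  calc ∫⁻ x in Set.Ioi (0:ℝ), ∫⁻ ξ, ENNReal.ofReal (x *
        (‖rad f ((Real.exp (-x) : ℂ) • ξ)‖ ^ 2 *
          (‖f ((Real.exp (-x) : ℂ) • ξ)‖ ^ 2 + ε) ^ (p / 2 - 1))) ∂μ
      = ∫⁻ x in Set.Ioi (0:ℝ), Φ x := by rw [hΦ]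
    _ = ⨆ m : ℕ, ∫⁻ x in Set.Ioc (0 : ℝ) m, Φ x := by
        rw [hU, setLIntegral_iUnion_of_directed _ hdir]
    _ ≤ _ := iSup_le hmain

end Pool.Agent.Helper19.RU
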