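import Mathlib
import Pool.Agent.HpBall.SphereHS
import Pool.Agent.Helper19.RU.F1
import Pool.Agent.Helper19.RU.J4
import Pool.Agent.Helper19.RU.J7

set_option autoImplicit false

open MeasureTheory Complex
open scoped ENNReal NNReal

namespace Pool.Agent.Helper19.RU

open Pool.Agent.HpBall Pool.Agent.HpBall2

/-- polar coordinates on the ball, for a.e. measurable functions -/
theorem lint_ball (n : ℕ) (hn : 1 ≤ n) : ∃ c : ℝ≥0, 0 < c ∧ ∀ G : E n → ℝ≥0∞,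
    AEMeasurable G ((volume : Measure (E n)).restrict (Metric.ball 0 1)) →
    ∫⁻ z in Metric.ball (0 : E n) 1, G z = c * ∫⁻ x in Set.Ioi (0 : ℝ),
      ENNReal.ofReal (Real.exp (-(2 * n * x))) *
        ∫⁻ ξ, G ((Real.exp (-x) : ℂ) • ξ) ∂(sig n) := by
  obtain ⟨c, hc, h⟩ := vol_ball_eq n hn
  refine ⟨c, hc, fun G hG => ?_⟩
  rw [h] at hG
  have hG' : AEMeasurable G (((rx n).prod (sig n)).map
      (fun q : ℝ × E n => (Real.exp (-q.1) : ℂ) • q.2)) := by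
    refine hG.mono_ac ?_
    refine Measure.AbsolutelyContinuous.mk fun s _ hs => ?_
    rw [Measure.smul_apply] at hs
    have hs' : (c : ℝ≥0∞) * _ = 0 := hs
    rcases mul_eq_zero.1 hs' with h1 | h1
    · exact absurd h1 (by exact_mod_cast hc.ne')
    · exact h1
  have hGc : AEMeasurable (fun q : ℝ × E n => G ((Real.exp (-q.1) : ℂ) • q.2))
      ((rx n).prod (sig n)) := hG'.comp_measurable (measurable_expsmul n)
  have hsm : ∀ μ : Measure (E n), ∫⁻ z, G z ∂(c • μ) = (c : ℝ≥0) * ∫⁻ z, G z ∂μ := by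
    intro μ; rw [lintegral_smul_measure]; rfl
  rw [h, hsm, lintegral_map' hG' (measurable_expsmul n).aemeasurable, lintegral_prod _ hGc]
  congr 1
  have hin : AEMeasurable (fun x : ℝ => ∫⁻ ξ, G ((Real.exp (-x) : ℂ) • ξ) ∂(sig n)) (rx n) :=
    hGc.lintegral_prod_right'
  unfold rx at hin ⊢
  rw [lintegral_withDensity_eq_lintegral_mul₀' (by fun_prop) hin]
  rfl

lemma energy_one (n : ℕ) (Φ : E n → ℂ) : energy (fun _ => 1) Φ =
    ∫⁻ w in Metric.ball (0 : E n) 1, ENNReal.ofReal (‖Φ w‖ ^ 2 * (1 - ‖w‖ ^ 2)) := by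
  unfold energy; simp

/-- F3: the H² norm is bounded by the area integral -/
theorem F3 (n : ℕ) (hn : 1 ≤ n) (N : ℕ) (hN : n + 1 ≤ N) : ∃ C : ℝ, 0 < C ∧
    ∀ X : E n → ℂ, DifferentiableOn ℂ X (Metric.ball 0 1) →
      H2 n (ENNReal.ofReal C * energy (fun _ => 1) (DD N X)) X := by
  obtain ⟨c0, hc0, hball⟩ := lint_ball n hn
  obtain ⟨c1, hc1, hsig⟩ := sig_eq n hn
  refine ⟨2 * ((c1⁻¹ : ℝ≥0) : ℝ) * ((c0⁻¹ : ℝ≥0) : ℝ), by positivity, ?_⟩
  intro X hX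
  refine ⟨hX, fun r hr0 hr1 => ?_⟩
  have hDD := DD_diff Metric.isOpen_ball hX N
  have hb := h2_bound hn (sig n) (sig_ae_norm hn) (fun f hf => sig_average n f hf)
    (fun G hG r hr0 hr1 => parseval_disc hG hr0 hr1) (fun G hG N k => tc_euler hG N k)
    (fun K hK => radial_lint K hK) X hX (fun ξ hξ z hz => J15_rad hX hξ hz) N hN hDD r hr0 hr1
  have hen : energy (fun _ => 1) (DD N X) = c0 * ∫⁻ x in Set.Ioi (0:ℝ), ∫⁻ ξ, ENNReal.ofReal
      (Real.exp (-(2 * n * x)) * (1 - Real.exp (-(2 * x))) *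
        ‖DD N X ((Real.exp (-x) : ℂ) • ξ)‖ ^ 2) ∂(sig n) := by
    have hmeas : AEStronglyMeasurable (DD N X)
        ((volume : Measure (E n)).restrict (Metric.ball 0 1)) :=
      hDD.continuousOn.aestronglyMeasurable Metric.isOpen_ball.measurableSet
    rw [energy_one, hball _ (by
      have h1 := (hmeas.norm.aemeasurable.pow_const 2)
      have h2 : Measurable (fun w : E n => 1 - ‖w‖ ^ 2) := by fun_prop
      exact (h1.mul h2.aemeasurable).ennreal_ofReal)]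
    congr 1
    refine setLIntegral_congr_fun measurableSet_Ioi fun x hx => ?_
    have hx0 : (0:ℝ) < x := hx
    rw [← lintegral_const_mul' _ _ ENNReal.ofReal_ne_top]
    refine lintegral_congr_ae ?_
    filter_upwards [sig_ae_norm hn] with ξ hξ
    rw [← ENNReal.ofReal_mul (Real.exp_pos _).le]
    congr 1
    rw [norm_smul, hξ, mul_one, Complex.norm_real, Real.norm_eq_abs, abs_of_pos (Real.exp_pos _)]
    have : Real.exp (-x) ^ 2 = Real.exp (-(2 * x)) := by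
      rw [← Real.exp_nat_mul]; congr 1; push_cast; ring
    rw [this]; ring
  have hXm : ∫⁻ ζ, ‖X ((r : ℂ) • (ζ : E n))‖ₑ ^ 2 ∂(sg n) =
      (c1⁻¹ : ℝ≥0) * ∫⁻ ξ, ENNReal.ofReal (‖X ((r : ℂ) • ξ)‖ ^ 2) ∂(sig n) := by
    set Y : E n → ℝ≥0∞ := (Metric.closedBall (0 : E n) 1).indicator
      (fun ξ => ENNReal.ofReal (‖X ((r : ℂ) • ξ)‖ ^ 2)) with hY
    have hYm : Measurable Y := by
      have hcont : ContinuousOn (fun ξ : E n => ENNReal.ofReal (‖X ((r : ℂ) • ξ)‖ ^ 2))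
          (Metric.closedBall (0 : E n) 1) := by
        refine ENNReal.continuous_ofReal.comp_continuousOn ?_
        refine ContinuousOn.pow (ContinuousOn.norm ?_) 2
        refine hX.continuousOn.comp (by fun_prop) ?_
        intro ξ hξ
        rw [mem_ball_zero_iff, norm_smul, Complex.norm_real, Real.norm_eq_abs, abs_of_nonneg hr0]
        have : ‖ξ‖ ≤ 1 := by simpa using hξ
        nlinarith
      classical
      rw [hY, ← Set.piecewise_eq_indicator]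
      exact hcont.measurable_piecewise continuousOn_const Metric.isClosed_closedBall.measurableSet
    have h1 : ∫⁻ ξ, ENNReal.ofReal (‖X ((r : ℂ) • ξ)‖ ^ 2) ∂(sig n) = ∫⁻ ξ, Y ξ ∂(sig n) := by
      refine lintegral_congr_ae ?_
      filter_upwards [sig_ae_norm hn] with ξ hξ
      rw [hY, Set.indicator_of_mem (by simp [hξ])]
    have h2 : ∫⁻ ζ, ‖X ((r : ℂ) • (ζ : E n))‖ₑ ^ 2 ∂(sg n) = ∫⁻ ζ, Y (ζ : E n) ∂(sg n) := by
      refine lintegral_congr fun ζ => ?_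
      have hζ : ‖(ζ : E n)‖ = 1 := by simp
      rw [hY, Set.indicator_of_mem (by simp [hζ]), ← ofReal_norm,
        ENNReal.ofReal_pow (norm_nonneg _)]
    have hcc : ((c1⁻¹ : ℝ≥0) : ℝ≥0∞) * (c1 : ℝ≥0∞) = 1 := by
      rw [← ENNReal.coe_mul, inv_mul_cancel₀ hc1.ne', ENNReal.coe_one]
    rw [h1, h2, hsig Y hYm, ← mul_assoc, hcc, one_mul]
  rw [hXm, hen]
  have hcc0 : ((c0⁻¹ : ℝ≥0) : ℝ≥0∞) * (c0 : ℝ≥0∞) = 1 := by
    rw [← ENNReal.coe_mul, inv_mul_cancel₀ hc0.ne', ENNReal.coe_one]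
  have hofc : ENNReal.ofReal (2 * ((c1⁻¹ : ℝ≥0) : ℝ) * ((c0⁻¹ : ℝ≥0) : ℝ)) =
      2 * (c1⁻¹ : ℝ≥0) * (c0⁻¹ : ℝ≥0) := by
    rw [ENNReal.ofReal_mul (by positivity), ENNReal.ofReal_mul (by norm_num),
      ENNReal.ofReal_coe_nnreal, ENNReal.ofReal_coe_nnreal, ENNReal.ofReal_ofNat]
  rw [hofc]
  refine (mul_le_mul_right hb _).trans (le_of_eq ?_)
  rw [mul_assoc (2 * ((c1⁻¹ : ℝ≥0) : ℝ≥0∞)), ← mul_assoc _ (c0 : ℝ≥0∞), hcc0, one_mul,
    ← mul_assoc, mul_comm _ (2 : ℝ≥0∞)]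

end Pool.Agent.Helper19.RU
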