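import Mathlib
import Pool.Agent.Helper19.RU.F3

set_option autoImplicit false

open MeasureTheory Complex
open scoped ENNReal NNReal

namespace Pool.Agent.Helper19.RU

open Pool.Agent.HpBall Pool.Agent.HpBall2

lemma aem_of_cont {n : ℕ} (hn : 1 ≤ n) {g : E n → ℝ}
    (hg : ContinuousOn g (Metric.closedBall 0 1)) : AEMeasurable g (sig n) := by
  have h : (sig n).restrict (Metric.closedBall 0 1) = sig n := by
    refine Measure.restrict_eq_self_of_ae_mem ?_
    filter_upwards [sig_ae_norm hn] with ξ hξ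
    simp [hξ]
  rw [← h]
  exact hg.aemeasurable Metric.isClosed_closedBall.measurableSet

/-- F4: Hardy-Stein inequality with weight, surface measure on the right hand side -/
theorem F4 (n : ℕ) (hn : 1 ≤ n) (N : ℕ) : ∃ C : ℝ, 0 < C ∧
    ∀ (R : ℝ) (f : E n → ℂ), 1 < R → DifferentiableOn ℂ f (Metric.ball 0 R) →
      ∀ ε : ℝ, 0 < ε →
      ∫⁻ w in Metric.ball (0 : E n) 1, ENNReal.ofReal (‖DD N f w‖ ^ 2 *
        (‖f w‖ ^ 2 + ε) ^ (-(1 / 2) : ℝ) * (1 - ‖w‖ ^ 2)) ≤
      ENNReal.ofReal C * ∫⁻ ζ, ENNReal.ofReal ((‖f (ζ : E n)‖ ^ 2 + ε) ^ (1 / 2 : ℝ)) ∂(sg n) := by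
  obtain ⟨c0, hc0, hball⟩ := lint_ball n hn
  obtain ⟨c1, hc1, hsig⟩ := sig_eq n hn
  refine ⟨((c0 : ℝ) * 4 + (c0 : ℝ) * (2 * (N : ℝ) ^ 2)) * c1, by positivity, ?_⟩
  intro R f hR hf ε hε
  have hsub : Metric.ball (0 : E n) 1 ⊆ Metric.ball 0 R := Metric.ball_subset_ball hR.le
  have hf1 : DifferentiableOn ℂ f (Metric.ball 0 1) := hf.mono hsub
  have hDD := DD_diff Metric.isOpen_ball hf1 N
  have hDDm : AEStronglyMeasurable (DD N f)
      ((volume : Measure (E n)).restrict (Metric.ball 0 1)) :=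
    hDD.continuousOn.aestronglyMeasurable Metric.isOpen_ball.measurableSet
  have hfm : AEStronglyMeasurable f
      ((volume : Measure (E n)).restrict (Metric.ball 0 1)) :=
    hf1.continuousOn.aestronglyMeasurable Metric.isOpen_ball.measurableSet
  have hHS := hs_zero (sig n) (sig_ae_norm hn) 1 ε hε
    (fun g hg x₀ X h0 h1 => sphere_hardy_stein n hn 1 one_pos (by norm_num) ε hε g hg x₀ X h0 h1)
    (fun g => measurable_rad n g) f R hR hf
  -- the right hand side in terms of sig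
  have hRHS : ∫⁻ ξ, ENNReal.ofReal ((‖f ξ‖ ^ 2 + ε) ^ ((1:ℝ) / 2)) ∂(sig n) =
      c1 * ∫⁻ ζ, ENNReal.ofReal ((‖f (ζ : E n)‖ ^ 2 + ε) ^ (1 / 2 : ℝ)) ∂(sg n) := by
    set Y : E n → ℝ≥0∞ := (Metric.closedBall (0 : E n) 1).indicator
      (fun ξ => ENNReal.ofReal ((‖f ξ‖ ^ 2 + ε) ^ (1 / 2 : ℝ))) with hY
    have hYm : Measurable Y := by
      have hcont : ContinuousOn (fun ξ : E n => ENNReal.ofReal ((‖f ξ‖ ^ 2 + ε) ^ (1 / 2 : ℝ)))
          (Metric.closedBall (0 : E n) 1) := by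
        refine ENNReal.continuous_ofReal.comp_continuousOn ?_
        refine ContinuousOn.rpow_const ?_ (fun ξ _ => Or.inr (by norm_num))
        refine (ContinuousOn.pow (ContinuousOn.norm ?_) 2).add continuousOn_const
        exact hf.continuousOn.mono (Metric.closedBall_subset_ball hR)
      classical
      rw [hY, ← Set.piecewise_eq_indicator]
      exact hcont.measurable_piecewise continuousOn_const Metric.isClosed_closedBall.measurableSet
    have h1 : ∫⁻ ξ, ENNReal.ofReal ((‖f ξ‖ ^ 2 + ε) ^ ((1:ℝ) / 2)) ∂(sig n) =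
        ∫⁻ ξ, Y ξ ∂(sig n) := by
      refine lintegral_congr_ae ?_
      filter_upwards [sig_ae_norm hn] with ξ hξ
      rw [hY, Set.indicator_of_mem (by simp [hξ])]
    have h2 : ∫⁻ ζ, ENNReal.ofReal ((‖f (ζ : E n)‖ ^ 2 + ε) ^ (1 / 2 : ℝ)) ∂(sg n) =
        ∫⁻ ζ, Y (ζ : E n) ∂(sg n) := by
      refine lintegral_congr fun ζ => ?_
      have hζ : ‖(ζ : E n)‖ = 1 := by simp
      rw [hY, Set.indicator_of_mem (by simp [hζ])]
    rw [h1, h2, hsig Y hYm]
  set I : ℝ≥0∞ := ∫⁻ ξ, ENNReal.ofReal ((‖f ξ‖ ^ 2 + ε) ^ ((1:ℝ) / 2)) ∂(sig n) with hI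
  have hen : ∫⁻ w in Metric.ball (0 : E n) 1, ENNReal.ofReal (‖DD N f w‖ ^ 2 *
        (‖f w‖ ^ 2 + ε) ^ (-(1 / 2) : ℝ) * (1 - ‖w‖ ^ 2)) = c0 * ∫⁻ x in Set.Ioi (0:ℝ),
        ENNReal.ofReal (Real.exp (-(2 * n * x))) * ∫⁻ ξ, ENNReal.ofReal
          (‖DD N f ((Real.exp (-x) : ℂ) • ξ)‖ ^ 2 *
            (‖f ((Real.exp (-x) : ℂ) • ξ)‖ ^ 2 + ε) ^ (-(1 / 2) : ℝ) *
              (1 - ‖(Real.exp (-x) : ℂ) • ξ‖ ^ 2)) ∂(sig n) := by
    refine hball _ ?_
    have h1 := (hDDm.norm.aemeasurable.pow_const 2)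
    have h2 : Measurable (fun w : E n => 1 - ‖w‖ ^ 2) := by fun_prop
    have h3 := ((hfm.norm.aemeasurable.pow_const 2).add_const ε).pow_const (-(1 / 2) : ℝ)
    exact ((h1.mul h3).mul h2.aemeasurable).ennreal_ofReal
  rw [hen]
  -- pointwise bound
  have hA : ∀ x ∈ Set.Ioi (0:ℝ), ENNReal.ofReal (Real.exp (-(2 * n * x))) * ∫⁻ ξ, ENNReal.ofReal
          (‖DD N f ((Real.exp (-x) : ℂ) • ξ)‖ ^ 2 *
            (‖f ((Real.exp (-x) : ℂ) • ξ)‖ ^ 2 + ε) ^ (-(1 / 2) : ℝ) *
              (1 - ‖(Real.exp (-x) : ℂ) • ξ‖ ^ 2)) ∂(sig n) ≤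
      4 * ∫⁻ ξ, ENNReal.ofReal (x * (‖rad f ((Real.exp (-x) : ℂ) • ξ)‖ ^ 2 *
          (‖f ((Real.exp (-x) : ℂ) • ξ)‖ ^ 2 + ε) ^ ((1:ℝ) / 2 - 1))) ∂(sig n) +
      ENNReal.ofReal (2 * N ^ 2 * Real.exp (-(2 * n * x))) * I := by
    intro x hx
    have hx0 : (0:ℝ) < x := hx
    have hex1 : Real.exp (-(2 * n * x)) ≤ 1 := by
      rw [Real.exp_le_one_iff]; have : (0:ℝ) ≤ n := Nat.cast_nonneg n; nlinarith
    have hmono : ∫⁻ ξ, ENNReal.ofReal (‖f ((Real.exp (-x) : ℂ) • ξ)‖) ∂(sig n) ≤ I := by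
      have h := sphere_mono n hn 1 one_pos (by norm_num) f R hf (Real.exp (-x)) 1
        (Real.exp_pos _).le (by rw [Real.exp_le_one_iff]; linarith) hR
      simp only [Real.rpow_one, Complex.ofReal_one, one_smul] at h
      refine h.trans ?_
      rw [hI]
      refine lintegral_mono fun ξ => ENNReal.ofReal_le_ofReal ?_
      rw [← Real.sqrt_eq_rpow]
      refine Real.le_sqrt_of_sq_le ?_
      linarith
    rw [← lintegral_const_mul' _ _ ENNReal.ofReal_ne_top]
    have hfc : Continuous (fun ξ : E n => (Real.exp (-x) : ℂ) • ξ) := by fun_prop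
    calc _ ≤ ∫⁻ ξ, (4 * ENNReal.ofReal (x * (‖rad f ((Real.exp (-x) : ℂ) • ξ)‖ ^ 2 *
          (‖f ((Real.exp (-x) : ℂ) • ξ)‖ ^ 2 + ε) ^ ((1:ℝ) / 2 - 1))) +
          ENNReal.ofReal (2 * N ^ 2 * Real.exp (-(2 * n * x))) *
            ENNReal.ofReal (‖f ((Real.exp (-x) : ℂ) • ξ)‖)) ∂(sig n) := by
          refine lintegral_mono_ae ?_
          filter_upwards [sig_ae_norm hn] with ξ hξ
          have h4 : (4 : ℝ≥0∞) = ENNReal.ofReal 4 := by norm_num
          rw [← ENNReal.ofReal_mul (Real.exp_pos _).le, h4, ← ENNReal.ofReal_mul (by norm_num),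
            ← ENNReal.ofReal_mul (by positivity), ← ENNReal.ofReal_add (by positivity)
              (by positivity)]
          refine ENNReal.ofReal_le_ofReal ?_
          set z : E n := (Real.exp (-x) : ℂ) • ξ with hz
          have hnz : ‖z‖ ^ 2 = Real.exp (-(2 * x)) := by
            rw [hz, norm_smul, hξ, mul_one, Complex.norm_real, Real.norm_eq_abs,
              abs_of_pos (Real.exp_pos _), ← Real.exp_nat_mul]
            congr 1; push_cast; ring
          have hs0 : 0 ≤ 1 - ‖z‖ ^ 2 := by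
            rw [hnz]; have : Real.exp (-(2 * x)) ≤ 1 := by rw [Real.exp_le_one_iff]; linarith
            linarith
          have hs1 : 1 - ‖z‖ ^ 2 ≤ 1 := by rw [hnz]; have := Real.exp_pos (-(2*x)); linarith
          have hs2 : 1 - ‖z‖ ^ 2 ≤ 2 * x := by
            rw [hnz]; have := Real.add_one_le_exp (-(2 * x)); linarith
          have hpow : ((1:ℝ) / 2 - 1) = -(1 / 2) := by norm_num
          rw [hpow]
          set Q : ℝ := (‖f z‖ ^ 2 + ε) ^ (-(1 / 2) : ℝ) with hQ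
          have hQ0 : 0 < Q := by rw [hQ]; positivity
          have hQf : ‖f z‖ * Q ≤ 1 := by
            have h1 : ‖f z‖ ≤ (‖f z‖ ^ 2 + ε) ^ (1 / 2 : ℝ) := by
              rw [← Real.sqrt_eq_rpow]
              refine Real.le_sqrt_of_sq_le ?_
              linarith
            have h2 : (‖f z‖ ^ 2 + ε) ^ (1 / 2 : ℝ) * Q = 1 := by
              rw [hQ, ← Real.rpow_add (by positivity)]; norm_num
            calc ‖f z‖ * Q ≤ (‖f z‖ ^ 2 + ε) ^ (1 / 2 : ℝ) * Q := by gcongr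
              _ = 1 := h2
          have hD : ‖DD N f z‖ ^ 2 ≤ 2 * ‖rad f z‖ ^ 2 + 2 * N ^ 2 * ‖f z‖ ^ 2 := by
            have h1 : ‖DD N f z‖ ≤ ‖rad f z‖ + N * ‖f z‖ := by
              unfold DD
              refine (norm_add_le _ _).trans ?_
              rw [norm_mul, Complex.norm_natCast]
            have h2 := pow_le_pow_left₀ (norm_nonneg _) h1 2
            nlinarith [sq_nonneg (‖rad f z‖ - N * ‖f z‖)]
          set e : ℝ := Real.exp (-(2 * n * x)) with he
          have he0 : 0 < e := Real.exp_pos _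
          set s : ℝ := 1 - ‖z‖ ^ 2 with hs
          have b1 : e * (‖DD N f z‖ ^ 2 * Q * s) ≤
              e * ((2 * ‖rad f z‖ ^ 2 + 2 * N ^ 2 * ‖f z‖ ^ 2) * Q * s) := by gcongr
          have b2 : e * (2 * ‖rad f z‖ ^ 2 * Q * s) ≤ 1 * (2 * ‖rad f z‖ ^ 2 * Q * (2 * x)) := by
            gcongr
          have b3 : e * (2 * N ^ 2 * ‖f z‖ * (‖f z‖ * Q) * s) ≤ e * (2 * N ^ 2 * ‖f z‖ * 1 * 1) := by
            gcongr
          nlinarith [b1, b2, b3]
      _ = _ := by
          have hm1 : AEMeasurable (fun ξ : E n => ‖f ((Real.exp (-x) : ℂ) • ξ)‖) (sig n) := by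
            refine aem_of_cont hn (ContinuousOn.norm ?_)
            refine hf.continuousOn.comp hfc.continuousOn ?_
            intro ξ hξ
            have h1 : ‖ξ‖ ≤ 1 := by simpa using hξ
            rw [mem_ball_zero_iff, norm_smul, Complex.norm_real, Real.norm_eq_abs,
              abs_of_pos (Real.exp_pos _)]
            have h2 : Real.exp (-x) ≤ 1 := by rw [Real.exp_le_one_iff]; linarith
            have h3 := Real.exp_pos (-x)
            nlinarith [norm_nonneg ξ]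
          have hm2 : Measurable (fun ξ : E n => ‖rad f ((Real.exp (-x) : ℂ) • ξ)‖) :=
            ((measurable_rad n f).comp hfc.measurable).norm
          have hm3 : AEMeasurable (fun ξ : E n => ENNReal.ofReal (x *
              (‖rad f ((Real.exp (-x) : ℂ) • ξ)‖ ^ 2 *
              (‖f ((Real.exp (-x) : ℂ) • ξ)‖ ^ 2 + ε) ^ ((1:ℝ) / 2 - 1)))) (sig n) :=
            (((hm2.aemeasurable.pow_const 2).mul (((hm1.pow_const 2).add_const ε).pow_const
              _)).const_mul x).ennreal_ofReal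
          rw [lintegral_add_left' (hm3.const_mul 4), lintegral_const_mul'' _ hm3,
            lintegral_const_mul'' _ hm1.ennreal_ofReal]
      _ ≤ _ := by gcongr
  calc _ ≤ (c0 : ℝ≥0∞) * ∫⁻ x in Set.Ioi (0:ℝ), (4 * ∫⁻ ξ, ENNReal.ofReal (x *
          (‖rad f ((Real.exp (-x) : ℂ) • ξ)‖ ^ 2 *
          (‖f ((Real.exp (-x) : ℂ) • ξ)‖ ^ 2 + ε) ^ ((1:ℝ) / 2 - 1))) ∂(sig n) +
      ENNReal.ofReal (2 * N ^ 2 * Real.exp (-(2 * n * x))) * I) := by
        refine mul_le_mul_right ?_ _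
        exact setLIntegral_mono' measurableSet_Ioi hA
    _ ≤ (c0 : ℝ≥0∞) * (4 * I + ENNReal.ofReal (2 * N ^ 2) * I) := by
        refine mul_le_mul_right ?_ _
        have hmR : Measurable (fun x : ℝ => ENNReal.ofReal (2 * N ^ 2 *
            Real.exp (-(2 * n * x))) * I) := by fun_prop
        rw [lintegral_add_right _ hmR, lintegral_const_mul' _ _ (by norm_num),
          lintegral_mul_const _ (by fun_prop)]
        refine add_le_add (mul_le_mul_right (hHS.trans ?_) _) (mul_le_mul_left ?_ _)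
        · norm_num [hI]
        · have hn' : (1:ℝ) ≤ n := by exact_mod_cast hn
          have h1 : ∫⁻ x in Set.Ioi (0:ℝ), ENNReal.ofReal (2 * N ^ 2 *
              Real.exp (-(2 * n * x))) ≤ ∫⁻ x in Set.Ioi (0:ℝ), ENNReal.ofReal (2 * N ^ 2 *
              Real.exp (-x)) := by
            refine setLIntegral_mono' measurableSet_Ioi fun x hx => ?_
            have hx0 : (0:ℝ) < x := hx
            refine ENNReal.ofReal_le_ofReal ?_
            have : Real.exp (-(2 * n * x)) ≤ Real.exp (-x) := by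
              rw [Real.exp_le_exp]; nlinarith
            gcongr
          refine h1.trans ?_
          rw [← ofReal_integral_eq_lintegral_ofReal]
          · rw [integral_const_mul, integral_exp_neg_Ioi_zero, mul_one]
          · exact (integrableOn_exp_neg_Ioi 0).const_mul _
          · exact Filter.Eventually.of_forall fun x => by positivity
    _ = _ := by
        have h4 : ENNReal.ofReal 4 = 4 := by norm_num
        have e1 : ENNReal.ofReal (((c0 : ℝ) * 4 + (c0 : ℝ) * (2 * (N : ℝ) ^ 2)) * c1) =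
            (c0 * 4 + c0 * ENNReal.ofReal (2 * (N : ℝ) ^ 2)) * c1 := by
          rw [ENNReal.ofReal_mul (by positivity), ENNReal.ofReal_add (by positivity)
            (by positivity), ENNReal.ofReal_mul (by positivity) (p := (c0 : ℝ)) (q := 4),
            ENNReal.ofReal_mul (by positivity) (p := (c0 : ℝ)) (q := 2 * (N : ℝ) ^ 2),
            ENNReal.ofReal_coe_nnreal, ENNReal.ofReal_coe_nnreal, h4]
        rw [hRHS, e1]
        ring

end Pool.Agent.Helper19.RU
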