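import Mathlib
import Pool.Agent.Helper19.RU.Step
import Pool.Agent.Helper262.RU5
import Pool.Agent.Helper633.Geo2

set_option autoImplicit false

open MeasureTheory Complex
open scoped ENNReal NNReal

/-! Concrete objects of the operator part of docs 983 (block E) on the ball of E n. -/

namespace Pool.Agent.Helper19.RU

open Pool.Agent.HpBall

section

variable {n : ℕ} {hn : 1 ≤ n} {CL : ℝ} {b m : ℕ} {τ Λ : ℝ}
  (S : H262RU.Sel (Pool.Agent.Helper633.Geo.ts n hn) CL b m τ Λ)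

/-- the owner of w: the least index at which the maximum M w is attained -/
noncomputable def own (w : E n) : ℕ := by
  classical exact Nat.find (S.exists_M w)

/-- the box function g_i = A_i (h_i / (1 - <z, w_i>))^m, holomorphic in z -/
noncomputable def gg (i : ℕ) (z : E n) : ℂ :=
  (S.A i : ℂ) * (S.C.h i : ℂ) ^ m * ((1 - inner ℂ (S.C.w i) z) ^ m)⁻¹

/-- the divided kernel T(w, z) = s(w)^al (1-<z,w>)^{-(n+al)} / g_i(z), i = owner of w -/
noncomputable def TT (al : ℕ) (w z : E n) : ℂ :=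
  ((1 - ‖w‖ ^ 2 : ℝ) : ℂ) ^ al * ((S.A (own S w) : ℂ) * (S.C.h (own S w) : ℂ) ^ m)⁻¹ *
    (((1 - inner ℂ w z) ^ (n + al))⁻¹ * (1 - inner ℂ (S.C.w (own S w)) z) ^ m)

/-- Y_i(z) = ∫ over the boxes owned by i -/
noncomputable def YY (al : ℕ) (Φ : E n → ℂ) (i : ℕ) (z : E n) : ℂ :=
  ∫ w in Metric.ball (0 : E n) 1 ∩ {w | own S w = i}, Φ w * TT S al w z

/-- selected indices -/
noncomputable def sel : Finset ℕ := by
  classical exact (Finset.range S.C.N).filter (fun i => 0 < S.A i)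

/-- X_c -/
noncomputable def XX {Nc : ℕ} (al : ℕ) (col : ℕ → Fin Nc) (Φ : E n → ℂ) (c : Fin Nc) (z : E n) : ℂ :=
  ∑ i ∈ (sel S).filter (fun i => col i = c), YY S al Φ i z

/-- G_c -/
noncomputable def GG {Nc : ℕ} (col : ℕ → Fin Nc) (c : Fin Nc) (z : E n) : ℂ :=
  ∑ i ∈ (sel S).filter (fun i => col i = c), gg S i z

/-- Z_l = X_{c(l)} - Y_l -/
noncomputable def ZZ {Nc : ℕ} (al : ℕ) (col : ℕ → Fin Nc) (Φ : E n → ℂ) (l : ℕ) (z : E n) : ℂ :=
  ∑ i ∈ (sel S).filter (fun i => col i = col l ∧ i ≠ l), YY S al Φ i z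

/-- the error EF = - Σ_l g_l Z_l -/
noncomputable def EE {Nc : ℕ} (al : ℕ) (col : ℕ → Fin Nc) (Φ : E n → ℂ) (z : E n) : ℂ :=
  - ∑ l ∈ sel S, gg S l z * ZZ S al col Φ l z

/-- the conditions on the parameters (τ small, Λ large) used by the selection theorems -/
structure Par (T : H262RU.TS (E n)) (CL : ℝ) (b m : ℕ) (τ Λ : ℝ) : Prop where
  hCL : 0 ≤ CL
  hb : T.n + 1 ≤ b
  hbm : b + T.n + 2 ≤ m
  hτ : 0 < τ
  hτ1 : τ ≤ 1
  hΛ : 2 * 16 ^ m ≤ Λ
  hτ2 : 16 * 400 ^ b * H262RU.Sel.Cao T b * τ ≤ T.cσ * 2 ^ T.n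
  hτD : τ * H262RU.Sel.Dq T CL b ≤ 1/2

/-- admissible selections: points in the open ball, the origin is the first candidate -/
def Adm : Prop := (∀ i, i < S.C.N → ‖S.C.w i‖ < 1) ∧ 0 < S.C.N ∧ S.C.L 0 = 0 ∧ S.C.w 0 = 0

end

/-- **TARGET of block E.** For a selection S there is a colouring col such that (E1) the error
operator is small and (E2) the operators Φ ↦ X_c are bounded. -/
def EBlock (n : ℕ) (hn : 1 ≤ n) (CL : ℝ) (b m al : ℕ) (τ Λ : ℝ) (Nc : ℕ) (κ C : ℝ) : Prop :=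
  ∀ S : H262RU.Sel (Pool.Agent.Helper633.Geo.ts n hn) CL b m τ Λ, Adm S →
    ∃ col : ℕ → Fin Nc, ∀ Φ : E n → ℂ, Measurable Φ → energy S.a Φ < ⊤ →
      energy S.a (DD (n + al) (EE S al col Φ)) ≤ ENNReal.ofReal κ * energy S.a Φ ∧
      ∀ c, energy (fun _ => 1) (DD (n + al) (XX S al col Φ c)) ≤ ENNReal.ofReal C * energy S.a Φ

/-- **TARGET of block E, final form** -/
def EBlockProp (n : ℕ) (hn : 1 ≤ n) : Prop :=
  ∀ CL : ℝ, 0 < CL → ∃ (b m al : ℕ) (τ Λ : ℝ), 1 ≤ al ∧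
    Par (Pool.Agent.Helper633.Geo.ts n hn) CL b m τ Λ ∧
    ∀ κ : ℝ, 0 < κ → ∃ (Nc : ℕ) (C : ℝ), EBlock n hn CL b m al τ Λ Nc κ C

end Pool.Agent.Helper19.RU
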