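import Mathlib
import Pool.Agent.Helper19.RU.Op
import Pool.Agent.Helper19.RU.F4
import Pool.Agent.Helper19.RU.J6

set_option autoImplicit false

open MeasureTheory Complex
open scoped ENNReal NNReal

namespace Pool.Agent.Helper19.RU

open Pool.Agent.HpBall Pool.Agent.Helper633.Geo

section

variable {n : ℕ} {hn : 1 ≤ n} {CL : ℝ} {b m : ℕ} {τ Λ : ℝ}
  (S : H262RU.Sel (ts n hn) CL b m τ Λ)

lemma own_spec (w : E n) : own S w < S.C.N ∧ S.M w = S.A (own S w) * S.C.kp (own S w) w ^ m := by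
  unfold own
  exact Nat.find_spec (S.exists_M w)

lemma own_min (w : E n) {j : ℕ} (hj : j < own S w) :
    ¬ (j < S.C.N ∧ S.M w = S.A j * S.C.kp j w ^ m) := by
  unfold own at hj
  exact Nat.find_min (S.exists_M w) hj

lemma own_eq_iff (w : E n) (i : ℕ) : own S w = i ↔
    (i < S.C.N ∧ S.M w = S.A i * S.C.kp i w ^ m) ∧
      ∀ j < i, ¬ (j < S.C.N ∧ S.M w = S.A j * S.C.kp j w ^ m) := by
  unfold own
  exact Nat.find_eq_iff (S.exists_M w)

lemma range_ne (hN : 0 < S.C.N) : (Finset.range S.C.N).Nonempty := ⟨0, Finset.mem_range.2 hN⟩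

lemma M_eq_sup (w : E n) (hN : 0 < S.C.N) : S.M w =
    (Finset.range S.C.N).sup' (range_ne S hN) (fun j => S.A j * S.C.kp j w ^ m) := by
  apply le_antisymm
  · obtain ⟨j, hj, h⟩ := S.exists_M w
    rw [h]
    exact Finset.le_sup' (fun j => S.A j * S.C.kp j w ^ m) (Finset.mem_range.2 hj)
  · apply Finset.sup'_le
    intro j hj
    exact S.le_M (Finset.mem_range.1 hj) w

lemma M_meas (hN : 0 < S.C.N) : Measurable S.M := by
  have h : S.M = (Finset.range S.C.N).sup' (range_ne S hN)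
      (fun j => fun w => S.A j * S.C.kp j w ^ m) := by
    funext w
    rw [M_eq_sup S w hN]
    exact (Finset.sup'_apply (range_ne S hN) (fun j => fun w => S.A j * S.C.kp j w ^ m) w).symm
  rw [h]
  exact Finset.measurable_sup' _ fun j _ => ((S.C.kp_meas j).pow_const m).const_mul _

lemma own_meas (hN : 0 < S.C.N) (i : ℕ) : MeasurableSet {w | own S w = i} := by
  have hM := M_meas S hN
  have hk : ∀ j, Measurable (fun w => S.A j * S.C.kp j w ^ m) := fun j =>
    ((S.C.kp_meas j).pow_const m).const_mul _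
  have h : {w | own S w = i} = {w | i < S.C.N ∧ S.M w = S.A i * S.C.kp i w ^ m} ∩
      ⋂ j ∈ Finset.range i, {w | ¬ (j < S.C.N ∧ S.M w = S.A j * S.C.kp j w ^ m)} := by
    ext w
    simp only [Set.mem_ofPred_eq, Set.mem_inter_iff, Set.mem_iInter, Finset.mem_range]
    exact own_eq_iff S w i
  have hb : ∀ j, MeasurableSet {w | j < S.C.N ∧ S.M w = S.A j * S.C.kp j w ^ m} := by
    intro j
    by_cases hj : j < S.C.N
    · simp only [hj, true_and]
      exact measurableSet_eq_fun hM (hk j)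
    · simp [hj]
  rw [h]
  refine (hb i).inter ?_
  exact Finset.measurableSet_biInter _ fun j _ => (hb j).compl

lemma own_fun_meas (hN : 0 < S.C.N) : Measurable (own S) :=
  measurable_to_countable' fun i => own_meas S hN i

lemma own_A_pos (hΛ : 1 ≤ Λ) (w : E n) : 0 < S.A (own S w) := by
  have h1 := S.M_pos hΛ w
  rw [(own_spec S w).2] at h1
  rcases eq_or_lt_of_le (S.A_nonneg (own S w)) with h | h
  · rw [← h, zero_mul] at h1
    exact absurd h1 (lt_irrefl _)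
  · exact h

lemma mem_sel {i : ℕ} : i ∈ sel S ↔ i < S.C.N ∧ 0 < S.A i := by
  unfold sel; simp

lemma own_mem_sel (hΛ : 1 ≤ Λ) (w : E n) : own S w ∈ sel S :=
  (mem_sel S).2 ⟨(own_spec S w).1, own_A_pos S hΛ w⟩

/-- for points of the ball, kp is the concrete quantity h_i / |1 - <z,w_i>| -/
lemma kp_eq (hA : Adm S) {i : ℕ} (hi : i < S.C.N) {z : E n} (hz : ‖z‖ ≤ 1) :
    S.C.kp i z = S.C.h i / ‖1 - inner ℂ (S.C.w i) z‖ := by
  unfold H262RU.Cand.kp H262RU.TS.kap
  rw [S.C.s_h hi, ts_d n hn z (S.C.w i) hz (hA.1 i hi).le]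
  congr 1
  have : inner ℂ z (S.C.w i) = (starRingEnd ℂ) (inner ℂ (S.C.w i) z) := (inner_conj_symm _ _).symm
  rw [this, ← Complex.norm_conj (1 - inner ℂ (S.C.w i) z)]
  simp

lemma one_sub_ne {w z : E n} (hw : ‖w‖ < 1) (hz : ‖z‖ ≤ 1) : (1 - inner ℂ w z : ℂ) ≠ 0 := by
  intro h
  have h1 : inner ℂ w z = (1 : ℂ) := by linear_combination -h
  have h2 := norm_inner_le_norm (𝕜 := ℂ) w z
  rw [h1, norm_one] at h2
  nlinarith [norm_nonneg w, norm_nonneg z]

lemma one_sub_ne' {w z : E n} (hw : ‖w‖ ≤ 1) (hz : ‖z‖ < 1) : (1 - inner ℂ w z : ℂ) ≠ 0 := by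
  intro h
  have h1 : inner ℂ w z = (1 : ℂ) := by linear_combination -h
  have h2 := norm_inner_le_norm (𝕜 := ℂ) w z
  rw [h1, norm_one] at h2
  nlinarith [norm_nonneg w, norm_nonneg z]

lemma norm_gg (hA : Adm S) {i : ℕ} (hi : i < S.C.N) {z : E n} (hz : ‖z‖ ≤ 1) :
    ‖gg S i z‖ = S.A i * S.C.kp i z ^ m := by
  unfold gg
  rw [kp_eq S hA hi hz, norm_mul, norm_mul, norm_inv, norm_pow, norm_pow, Complex.norm_real,
    Complex.norm_real, Real.norm_eq_abs, Real.norm_eq_abs, abs_of_nonneg (S.A_nonneg i),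
    abs_of_pos (S.C.h_pos i), div_pow]
  ring

lemma gg_diff (hA : Adm S) {i : ℕ} (hi : i < S.C.N) :
    DifferentiableOn ℂ (gg S i) (Metric.ball 0 1) := by
  unfold gg
  refine DifferentiableOn.const_mul ?_ _
  refine DifferentiableOn.inv ?_ ?_
  · refine DifferentiableOn.pow ?_ m
    refine (differentiableOn_const _).sub ?_
    exact (innerSL ℂ (S.C.w i)).differentiable.differentiableOn
  · intro z hz
    have hz1 : ‖z‖ < 1 := by simpa using hz
    exact pow_ne_zero _ (one_sub_ne (hA.1 i hi) hz1.le)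

/-- Σ_l g_l T(w,·) telescopes -/
lemma gg_TT (hA : Adm S) (hΛ : 1 ≤ Λ) (al : ℕ) (w z : E n) (hz : ‖z‖ < 1) :
    gg S (own S w) z * TT S al w z =
      ((1 - ‖w‖ ^ 2 : ℝ) : ℂ) ^ al * ((1 - inner ℂ w z) ^ (n + al))⁻¹ := by
  have hi := (own_spec S w).1
  have h1 : (S.A (own S w) : ℂ) ≠ 0 := by exact_mod_cast (own_A_pos S hΛ w).ne'
  have h2 : (S.C.h (own S w) : ℂ) ≠ 0 := by exact_mod_cast (S.C.h_pos _).ne'
  have h3 : (1 - inner ℂ (S.C.w (own S w)) z : ℂ) ≠ 0 := one_sub_ne (hA.1 _ hi) hz.le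
  unfold gg TT
  field_simp

end

end Pool.Agent.Helper19.RU
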