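import Mathlib
import Pool.Agent.Helper19.RU.StepA

set_option autoImplicit false

open MeasureTheory Complex
open scoped ENNReal NNReal

namespace Pool.Agent.Helper19.RU

open Pool.Agent.HpBall Pool.Agent.Helper633.Geo

lemma energy_one_le {n : ℕ} (a : E n → ℝ) (B : ℝ) (ha : ∀ z, 0 < a z) (hB : ∀ z, a z ≤ B)
    (Φ : E n → ℂ) : energy (fun _ => 1) Φ ≤ ENNReal.ofReal (B ^ 2) * energy a Φ := by
  unfold energy
  rw [← lintegral_const_mul' _ _ ENNReal.ofReal_ne_top]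
  refine setLIntegral_mono' Metric.isOpen_ball.measurableSet fun w hw => ?_
  have hw1 : ‖w‖ < 1 := by simpa using hw
  rw [← ENNReal.ofReal_mul (by positivity)]
  refine ENNReal.ofReal_le_ofReal ?_
  have h0 : 0 ≤ 1 - ‖w‖ ^ 2 := by nlinarith [norm_nonneg w]
  have h1 : 1 ≤ B ^ 2 * (a w ^ 2)⁻¹ := by
    rw [← div_eq_mul_inv, le_div_iff₀ (pow_pos (ha w) 2), one_mul]
    exact pow_le_pow_left₀ (ha w).le (hB w) 2
  have h2 : 0 ≤ ‖Φ w‖ ^ 2 * (1 - ‖w‖ ^ 2) := by positivity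
  simp only [one_pow, inv_one, mul_one]
  calc ‖Φ w‖ ^ 2 * (1 - ‖w‖ ^ 2) = 1 * (‖Φ w‖ ^ 2 * (1 - ‖w‖ ^ 2)) := (one_mul _).symm
    _ ≤ (B ^ 2 * (a w ^ 2)⁻¹) * (‖Φ w‖ ^ 2 * (1 - ‖w‖ ^ 2)) := by gcongr
    _ = _ := by ring

lemma int_of_energy {n : ℕ} (Φ : E n → ℂ) (hΦ : AEStronglyMeasurable Φ
    ((volume : Measure (E n)).restrict (Metric.ball 0 1)))
    (hen : energy (fun _ => 1) Φ < ⊤) (al : ℕ) (hal : 1 ≤ al) :
    Integrable (fun w => Φ w * ((1 - ‖w‖ ^ 2 : ℝ) : ℂ) ^ al)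
      ((volume : Measure (E n)).restrict (Metric.ball 0 1)) := by
  have hfm : IsFiniteMeasure ((volume : Measure (E n)).restrict (Metric.ball 0 1)) := ⟨by
    rw [Measure.restrict_apply_univ]; exact measure_ball_lt_top⟩
  have hae : ∀ᵐ w ∂((volume : Measure (E n)).restrict (Metric.ball 0 1)), ‖w‖ < 1 := by
    filter_upwards [ae_restrict_mem Metric.isOpen_ball.measurableSet] with w hw
    simpa using hw
  refine (repro_abs _ hae Φ hΦ al (n + al) hal (by omega) (by rw [← energy_one]; exact hen) 0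
    (by simp) (fun k => ((k + (n + al - 1)).choose (n + al - 1) : ℂ) *
      ∫ w in Metric.ball (0 : E n) 1, Φ w * ((1 - ‖w‖ ^ 2 : ℝ) : ℂ) ^ al *
        (inner ℂ w (0 : E n) : ℂ) ^ k)
    1 (fun k => by rw [one_mul]) _ (hasSum_single 0 ?_)).1
  intro k hk
  simp [hk]

section

variable {n : ℕ} {hn : 1 ≤ n} {CL : ℝ} {b m : ℕ} {τ Λ : ℝ}
  (S : H262RU.Sel (ts n hn) CL b m τ Λ)

/-- the part of the ball owned by i -/
def Rg (i : ℕ) : Set (E n) := Metric.ball (0 : E n) 1 ∩ {w | own S w = i}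

lemma Rg_meas (hN : 0 < S.C.N) (i : ℕ) : MeasurableSet (Rg S i) :=
  Metric.isOpen_ball.measurableSet.inter (own_meas S hN i)

lemma YY_eq (al : ℕ) (Φ : E n → ℂ) (hN : 0 < S.C.N) (i : ℕ) :
    YY S al Φ i = fun z => ∫ w, (Φ w * ((1 - ‖w‖ ^ 2 : ℝ) : ℂ) ^ al *
      ((S.A i : ℂ) * (S.C.h i : ℂ) ^ m)⁻¹) * kq (n + al) m w (S.C.w i) z
        ∂((volume : Measure (E n)).restrict (Rg S i)) := by
  funext z
  unfold YY
  refine setIntegral_congr_fun (Rg_meas S hN i) fun w hw => ?_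
  have hw2 : own S w = i := hw.2
  simp only [TT, kq, hw2]
  ring

variable (hN : 0 < S.C.N)

lemma YY_int (al : ℕ) (hal : 1 ≤ al) (Φ : E n → ℂ) (hΦ : AEStronglyMeasurable Φ
    ((volume : Measure (E n)).restrict (Metric.ball 0 1)))
    (hen : energy (fun _ => 1) Φ < ⊤) (i : ℕ) :
    Integrable (fun w => Φ w * ((1 - ‖w‖ ^ 2 : ℝ) : ℂ) ^ al *
      ((S.A i : ℂ) * (S.C.h i : ℂ) ^ m)⁻¹) ((volume : Measure (E n)).restrict (Rg S i)) := by
  have h := int_of_energy Φ hΦ hen al hal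
  have h2 := h.mono_measure (Measure.restrict_mono (μ := (volume : Measure (E n)))
    (Set.inter_subset_left : Rg S i ⊆ Metric.ball (0 : E n) 1) le_rfl)
  exact h2.mul_const _

lemma YY_diff (hA : Adm S) (al : ℕ) (hal : 1 ≤ al) (Φ : E n → ℂ) (hΦ : AEStronglyMeasurable Φ
    ((volume : Measure (E n)).restrict (Metric.ball 0 1)))
    (hen : energy (fun _ => 1) Φ < ⊤) {i : ℕ} (hi : i < S.C.N) :
    DifferentiableOn ℂ (YY S al Φ i) (Metric.ball 0 1) ∧
    ∀ M : ℕ, ∀ z ∈ Metric.ball (0 : E n) 1, DD M (YY S al Φ i) z =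
      ∫ w, (Φ w * ((1 - ‖w‖ ^ 2 : ℝ) : ℂ) ^ al *
      ((S.A i : ℂ) * (S.C.h i : ℂ) ^ m)⁻¹) * dkq M (n + al) m w (S.C.w i) z
        ∂((volume : Measure (E n)).restrict (Rg S i)) := by
  have hae : ∀ᵐ w ∂((volume : Measure (E n)).restrict (Rg S i)), ‖w‖ ≤ 1 := by
    filter_upwards [ae_restrict_mem (Rg_meas S hA.2.1 i)] with w hw
    have : w ∈ Metric.ball (0 : E n) 1 := hw.1
    exact (by simpa using this : ‖w‖ < 1).le
  rw [YY_eq S al Φ hA.2.1 i]
  refine ⟨(diff_int _ hae _ (YY_int S al hal Φ hΦ hen i) (fun _ => S.C.w i) measurable_const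
    (fun _ => (hA.1 i hi).le) 0 (n + al) m).1, fun M z hz => ?_⟩
  exact (diff_int _ hae _ (YY_int S al hal Φ hΦ hen i) (fun _ => S.C.w i) measurable_const
    (fun _ => (hA.1 i hi).le) M (n + al) m).2 z hz

lemma XX_diff {Nc : ℕ} (hA : Adm S) (al : ℕ) (hal : 1 ≤ al) (col : ℕ → Fin Nc) (Φ : E n → ℂ)
    (hΦ : AEStronglyMeasurable Φ ((volume : Measure (E n)).restrict (Metric.ball 0 1)))
    (hen : energy (fun _ => 1) Φ < ⊤) (c : Fin Nc) :
    DifferentiableOn ℂ (XX S al col Φ c) (Metric.ball 0 1) := by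
  unfold XX
  refine DifferentiableOn.fun_sum fun i hi => ?_
  exact (YY_diff S hA al hal Φ hΦ hen ((mem_sel S).1 (Finset.mem_filter.1 hi).1).1).1

lemma ZZ_diff {Nc : ℕ} (hA : Adm S) (al : ℕ) (hal : 1 ≤ al) (col : ℕ → Fin Nc) (Φ : E n → ℂ)
    (hΦ : AEStronglyMeasurable Φ ((volume : Measure (E n)).restrict (Metric.ball 0 1)))
    (hen : energy (fun _ => 1) Φ < ⊤) (l : ℕ) :
    DifferentiableOn ℂ (ZZ S al col Φ l) (Metric.ball 0 1) := by
  unfold ZZ
  refine DifferentiableOn.fun_sum fun i hi => ?_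
  exact (YY_diff S hA al hal Φ hΦ hen ((mem_sel S).1 (Finset.mem_filter.1 hi).1).1).1

lemma GG_diff {Nc : ℕ} (hA : Adm S) (col : ℕ → Fin Nc) (c : Fin Nc) :
    DifferentiableOn ℂ (GG S col c) (Metric.ball 0 1) := by
  unfold GG
  refine DifferentiableOn.fun_sum fun i hi => ?_
  exact gg_diff S hA ((mem_sel S).1 (Finset.mem_filter.1 hi).1).1

lemma EE_diff {Nc : ℕ} (hA : Adm S) (al : ℕ) (hal : 1 ≤ al) (col : ℕ → Fin Nc) (Φ : E n → ℂ)
    (hΦ : AEStronglyMeasurable Φ ((volume : Measure (E n)).restrict (Metric.ball 0 1)))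
    (hen : energy (fun _ => 1) Φ < ⊤) :
    DifferentiableOn ℂ (EE S al col Φ) (Metric.ball 0 1) := by
  unfold EE
  refine DifferentiableOn.neg ?_
  refine DifferentiableOn.fun_sum fun l hl => ?_
  exact (gg_diff S hA ((mem_sel S).1 hl).1).mul (ZZ_diff S hA al hal col Φ hΦ hen l)

/-- Synth Φ = Σ_l g_l Y_l -/
lemma synth_eq (hA : Adm S) (hΛ : 1 ≤ Λ) (al : ℕ) (hal : 1 ≤ al) (Φ : E n → ℂ)
    (hΦ : AEStronglyMeasurable Φ ((volume : Measure (E n)).restrict (Metric.ball 0 1)))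
    (hen : energy (fun _ => 1) Φ < ⊤) (z : E n) (hz : ‖z‖ < 1) :
    synth n al Φ z = ∑ l ∈ sel S, gg S l z * YY S al Φ l z := by
  have hcover : Metric.ball (0 : E n) 1 = ⋃ l ∈ sel S, Rg S l := by
    ext w
    simp only [Set.mem_iUnion, exists_prop]
    constructor
    · intro hw
      exact ⟨own S w, own_mem_sel S hΛ w, hw, rfl⟩
    · rintro ⟨l, _, hw⟩
      exact hw.1
  have hint := int_of_energy Φ hΦ hen al hal
  have hker : Integrable (fun w => Φ w * ((1 - ‖w‖ ^ 2 : ℝ) : ℂ) ^ al *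
      ((1 - inner ℂ w z) ^ (n + al))⁻¹) ((volume : Measure (E n)).restrict (Metric.ball 0 1)) := by
    refine hint.mul_bdd (c := ((1 - ‖z‖) ^ (n + al))⁻¹) ?_ ?_
    · refine Measurable.aestronglyMeasurable ?_
      have : Measurable (fun w : E n => (1 - inner ℂ w z : ℂ)) := by fun_prop
      exact (this.pow_const _).inv
    · filter_upwards [ae_restrict_mem Metric.isOpen_ball.measurableSet] with w hw
      have hw1 : ‖w‖ < 1 := by simpa using hw
      rw [norm_inv, norm_pow]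
      have h1 : 1 - ‖z‖ ≤ ‖1 - inner ℂ w z‖ := by
        have h2 := norm_sub_norm_le (1 : ℂ) (inner ℂ w z)
        have h3 := norm_inner_le_norm (𝕜 := ℂ) w z
        rw [norm_one] at h2
        nlinarith [norm_nonneg w, norm_nonneg z]
      have h0 : 0 < 1 - ‖z‖ := by linarith
      gcongr
  unfold synth
  rw [hcover, integral_biUnion_finset]
  · refine Finset.sum_congr rfl fun l _ => ?_
    unfold YY
    rw [← integral_const_mul]
    refine setIntegral_congr_fun (Rg_meas S hA.2.1 l) fun w hw => ?_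
    have hw2 : own S w = l := hw.2
    have h := gg_TT S hA hΛ al w z hz
    rw [hw2] at h
    rw [mul_left_comm, h]
    ring
  · intro l _
    exact Rg_meas S hA.2.1 l
  · intro l _ l' _ hne
    refine Set.disjoint_left.2 fun w hw hw' => hne ?_
    rw [← hw.2, ← hw'.2]
  · intro l _
    refine IntegrableOn.mono_set (t := Rg S l) ?_ le_rfl
    exact hker.mono_measure (Measure.restrict_mono Set.inter_subset_left le_rfl)

/-- the splitting Synth Φ = Σ_c G_c X_c + E -/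
lemma synth_split {Nc : ℕ} (hA : Adm S) (hΛ : 1 ≤ Λ) (al : ℕ) (hal : 1 ≤ al) (col : ℕ → Fin Nc)
    (Φ : E n → ℂ)
    (hΦ : AEStronglyMeasurable Φ ((volume : Measure (E n)).restrict (Metric.ball 0 1)))
    (hen : energy (fun _ => 1) Φ < ⊤) (z : E n) (hz : ‖z‖ < 1) :
    synth n al Φ z = ∑ c, GG S col c z * XX S al col Φ c z + EE S al col Φ z := by
  rw [synth_eq S hA hΛ al hal Φ hΦ hen z hz]
  have h1 : ∑ c, GG S col c z * XX S al col Φ c z =
      ∑ l ∈ sel S, gg S l z * ∑ i ∈ (sel S).filter (fun i => col i = col l), YY S al Φ i z := by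
    unfold GG XX
    simp_rw [Finset.sum_mul]
    rw [← Finset.sum_fiberwise (sel S) col (fun l => gg S l z *
      ∑ i ∈ (sel S).filter (fun i => col i = col l), YY S al Φ i z)]
    refine Finset.sum_congr rfl fun c _ => Finset.sum_congr rfl fun l hl => ?_
    rw [(Finset.mem_filter.1 hl).2]
  have h2 : ∀ l ∈ sel S, ∑ i ∈ (sel S).filter (fun i => col i = col l), YY S al Φ i z =
      YY S al Φ l z + ZZ S al col Φ l z := by
    intro l hl
    unfold ZZ
    have hmem : l ∈ (sel S).filter (fun i => col i = col l) := Finset.mem_filter.2 ⟨hl, rfl⟩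
    rw [← Finset.add_sum_erase _ _ hmem]
    congr 1
    refine Finset.sum_congr ?_ fun _ _ => rfl
    ext i
    simp only [Finset.mem_erase, Finset.mem_filter]
    tauto
  rw [h1]
  unfold EE
  rw [← sub_eq_add_neg, ← Finset.sum_sub_distrib]
  refine Finset.sum_congr rfl fun l hl => ?_
  rw [h2 l hl]
  ring

end

end Pool.Agent.Helper19.RU
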