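import Mathlib
import Pool.Agent.Helper19.RU.StepB
import Pool.Agent.Helper262.RU5

set_option autoImplicit false

open MeasureTheory Complex
open scoped ENNReal NNReal

namespace Pool.Agent.Helper19.RU

open Pool.Agent.HpBall Pool.Agent.Helper633.Geo

section

variable {n : ℕ} {hn : 1 ≤ n} {CL : ℝ} {b m : ℕ} {τ Λ : ℝ}
  (S : H262RU.Sel (ts n hn) CL b m τ Λ)

lemma sigS_lint (f : E n → ℝ≥0∞) (hf : Measurable f) :
    ∫⁻ ζ, f ζ ∂(sigS n) = ∫⁻ ζ, f (ζ : E n) ∂(sg n) := by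
  unfold sigS sg
  exact lintegral_map hf measurable_subtype_coe

lemma M_le_a (hbm : b ≤ m) (z : E n) : S.M z ≤ 2 ^ (m - b) * S.a z := by
  obtain ⟨j, hj, h⟩ := S.exists_M z
  rw [h]
  have h1 := S.le_a hj z
  have hk0 := S.C.kp_nonneg j z
  have hk2 := S.C.kp_le_two j z
  have hA := S.A_nonneg j
  have h2 : S.C.kp j z ^ (m - b) ≤ 2 ^ (m - b) := pow_le_pow_left₀ hk0 hk2 _
  calc S.A j * S.C.kp j z ^ m = S.C.kp j z ^ (m - b) * (S.A j * S.C.kp j z ^ b) := by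
        rw [mul_left_comm, ← pow_add, Nat.sub_add_cancel hbm]
    _ ≤ 2 ^ (m - b) * (S.A j * S.C.kp j z ^ b) := by gcongr
    _ ≤ 2 ^ (m - b) * S.a z := by gcongr

lemma a_pos (hbm : b ≤ m) (hΛ : 1 ≤ Λ) (z : E n) : 0 < S.a z := by
  have h1 := S.M_pos hΛ z
  have h2 := M_le_a S hbm z
  have h3 : (0:ℝ) < 2 ^ (m - b) := by positivity
  by_contra h
  push Not at h
  nlinarith

/-- A0 ≤ K a on the region of the candidates -/
lemma A0_le_a (hbm : b ≤ m) (hΛ : 1 ≤ Λ) {z : E n} (hz : (1/2:ℝ) ^ S.C.Lmax ≤ (ts n hn).s z) :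
    S.u.A0 b z ≤ 52 ^ b * 2 ^ n * (Λ * (28 ^ m * (2 ^ (m - b)))) * S.a z := by
  have hs0 : 0 < (ts n hn).s z := lt_of_lt_of_le (by positivity) hz
  obtain ⟨l, hl1, hl2⟩ := H262RU.exists_level hs0 ((ts n hn).s_le_one z)
  have hlmax : l ≤ S.C.Lmax := by
    by_contra h
    push Not at h
    have h1 : (1/2:ℝ) ^ l < (1/2:ℝ) ^ S.C.Lmax :=
      pow_lt_pow_right_of_lt_one₀ (by norm_num) (by norm_num) h
    linarith
  obtain ⟨k, hkN, hkl, hkd⟩ := S.C.cover z l hlmax hl1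
  have hsk : (ts n hn).s (S.C.w k) = (1/2:ℝ) ^ l := by rw [S.C.s_eq k hkN, hkl]
  have h1 := S.u.A0_near (b := b) (z := z) (v := S.C.w k) hs0 (by rw [hsk]; exact hl1)
    (by rw [hsk]; exact hl2.le) (by rw [hsk]; exact hkd)
  have h2 : S.u.A0 b (S.C.w k) ≤ Λ * S.M (S.C.w k) :=
    (le_max_left _ _).trans (S.t_le_M hΛ hkN)
  have h3 := S.M_comp (z := z) (v := S.C.w k) (ρ := 3) (by norm_num) (by rw [hsk]; exact hkd)
  have h4 := M_le_a S hbm z
  have hn' : (ts n hn).n = n := rfl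
  rw [hn'] at h1
  have e28 : (4 * (2 * (3:ℝ) + 1)) = 28 := by norm_num
  rw [e28] at h3
  have hΛ0 : 0 ≤ Λ := by linarith
  calc S.u.A0 b z ≤ 52 ^ b * 2 ^ n * S.u.A0 b (S.C.w k) := h1
    _ ≤ 52 ^ b * 2 ^ n * (Λ * (28 ^ m * (2 ^ (m - b) * S.a z))) := by
        gcongr
        refine h2.trans ?_
        gcongr
        exact h3.trans (by gcongr)
    _ = _ := by ring

/-- lower bound of a, for densities u ≥ 1 -/
lemma a_lower (hA : Adm S) (hu : ∀ ζ, 1 ≤ S.u.u ζ) (z : E n) :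
    (sigS n).real Set.univ ≤ S.a z := by
  have hw0 := hA.2.2.2
  have hN := hA.2.1
  have hkp : S.C.kp 0 z = 1 := by
    unfold H262RU.Cand.kp H262RU.TS.kap
    rw [hw0]
    have h1 : (ts n hn).s (0 : E n) = 1 := by rw [ts_s n hn 0 (by simp)]; simp
    have h2 : (ts n hn).d z (0 : E n) = 1 := by
      change dr z 0 = 1
      unfold dr d
      rw [ret_of_le (0 : E n) (by simp)]
      simp
    rw [h1, h2]; norm_num
  have hA0 : S.A 0 = S.t 0 := S.A_sel (fun j hj => absurd hj (by omega)) hN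
  have h1 := S.le_a hN z
  rw [hkp, one_pow, mul_one, hA0] at h1
  refine le_trans ?_ h1
  refine le_trans ?_ (le_max_left _ _)
  unfold H262RU.Dens.A0
  have hs : (ts n hn).s (S.C.w 0) = 1 := by
    rw [hw0, ts_s n hn 0 (by simp)]; simp
  rw [hs, one_pow, div_one]
  have hk1 : ∀ ζ, (ts n hn).kap (S.C.w 0) ζ = 1 := by
    intro ζ
    unfold H262RU.TS.kap
    rw [hs, hw0]
    have h2 : (ts n hn).d ζ (0 : E n) = 1 := by
      change dr ζ 0 = 1
      unfold dr d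
      rw [ret_of_le (0 : E n) (by simp)]
      simp
    rw [h2]; norm_num
  simp only [hk1, one_pow, mul_one]
  have h3 : ∫ _ζ : E n, (1:ℝ) ∂(ts n hn).σ ≤ ∫ ζ, S.u.u ζ ∂(ts n hn).σ := by
    refine integral_mono (integrable_const _) ?_ hu
    exact (ts n hn).integ S.u.meas (C := S.u.U) fun x => by
      rw [abs_of_nonneg (S.u.nonneg x)]; exact S.u.le x
  refine le_trans (le_of_eq ?_) h3
  rw [integral_const, smul_eq_mul, mul_one]
  rfl

/-- H² bound for G_c -/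
lemma GG_bound {Nc : ℕ} (hA : Adm S) (hbm : b ≤ m) (col : ℕ → Fin Nc) (c : Fin Nc)
    {r : ℝ} (hr0 : 0 ≤ r) (hr1 : r < 1) {ζ : E n} (hζ : ‖ζ‖ = 1) :
    ‖GG S col c ((r : ℂ) • ζ)‖ ≤ 2 ^ m * 2 ^ (m - b) * S.a ζ := by
  have hz : ‖(r : ℂ) • ζ‖ ≤ 1 := by
    rw [norm_smul, hζ, Complex.norm_real, Real.norm_eq_abs, abs_of_nonneg hr0, mul_one]
    exact hr1.le
  have hterm : ∀ i ∈ sel S, ‖gg S i ((r : ℂ) • ζ)‖ ≤
      2 ^ m * 2 ^ (m - b) * (S.A i * S.C.kp i ζ ^ b) := by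
    intro i hi
    have hiN := ((mem_sel S).1 hi).1
    rw [norm_gg S hA hiN hz]
    have hk : S.C.kp i ((r : ℂ) • ζ) ≤ 2 * S.C.kp i ζ := by
      rw [kp_eq S hA hiN hz, kp_eq S hA hiN hζ.le]
      have h1 : (0:ℝ) < ‖1 - inner ℂ (S.C.w i) ζ‖ :=
        norm_pos_iff.2 (one_sub_ne (hA.1 i hiN) hζ.le)
      have h2 : (0:ℝ) < ‖1 - inner ℂ (S.C.w i) ((r : ℂ) • ζ)‖ :=
        norm_pos_iff.2 (one_sub_ne (hA.1 i hiN) hz)
      rw [mul_div_assoc', div_le_div_iff₀ h2 h1]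
      have hh := S.C.h_pos i
      have hkey : ‖1 - inner ℂ (S.C.w i) ζ‖ ≤ 2 * ‖1 - inner ℂ (S.C.w i) ((r : ℂ) • ζ)‖ := by
        rw [inner_smul_right]
        set t : ℂ := inner ℂ (S.C.w i) ζ with ht
        have ht1 : ‖t‖ ≤ 1 := by
          have := norm_inner_le_norm (𝕜 := ℂ) (S.C.w i) ζ
          rw [hζ, mul_one] at this
          exact this.trans (hA.1 i hiN).le
        have e1 : ‖1 - t‖ ≤ ‖1 - (r:ℂ) * t‖ + (1 - r) := by
          have : (1 - t : ℂ) = (1 - (r:ℂ) * t) + (-((1 - r : ℝ) : ℂ) * t) := by push_cast; ring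
          rw [this]
          refine (norm_add_le _ _).trans ?_
          rw [norm_mul, norm_neg, Complex.norm_real, Real.norm_eq_abs, abs_of_nonneg (by linarith)]
          nlinarith [norm_nonneg t]
        have e2 : 1 - r ≤ ‖1 - (r:ℂ) * t‖ := by
          have h3 := norm_sub_norm_le (1 : ℂ) ((r:ℂ) * t)
          rw [norm_one, norm_mul, Complex.norm_real, Real.norm_eq_abs, abs_of_nonneg hr0] at h3
          nlinarith [norm_nonneg t]
        linarith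
      nlinarith
    have hk0 := S.C.kp_nonneg i ((r : ℂ) • ζ)
    have hk1 := S.C.kp_nonneg i ζ
    have hk2 := S.C.kp_le_two i ζ
    have hAi := S.A_nonneg i
    calc S.A i * S.C.kp i ((r : ℂ) • ζ) ^ m ≤ S.A i * (2 * S.C.kp i ζ) ^ m := by gcongr
      _ = 2 ^ m * (S.A i * (S.C.kp i ζ ^ (m - b) * S.C.kp i ζ ^ b)) := by
          rw [← pow_add, Nat.sub_add_cancel hbm, mul_pow]; ring
      _ ≤ 2 ^ m * (S.A i * (2 ^ (m - b) * S.C.kp i ζ ^ b)) := by gcongr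
      _ = _ := by ring
  unfold GG
  refine (norm_sum_le _ _).trans ?_
  calc ∑ i ∈ (sel S).filter (fun i => col i = c), ‖gg S i ((r : ℂ) • ζ)‖
      ≤ ∑ i ∈ (sel S).filter (fun i => col i = c),
          2 ^ m * 2 ^ (m - b) * (S.A i * S.C.kp i ζ ^ b) :=
        Finset.sum_le_sum fun i hi => hterm i (Finset.mem_filter.1 hi).1
    _ ≤ ∑ i ∈ Finset.range S.C.N, 2 ^ m * 2 ^ (m - b) * (S.A i * S.C.kp i ζ ^ b) := by
        refine Finset.sum_le_sum_of_subset_of_nonneg ?_ ?_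
        · intro i hi
          exact Finset.mem_range.2 ((mem_sel S).1 (Finset.mem_filter.1 hi).1).1
        · intro i _ _
          have := S.A_nonneg i
          have := S.C.kp_nonneg i ζ
          positivity
    _ = _ := by
        rw [← Finset.mul_sum]; rfl

end

end Pool.Agent.Helper19.RU
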