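import Mathlib
import Pool.Agent.Helper19.RU.StepC
import Pool.Agent.Helper633.SubMean

set_option autoImplicit false

open MeasureTheory Complex
open scoped ENNReal NNReal

namespace Pool.Agent.Helper19.RU

open Pool.Agent.HpBall Pool.Agent.Helper633.Geo

lemma sigS_real_lint {n : ℕ} {hn : 1 ≤ n} (b : ℕ) (u : H262RU.Dens (ts n hn)) (z : E n) :
    ENNReal.ofReal (∫ ζ, u.u ζ * (ts n hn).kap z ζ ^ b ∂(ts n hn).σ) =
      ∫⁻ ζ, ENNReal.ofReal (u.u (ζ : E n) * (ts n hn).kap z (ζ : E n) ^ b) ∂(sg n) := by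
  rw [ofReal_integral_eq_lintegral_ofReal (u.integrable_mul b z)]
  · change ∫⁻ ζ, ENNReal.ofReal (u.u ζ * (ts n hn).kap z ζ ^ b) ∂(sigS n) = _
    rw [sigS_lint]
    exact (u.meas.mul (((ts n hn).kap_meas z).pow_const b)).ennreal_ofReal
  · exact Filter.Eventually.of_forall fun x =>
      mul_nonneg (u.nonneg x) (pow_nonneg (H262RU.TS.kap_nonneg _ _) _)

/-- domination of |f|^{1/2} + 1 by A0 -/
lemma sub_A0 (n : ℕ) (hn : 1 ≤ n) (hn2 : 2 ≤ n) (b : ℕ) : ∃ C : ℝ, 0 < C ∧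
    ∀ (R : ℝ) (f : E n → ℂ), 1 < R → DifferentiableOn ℂ f (Metric.ball 0 R) →
      ∀ u : H262RU.Dens (ts n hn), (∀ ζ, ‖ζ‖ = 1 → u.u ζ = ‖f ζ‖ ^ (1/2 : ℝ) + 1) →
        ∀ z : E n, ‖z‖ < 1 → ‖f z‖ ^ (1/2 : ℝ) + 1 ≤ C * u.A0 b z := by
  obtain ⟨k, rfl⟩ : ∃ k, n = k + 2 := ⟨n - 2, by omega⟩
  obtain ⟨C, hC, hsub⟩ := Pool.Agent.Helper633.SubMean.submean k (1/2) (by norm_num)
  set T := ts (k + 2) hn with hT
  have hcσ := T.cσ_pos
  refine ⟨C * 2 ^ b + 2 ^ b / T.cσ, by positivity, ?_⟩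
  intro R f hR hf u hu z hz
  have hsz : T.s z = 1 - ‖z‖ ^ 2 := ts_s _ hn z hz.le
  have hs0 : 0 < T.s z := by rw [hsz]; nlinarith [norm_nonneg z]
  set I : ℝ := ∫ ζ, u.u ζ * T.kap z ζ ^ b ∂T.σ with hI
  have hA0 : u.A0 b z = I / T.s z ^ (k + 2) := rfl
  have hI0 : 0 ≤ I := integral_nonneg fun x =>
    mul_nonneg (u.nonneg x) (pow_nonneg (H262RU.TS.kap_nonneg _ _) _)
  have hIl : ENNReal.ofReal I = ∫⁻ ζ, ENNReal.ofReal (u.u (ζ : E (k + 2)) *
      T.kap z (ζ : E (k + 2)) ^ b) ∂(sg (k + 2)) := sigS_real_lint b u z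
  have hkap : ∀ ζ : Metric.sphere (0 : E (k + 2)) 1,
      T.kap z (ζ : E (k + 2)) = (1 - ‖z‖ ^ 2) / ‖1 - inner ℂ z (ζ : E (k + 2))‖ := by
    intro ζ
    have hζ : ‖(ζ : E (k + 2))‖ = 1 := by simp
    unfold H262RU.TS.kap
    rw [hsz, T.d_symm, ts_d _ hn z ζ hz.le hζ.le]
  -- first part
  have h1 : ‖f z‖ ^ (1/2 : ℝ) ≤ C * 2 ^ b * u.A0 b z := by
    have h := hsub f R hR hf z (by simpa using hz)
    have h2 : ∫⁻ ζ in {ζ : Metric.sphere (0 : E (k + 2)) 1 |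
        ‖1 - inner ℂ z (ζ : E (k + 2))‖ ≤ 2 * (1 - ‖z‖ ^ 2)}, ENNReal.ofReal (‖f ζ‖ ^ (1/2 : ℝ))
          ∂((volume : Measure (E (k + 2))).toSphere) ≤ ENNReal.ofReal (2 ^ b * I) := by
      rw [ENNReal.ofReal_mul (by positivity), hIl, ← lintegral_const_mul' _ _ ENNReal.ofReal_ne_top]
      rw [← lintegral_indicator]
      · refine lintegral_mono fun ζ => ?_
        by_cases hζ : ζ ∈ {ζ : Metric.sphere (0 : E (k + 2)) 1 |
            ‖1 - inner ℂ z (ζ : E (k + 2))‖ ≤ 2 * (1 - ‖z‖ ^ 2)}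
        · rw [Set.indicator_of_mem hζ, ← ENNReal.ofReal_mul (by positivity)]
          refine ENNReal.ofReal_le_ofReal ?_
          have hζ1 : ‖(ζ : E (k + 2))‖ = 1 := by simp
          rw [hu ζ hζ1, hkap ζ]
          have hζ' : ‖1 - inner ℂ z (ζ : E (k + 2))‖ ≤ 2 * (1 - ‖z‖ ^ 2) := hζ
          have hpos : 0 < ‖1 - inner ℂ z (ζ : E (k + 2))‖ :=
            norm_pos_iff.2 (one_sub_ne hz hζ1.le)
          have hk : 1 / 2 ≤ (1 - ‖z‖ ^ 2) / ‖1 - inner ℂ z (ζ : E (k + 2))‖ := by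
            rw [div_le_div_iff₀ (by norm_num) hpos]; linarith
          have hk2 : (1 / 2 : ℝ) ^ b ≤ ((1 - ‖z‖ ^ 2) / ‖1 - inner ℂ z (ζ : E (k + 2))‖) ^ b :=
            pow_le_pow_left₀ (by norm_num) hk b
          have hx : 0 ≤ ‖f (ζ : E (k + 2))‖ ^ (1/2 : ℝ) := by positivity
          have h22 : (2:ℝ) ^ b * (1/2) ^ b = 1 := by rw [← mul_pow]; norm_num
          calc ‖f (ζ : E (k + 2))‖ ^ (1/2 : ℝ) = (2:ℝ) ^ b * (1/2) ^ b *
                ‖f (ζ : E (k + 2))‖ ^ (1/2 : ℝ) := by rw [h22, one_mul]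
            _ ≤ (2:ℝ) ^ b * ((1 - ‖z‖ ^ 2) / ‖1 - inner ℂ z (ζ : E (k + 2))‖) ^ b *
                (‖f (ζ : E (k + 2))‖ ^ (1/2 : ℝ) + 1) := by
                gcongr
                linarith
            _ = _ := by ring
        · rw [Set.indicator_of_notMem hζ]; exact zero_le
      · refine measurableSet_le ?_ measurable_const
        fun_prop
    have h3 := h.trans (mul_le_mul_right h2 _)
    rw [← ENNReal.ofReal_mul (by rw [← hsz]; positivity),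
      ENNReal.ofReal_le_ofReal_iff (by rw [← hsz]; positivity)] at h3
    refine h3.trans (le_of_eq ?_)
    rw [hA0, hsz]; ring
  -- second part
  have h2 : 1 ≤ 2 ^ b / T.cσ * u.A0 b z := by
    have hr : 2 * T.s z ≤ 10 := by have := T.s_le_one z; linarith
    have h := T.σ_ge z (2 * T.s z) hs0 le_rfl hr
    have h3 : ENNReal.ofReal ((1/2 : ℝ) ^ b) * T.σ {ζ | T.d ζ z < 2 * T.s z} ≤
        ENNReal.ofReal I := by
      rw [hI, ofReal_integral_eq_lintegral_ofReal (u.integrable_mul b z)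
        (Filter.Eventually.of_forall fun x =>
          mul_nonneg (u.nonneg x) (pow_nonneg (H262RU.TS.kap_nonneg _ _) _))]
      have hms : MeasurableSet {ζ | T.d ζ z < 2 * T.s z} :=
        measurableSet_lt (T.d_meas z) measurable_const
      rw [← lintegral_indicator_const hms]
      change ∫⁻ ζ, _ ∂(sigS (k + 2)) ≤ ∫⁻ ζ, _ ∂(sigS (k + 2))
      rw [sigS_lint, sigS_lint]
      · refine lintegral_mono fun ζ => ?_
        by_cases hζ : (ζ : E (k + 2)) ∈ {ζ | T.d ζ z < 2 * T.s z}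
        · rw [Set.indicator_of_mem hζ]
          refine ENNReal.ofReal_le_ofReal ?_
          have hζ1 : ‖(ζ : E (k + 2))‖ = 1 := by simp
          have hd : T.d (ζ : E (k + 2)) z < 2 * T.s z := hζ
          have hd0 : 0 < T.d (ζ : E (k + 2)) z := H262RU.TS.d_pos hs0 _
          have hk : 1 / 2 ≤ T.kap z (ζ : E (k + 2)) := by
            unfold H262RU.TS.kap
            rw [div_le_div_iff₀ (by norm_num) hd0]; linarith
          have hk2 : (1 / 2 : ℝ) ^ b ≤ T.kap z (ζ : E (k + 2)) ^ b :=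
            pow_le_pow_left₀ (by norm_num) hk b
          have hu1 : 1 ≤ u.u (ζ : E (k + 2)) := by
            rw [hu ζ hζ1]
            have : 0 ≤ ‖f (ζ : E (k + 2))‖ ^ (1/2 : ℝ) := by positivity
            linarith
          calc (1 / 2 : ℝ) ^ b = 1 * (1 / 2 : ℝ) ^ b := (one_mul _).symm
            _ ≤ u.u (ζ : E (k + 2)) * T.kap z (ζ : E (k + 2)) ^ b := by gcongr
        · rw [Set.indicator_of_notMem hζ]; exact zero_le
      · exact (u.meas.mul ((T.kap_meas z).pow_const b)).ennreal_ofReal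
      · exact measurable_const.indicator hms
    have h4 := (mul_le_mul_right h (ENNReal.ofReal ((1/2 : ℝ) ^ b))).trans h3
    rw [← ENNReal.ofReal_mul (by positivity), ENNReal.ofReal_le_ofReal_iff hI0] at h4
    rw [hA0]
    have hTn : T.n = k + 2 := rfl
    rw [hTn, mul_pow] at h4
    have hsn : 0 < T.s z ^ (k + 2) := by positivity
    rw [div_mul_div_comm, le_div_iff₀ (by positivity), one_mul]
    have h22 : (2:ℝ) ^ b * (1/2) ^ b = 1 := by rw [← mul_pow]; norm_num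
    have h5 : (2:ℝ) ^ b * ((1/2) ^ b * (T.cσ * (2 ^ (k + 2) * T.s z ^ (k + 2)))) ≤ 2 ^ b * I := by
      gcongr
    have h6 : (2:ℝ) ^ b * ((1/2) ^ b * (T.cσ * (2 ^ (k + 2) * T.s z ^ (k + 2)))) =
        T.cσ * (2 ^ (k + 2) * T.s z ^ (k + 2)) := by
      rw [← mul_assoc, h22, one_mul]
    rw [h6] at h5
    have h7 : (1:ℝ) ≤ 2 ^ (k + 2) := one_le_pow₀ (by norm_num)
    calc T.cσ * T.s z ^ (k + 2) = T.cσ * (1 * T.s z ^ (k + 2)) := by ring
      _ ≤ T.cσ * (2 ^ (k + 2) * T.s z ^ (k + 2)) := by gcongr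
      _ ≤ _ := h5
  have := u.A0_nonneg b z
  calc ‖f z‖ ^ (1/2 : ℝ) + 1 ≤ C * 2 ^ b * u.A0 b z + 2 ^ b / T.cσ * u.A0 b z := by linarith
    _ = _ := by ring

end Pool.Agent.Helper19.RU
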