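import Mathlib
import Pool.Agent.Helper19.RU.StepD
import Pool.Agent.Helper633.Carleson
import Pool.Agent.Helper633.SubMean

set_option autoImplicit false

open MeasureTheory Complex
open scoped ENNReal NNReal

namespace Pool.Agent.Helper19.RU

open Pool.Agent.HpBall Pool.Agent.Helper633.Geo Pool.Agent.Helper633.RC

/-- point evaluation by the kernel, for functions holomorphic near the closed ball -/
lemma eval_le (n : ℕ) (hn : 1 ≤ n) (hn2 : 2 ≤ n) (b : ℕ) : ∃ C : ℝ, 0 < C ∧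
    ∀ (R : ℝ) (f : E n → ℂ), 1 < R → DifferentiableOn ℂ f (Metric.ball 0 R) →
        ∀ z : E n, ‖z‖ < 1 → ‖f z‖ₑ ≤ ENNReal.ofReal C *
          ∫⁻ ζ, ‖f (ζ : E n)‖ₑ * ENNReal.ofReal (PP (ts n hn) b z (ζ : E n)) ∂(sg n) := by
  obtain ⟨k, rfl⟩ : ∃ k, n = k + 2 := ⟨n - 2, by omega⟩
  obtain ⟨C, hC, hsub⟩ := Pool.Agent.Helper633.SubMean.submean k 1 one_pos
  refine ⟨C * 2 ^ b, by positivity, ?_⟩
  intro R f hR hf z hz
  have hs0 : 0 < 1 - ‖z‖ ^ 2 := by nlinarith [norm_nonneg z]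
  have h := hsub f R hR hf z (by simpa using hz)
  simp only [Real.rpow_one] at h
  rw [← ofReal_norm]
  refine h.trans ?_
  have hms : MeasurableSet {ζ : Metric.sphere (0 : E (k + 2)) 1 |
        ‖1 - inner ℂ z (ζ : E (k + 2))‖ ≤ 2 * (1 - ‖z‖ ^ 2)} :=
    measurableSet_le (by fun_prop) measurable_const
  have h1 : ENNReal.ofReal (C * 2 ^ b) = ENNReal.ofReal (C / (1 - ‖z‖ ^ 2) ^ (k + 2)) *
      ENNReal.ofReal (2 ^ b * (1 - ‖z‖ ^ 2) ^ (k + 2)) := by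
    rw [← ENNReal.ofReal_mul (by positivity)]
    congr 1
    field_simp
  rw [h1, mul_assoc]
  gcongr
  rw [← lintegral_const_mul' _ _ ENNReal.ofReal_ne_top, ← lintegral_indicator hms]
  refine lintegral_mono fun ζ => ?_
  by_cases hζ : ζ ∈ {ζ : Metric.sphere (0 : E (k + 2)) 1 |
      ‖1 - inner ℂ z (ζ : E (k + 2))‖ ≤ 2 * (1 - ‖z‖ ^ 2)}
  · rw [Set.indicator_of_mem hζ]
    have hζ1 : ‖(ζ : E (k + 2))‖ = 1 := by simp
    have hζ' : ‖1 - inner ℂ z (ζ : E (k + 2))‖ ≤ 2 * (1 - ‖z‖ ^ 2) := hζ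
    have hpos : 0 < ‖1 - inner ℂ z (ζ : E (k + 2))‖ := norm_pos_iff.2 (one_sub_ne hz hζ1.le)
    have hk : 1 / 2 ≤ (1 - ‖z‖ ^ 2) / ‖1 - inner ℂ z (ζ : E (k + 2))‖ := by
      rw [div_le_div_iff₀ (by norm_num) hpos]; linarith
    have hk2 : (1 / 2 : ℝ) ^ b ≤ ((1 - ‖z‖ ^ 2) / ‖1 - inner ℂ z (ζ : E (k + 2))‖) ^ b :=
      pow_le_pow_left₀ (by norm_num) hk b
    have hPP : PP (ts (k + 2) hn) b z (ζ : E (k + 2)) =
        ((1 - ‖z‖ ^ 2) / ‖1 - inner ℂ z (ζ : E (k + 2))‖) ^ b / (1 - ‖z‖ ^ 2) ^ (k + 2) := by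
      unfold Pool.Agent.Helper633.RC.PP H262RU.TS.kap
      rw [ts_s _ hn z hz.le, H262RU.TS.d_symm, ts_d _ hn z ζ hz.le hζ1.le]
      rfl
    rw [hPP, ← ofReal_norm, ← ENNReal.ofReal_mul (norm_nonneg _), ← ENNReal.ofReal_mul
      (by positivity)]
    refine ENNReal.ofReal_le_ofReal ?_
    have h22 : (2:ℝ) ^ b * (1/2) ^ b = 1 := by rw [← mul_pow]; norm_num
    have hsn : 0 < (1 - ‖z‖ ^ 2) ^ (k + 2) := by positivity
    have e1 : 2 ^ b * (1 - ‖z‖ ^ 2) ^ (k + 2) * (‖f (ζ : E (k + 2))‖ *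
        (((1 - ‖z‖ ^ 2) / ‖1 - inner ℂ z (ζ : E (k + 2))‖) ^ b / (1 - ‖z‖ ^ 2) ^ (k + 2))) =
        2 ^ b * ((1 - ‖z‖ ^ 2) / ‖1 - inner ℂ z (ζ : E (k + 2))‖) ^ b * ‖f (ζ : E (k + 2))‖ := by
      field_simp
    rw [e1]
    calc ‖f (ζ : E (k + 2))‖ = (2:ℝ) ^ b * (1/2) ^ b * ‖f (ζ : E (k + 2))‖ := by
          rw [h22, one_mul]
      _ ≤ _ := by gcongr
  · rw [Set.indicator_of_notMem hζ]; exact zero_le

/-- Carleson embedding for H² functions on the open ball -/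
theorem embed (n : ℕ) (hn : 1 ≤ n) (hn2 : 2 ≤ n) : ∃ C : ℝ, 0 < C ∧
    ∀ {ι : Type} (I : Finset ι) (v : ι → E n) (μ : ι → ℝ), (∀ i ∈ I, 0 ≤ μ i) →
      (∀ i ∈ I, ‖v i‖ < 1) → ∀ ε : ℝ, 0 ≤ ε →
      (∀ (z : E n) (r : ℝ), 0 < r → ∀ J ⊆ I, (∀ i ∈ J, (ts n hn).d (v i) z < r) →
        ∑ i ∈ J, μ i ≤ ε * r ^ n) →
      ∀ (M : ℝ≥0∞) (X : E n → ℂ), H2 n M X →
        ∑ i ∈ I, ENNReal.ofReal (μ i) * ‖X (v i)‖ₑ ^ 2 ≤ ENNReal.ofReal (C * ε) * M := by
  obtain ⟨C, hC, hev⟩ := eval_le n hn hn2 (n + 1)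
  have hCi := (ts n hn).Ci_pos (n + 1)
  refine ⟨8 * (ts n hn).Ci (n + 1) * 12 ^ n * 2 ^ (n + 1 + 2) * C ^ 2, by positivity, ?_⟩
  intro ι I v μ hμ hv ε hε hmass M X hX
  classical
  -- dilates
  have key : ∀ ρ : ℝ, 0 < ρ → ρ < 1 →
      ∑ i ∈ I, ENNReal.ofReal (μ i) * ‖X ((ρ : ℂ) • v i)‖ₑ ^ 2 ≤
        ENNReal.ofReal (8 * (ts n hn).Ci (n + 1) * 12 ^ n * 2 ^ (n + 1 + 2) * C ^ 2 * ε) * M := by
    intro ρ hρ0 hρ1
    have hdil : DifferentiableOn ℂ (fun z : E n => X ((ρ : ℂ) • z)) (Metric.ball 0 (1 / ρ)) := by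
      refine hX.1.comp (by fun_prop) ?_
      intro z hz
      have hz1 : ‖z‖ < 1 / ρ := by simpa using hz
      rw [mem_ball_zero_iff, norm_smul, Complex.norm_real, Real.norm_eq_abs, abs_of_pos hρ0]
      rw [lt_div_iff₀ hρ0] at hz1
      linarith
    have hR : 1 < 1 / ρ := by rw [lt_div_iff₀ hρ0]; linarith
    set x : E n → ℝ≥0∞ := (Metric.closedBall (0 : E n) 1).indicator
      (fun ζ => ENNReal.ofReal C * ‖X ((ρ : ℂ) • ζ)‖ₑ) with hx
    have hxm : Measurable x := by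
      have hcont : ContinuousOn (fun ζ : E n => ENNReal.ofReal C * ‖X ((ρ : ℂ) • ζ)‖ₑ)
          (Metric.closedBall (0 : E n) 1) := by
        refine (ENNReal.continuous_const_mul ENNReal.ofReal_ne_top).comp_continuousOn ?_
        exact (hdil.continuousOn.mono (Metric.closedBall_subset_ball hR)).enorm
      rw [hx, ← Set.piecewise_eq_indicator]
      exact hcont.measurable_piecewise continuousOn_const Metric.isClosed_closedBall.measurableSet
    have hxs : ∀ ζ : Metric.sphere (0 : E n) 1, x (ζ : E n) =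
        ENNReal.ofReal C * ‖X ((ρ : ℂ) • (ζ : E n))‖ₑ := by
      intro ζ
      rw [hx, Set.indicator_of_mem (by simp)]
    have hPPm : ∀ w : E n, Measurable (fun ζ => ENNReal.ofReal (PP (ts n hn) (n + 1) w ζ)) := by
      intro w
      unfold Pool.Agent.Helper633.RC.PP
      exact ((((ts n hn).kap_meas w).pow_const _).div_const _).ennreal_ofReal
    have hy : ∀ i ∈ I, ‖X ((ρ : ℂ) • v i)‖ₑ ≤
        ∫⁻ ζ, x ζ * ENNReal.ofReal (PP (ts n hn) (n + 1) (v i) ζ) ∂(ts n hn).σ := by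
      intro i hi
      have h1 := hev (1 / ρ) (fun z => X ((ρ : ℂ) • z)) hR hdil (v i) (hv i hi)
      refine h1.trans (le_of_eq ?_)
      change _ = ∫⁻ ζ, x ζ * ENNReal.ofReal (PP (ts n hn) (n + 1) (v i) ζ) ∂(sigS n)
      have hm : Measurable (fun ζ => x ζ * ENNReal.ofReal (PP (ts n hn) (n + 1) (v i) ζ)) :=
        hxm.mul (hPPm (v i))
      rw [sigS_lint _ hm, ← lintegral_const_mul' _ _ ENNReal.ofReal_ne_top]
      refine lintegral_congr fun ζ => ?_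
      rw [hxs ζ, mul_assoc]
    have hvs : ∀ i ∈ I, 0 < (ts n hn).s (v i) := by
      intro i hi
      have h1 := hv i hi
      rw [ts_s n hn _ h1.le]
      nlinarith [norm_nonneg (v i)]
    have hc := carleson (T := ts n hn) (n + 1) le_rfl I v μ hμ hvs ε hε hmass x hxm
      (fun i => ‖X ((ρ : ℂ) • v i)‖ₑ) hy
    refine hc.trans ?_
    have h2 : ∫⁻ ζ, x ζ ^ 2 ∂(ts n hn).σ ≤ ENNReal.ofReal (C ^ 2) * M := by
      change ∫⁻ ζ, x ζ ^ 2 ∂(sigS n) ≤ _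
      rw [sigS_lint _ (hxm.pow_const 2)]
      have h3 := hX.2 ρ hρ0.le hρ1
      calc ∫⁻ ζ, x (ζ : E n) ^ 2 ∂(sg n) = ENNReal.ofReal (C ^ 2) *
            ∫⁻ ζ, ‖X ((ρ : ℂ) • (ζ : E n))‖ₑ ^ 2 ∂(sg n) := by
            rw [← lintegral_const_mul' _ _ ENNReal.ofReal_ne_top]
            refine lintegral_congr fun ζ => ?_
            rw [hxs ζ, mul_pow, ENNReal.ofReal_pow hC.le]
        _ ≤ _ := by gcongr
    have hn' : (ts n hn).n = n := rfl
    rw [hn']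
    refine (mul_le_mul_right h2 _).trans (le_of_eq ?_)
    rw [← mul_assoc, ← ENNReal.ofReal_mul (by positivity)]
    congr 2
    ring
  -- limit ρ → 1
  have hlim : Filter.Tendsto (fun k : ℕ => ∑ i ∈ I, ENNReal.ofReal (μ i) *
      ‖X (((1 - 1 / ((k : ℝ) + 2) : ℝ) : ℂ) • v i)‖ₑ ^ 2) Filter.atTop
      (nhds (∑ i ∈ I, ENNReal.ofReal (μ i) * ‖X (v i)‖ₑ ^ 2)) := by
    refine tendsto_finsetSum _ fun i hi => ?_
    refine ENNReal.Tendsto.const_mul ?_ (Or.inr ENNReal.ofReal_ne_top)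
    refine ((ENNReal.continuous_pow 2).tendsto _).comp ?_
    have hct : ContinuousAt X (v i) := hX.1.continuousOn.continuousAt
      (Metric.isOpen_ball.mem_nhds (by simpa using hv i hi))
    have h1 : Filter.Tendsto (fun k : ℕ => ((1 - 1 / ((k : ℝ) + 2) : ℝ) : ℂ) • v i) Filter.atTop
        (nhds (v i)) := by
      have h2 : Filter.Tendsto (fun k : ℕ => (1 - 1 / ((k : ℝ) + 2) : ℝ)) Filter.atTop
          (nhds 1) := by
        have h3 : Filter.Tendsto (fun k : ℕ => 1 / ((k : ℝ) + 2)) Filter.atTop (nhds 0) := by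
          have h4 : Filter.Tendsto (fun k : ℕ => (k : ℝ) + 2) Filter.atTop Filter.atTop :=
            Filter.tendsto_atTop_add_const_right _ _ tendsto_natCast_atTop_atTop
          have h5 := h4.inv_tendsto_atTop
          refine h5.congr fun k => ?_
          simp
        simpa using h3.const_sub 1
      have h5 : Filter.Tendsto (fun k : ℕ => ((1 - 1 / ((k : ℝ) + 2) : ℝ) : ℂ)) Filter.atTop
          (nhds (((1:ℝ) : ℂ))) := (Complex.continuous_ofReal.tendsto 1).comp h2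
      have h6 := h5.smul_const (v i)
      simpa using h6
    exact (hct.tendsto.comp h1).enorm
  refine le_of_tendsto hlim ?_
  filter_upwards with k
  have hk : (0:ℝ) ≤ k := Nat.cast_nonneg k
  refine key (1 - 1 / ((k : ℝ) + 2)) ?_ ?_
  · have : 1 / ((k : ℝ) + 2) < 1 := by rw [div_lt_one (by linarith)]; linarith
    linarith
  · have : 0 < 1 / ((k : ℝ) + 2) := by positivity
    linarith

end Pool.Agent.Helper19.RU
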