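import Mathlib
import Pool.Agent.Helper19.RU.StepB
import Pool.Agent.Helper157.RF.K1
import Pool.Agent.Helper157.RF.E3

set_option autoImplicit false

open MeasureTheory Complex
open scoped ENNReal NNReal

namespace Pool.Agent.Helper19.RU

open Pool.Agent.HpBall Pool.Agent.Helper633.Geo

section

variable {n : ℕ} {hn : 1 ≤ n} {CL : ℝ} {b m : ℕ} {τ Λ : ℝ}
  (S : H262RU.Sel (ts n hn) CL b m τ Λ)

/-- what we use of the owner map -/
structure OwnOK (C0 : ℝ) : Prop where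
  one : 1 ≤ C0
  near : ∀ w : E n, ‖w‖ < 1 → d w (S.C.w (own S w)) ≤ C0 * s (S.C.w (own S w))
  a_le : ∀ w : E n, ‖w‖ < 1 → S.a w ≤ C0 * S.A (own S w)

/-- the source function y = |Φ| / a -/
noncomputable def src (Φ : E n → ℂ) (w : E n) : ℝ≥0∞ := ENNReal.ofReal (‖Φ w‖ / S.a w)

lemma src_meas (Φ : E n → ℂ) (hΦ : Measurable Φ) : Measurable (src S Φ) :=
  (hΦ.norm.div S.a_meas).ennreal_ofReal

lemma nrm_src (Φ : E n → ℂ) : RFE.nrm (ts n hn) (src S Φ) = energy S.a Φ := by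
  unfold RFE.nrm energy src
  change ∫⁻ w in Metric.ball (0 : E n) 1, _ = _
  refine setLIntegral_congr_fun Metric.isOpen_ball.measurableSet fun w hw => ?_
  have hw1 : ‖w‖ < 1 := by simpa using hw
  have h0 : 0 ≤ 1 - ‖w‖ ^ 2 := by nlinarith [norm_nonneg w]
  have h1 : 0 ≤ ‖Φ w‖ / S.a w := div_nonneg (norm_nonneg _) (S.a_nonneg w)
  rw [ts_s n hn w hw1.le, ← ENNReal.ofReal_pow h1, ← ENNReal.ofReal_mul h0]
  congr 1
  rw [div_pow]
  ring

/-- the coefficient function of Y_i -/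
noncomputable def cf (al : ℕ) (Φ : E n → ℂ) (i : ℕ) (w : E n) : ℂ :=
  Φ w * ((1 - ‖w‖ ^ 2 : ℝ) : ℂ) ^ al * ((S.A i : ℂ) * (S.C.h i : ℂ) ^ m)⁻¹

lemma cf_norm (al : ℕ) (Φ : E n → ℂ) (w : E n) (hw : ‖w‖ < 1) (i : ℕ) :
    ‖cf S al Φ i w‖ = ‖Φ w‖ * s w ^ al / (S.A i * S.C.h i ^ m) := by
  unfold cf
  have h0 : 0 ≤ 1 - ‖w‖ ^ 2 := by nlinarith [norm_nonneg w]
  rw [norm_mul, norm_mul, norm_inv, norm_mul, norm_pow, norm_pow, Complex.norm_real,
    Complex.norm_real, Complex.norm_real, Real.norm_eq_abs, Real.norm_eq_abs, Real.norm_eq_abs,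
    abs_of_nonneg h0, abs_of_nonneg (S.A_nonneg i), abs_of_pos (S.C.h_pos i)]
  unfold s
  rw [div_eq_mul_inv]

/-- general kernel bound: from a bound of s^al |k| by C s(w_i)^m G to one for cf * k -/
lemma cf_bound (hA : Adm S) (hΛ : 1 ≤ Λ) {C0 : ℝ} (hO : OwnOK S C0) (al : ℕ) (Φ : E n → ℂ)
    (w : E n) (hw : ‖w‖ < 1) (k : ℂ) (C G : ℝ) (hC : 0 ≤ C) (hG : 0 ≤ G)
    (h : s w ^ al * ‖k‖ ≤ C * s (S.C.w (own S w)) ^ m * G) :
    ‖cf S al Φ (own S w) w * k‖ₑ ≤ ENNReal.ofReal (C * C0) * (ENNReal.ofReal G * src S Φ w) := by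
  have hi := (own_spec S w).1
  have hsi : s (S.C.w (own S w)) = S.C.h (own S w) := by
    rw [← S.C.s_h hi, ts_s n hn _ (hA.1 _ hi).le]; rfl
  rw [hsi] at h
  have hAp := own_A_pos S hΛ w
  have hhp := S.C.h_pos (own S w)
  have hal := hO.a_le w hw
  have hap : 0 ≤ S.a w := S.a_nonneg w
  have hC0 := hO.one
  have hapos : 0 < S.a w := by
    have h1 := S.le_a hi w
    have h2 : 0 < S.A (own S w) * S.C.kp (own S w) w ^ b :=
      mul_pos hAp (pow_pos (S.C.kp_pos hi w) b)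
    linarith
  unfold src
  rw [← ofReal_norm, ← ENNReal.ofReal_mul hG, ← ENNReal.ofReal_mul (by positivity)]
  refine ENNReal.ofReal_le_ofReal ?_
  rw [norm_mul, cf_norm S al Φ w hw]
  have h3 : ‖Φ w‖ * s w ^ al / (S.A (own S w) * S.C.h (own S w) ^ m) * ‖k‖ ≤
      ‖Φ w‖ * (C * G) / S.A (own S w) := by
    rw [div_mul_eq_mul_div, div_le_div_iff₀ (by positivity) hAp]
    have h4 : ‖Φ w‖ * (s w ^ al * ‖k‖) ≤ ‖Φ w‖ * (C * S.C.h (own S w) ^ m * G) := by gcongr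
    nlinarith [mul_le_mul_of_nonneg_right h4 hAp.le]
  refine h3.trans ?_
  have h5 : 1 / S.A (own S w) ≤ C0 / S.a w := by
    rw [div_le_div_iff₀ hAp hapos]; linarith
  calc ‖Φ w‖ * (C * G) / S.A (own S w) = ‖Φ w‖ * (C * G) * (1 / S.A (own S w)) := by ring
    _ ≤ ‖Φ w‖ * (C * G) * (C0 / S.a w) := by gcongr
    _ = _ := by ring

/-- constants of the kernel bounds (independent of S) -/
noncomputable def CK1 (n al m : ℕ) (C0 : ℝ) (h : 1 ≤ C0) : ℝ :=
  (RFK.dkq_le (n := n) al m C0 h).choose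

lemma CK1_pos (n al m : ℕ) (C0 : ℝ) (h : 1 ≤ C0) : 0 < CK1 n al m C0 h :=
  (RFK.dkq_le (n := n) al m C0 h).choose_spec.1

noncomputable def CK0 (n al m : ℕ) (C0 : ℝ) (h : 1 ≤ C0) : ℝ :=
  (RFK.kq_le (n := n) al m C0 h).choose

lemma CK0_pos (n al m : ℕ) (C0 : ℝ) (h : 1 ≤ C0) : 0 < CK0 n al m C0 h :=
  (RFK.kq_le (n := n) al m C0 h).choose_spec.1

lemma kk_eq (p q : ℕ) (z w : E n) (hz : ‖z‖ < 1) (hw : ‖w‖ < 1) :
    RFE.kk (ts n hn) p q z w = ENNReal.ofReal (s w ^ p / d z w ^ q) := by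
  unfold RFE.kk
  rw [ts_s n hn w hw.le, ts_d n hn z w hz.le hw.le]
  rfl

lemma kk_meas (p q : ℕ) (z : E n) : Measurable (fun w => RFE.kk (ts n hn) p q z w) := by
  unfold RFE.kk
  refine Measurable.ennreal_ofReal ?_
  refine ((ts n hn).s_meas.pow_const p).div ?_
  have : (fun w => (ts n hn).d z w ^ q) = fun w => (ts n hn).d w z ^ q := by
    funext w; rw [(ts n hn).d_symm]
  rw [this]
  exact ((ts n hn).d_meas z).pow_const q

/-- bound of the derivative kernel -/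
lemma cf_dkq (hA : Adm S) (hΛ : 1 ≤ Λ) {C0 : ℝ} (hO : OwnOK S C0) (al : ℕ) (Φ : E n → ℂ)
    (w z : E n) (hw : ‖w‖ < 1) (hz : ‖z‖ < 1) :
    ‖cf S (al + m) Φ (own S w) w * dkq (n + (al + m)) (n + (al + m)) m w (S.C.w (own S w)) z‖ₑ ≤
      ENNReal.ofReal (CK1 n al m C0 hO.one * C0) *
        (RFE.kk (ts n hn) al ((ts n hn).n + 1 + al) z w * src S Φ w) := by
  have hi := (own_spec S w).1
  have h := (RFK.dkq_le (n := n) al m C0 hO.one).choose_spec.2 w (S.C.w (own S w)) z hw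
    (hA.1 _ hi) hz (hO.near w hw)
  rw [kk_eq al _ z w hz hw]
  have hn' : (ts n hn).n = n := rfl
  rw [hn']
  have hG : 0 ≤ s w ^ al / d z w ^ (n + 1 + al) := by
    have h1 := RFK.rfk_s_pos hw
    have h2 := RFK.rfk_d_pos hz hw
    positivity
  refine cf_bound S hA hΛ hO (al + m) Φ w hw _ _ _ (CK1_pos n al m C0 hO.one).le hG ?_
  rw [show n + (al + m) = n + al + m by omega]
  exact h

/-- bound of the kernel -/
lemma cf_kq (hA : Adm S) (hΛ : 1 ≤ Λ) {C0 : ℝ} (hO : OwnOK S C0) (al : ℕ) (Φ : E n → ℂ)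
    (w z : E n) (hw : ‖w‖ < 1) (hz : ‖z‖ < 1) :
    ‖cf S (al + m) Φ (own S w) w * kq (n + (al + m)) m w (S.C.w (own S w)) z‖ₑ ≤
      ENNReal.ofReal (CK0 n al m C0 hO.one * C0) *
        (RFE.kk (ts n hn) al ((ts n hn).n + al) z w * src S Φ w) := by
  have hi := (own_spec S w).1
  have h := (RFK.kq_le (n := n) al m C0 hO.one).choose_spec.2 w (S.C.w (own S w)) z hw
    (hA.1 _ hi) hz (hO.near w hw)
  rw [kk_eq al _ z w hz hw]
  have hn' : (ts n hn).n = n := rfl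
  rw [hn']
  have hG : 0 ≤ s w ^ al / d z w ^ (n + al) := by
    have h1 := RFK.rfk_s_pos hw
    have h2 := RFK.rfk_d_pos hz hw
    positivity
  refine cf_bound S hA hΛ hO (al + m) Φ w hw _ _ _ (CK0_pos n al m C0 hO.one).le hG ?_
  rw [show n + (al + m) = n + al + m by omega]
  exact h

/-- bound of DD Y_i by the positive kernel -/
lemma DDY_bound (hA : Adm S) (hΛ : 1 ≤ Λ) {C0 : ℝ} (hO : OwnOK S C0) (al : ℕ) (hal : 1 ≤ al + m)
    (Φ : E n → ℂ) (hΦ : Measurable Φ) (hen : energy (fun _ => 1) Φ < ⊤) {i : ℕ} (hi : i < S.C.N)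
    (z : E n) (hz : ‖z‖ < 1) :
    ‖DD (n + (al + m)) (YY S (al + m) Φ i) z‖ₑ ≤ ∫⁻ w in Rg S i,
        ENNReal.ofReal (CK1 n al m C0 hO.one * C0) *
          (RFE.kk (ts n hn) al ((ts n hn).n + 1 + al) z w * src S Φ w) := by
  rw [(YY_diff S hA (al + m) hal Φ hΦ.aestronglyMeasurable hen hi).2 (n + (al + m)) z
    (by simpa using hz)]
  refine (enorm_integral_le_lintegral_enorm _).trans ?_
  refine setLIntegral_mono' (Rg_meas S hA.2.1 i) fun w hw => ?_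
  have hw1 : ‖w‖ < 1 := by
    have : w ∈ Metric.ball (0 : E n) 1 := hw.1
    simpa using this
  have hw2 : own S w = i := hw.2
  have h := cf_dkq S hA hΛ hO al Φ w z hw1 hz
  rw [hw2] at h
  exact h

/-- bound of DD of a sum of Y_i -/
lemma DDsum_bound (hA : Adm S) (hΛ : 1 ≤ Λ) {C0 : ℝ} (hO : OwnOK S C0) (al : ℕ) (hal : 1 ≤ al + m)
    (Φ : E n → ℂ) (hΦ : Measurable Φ) (hen : energy (fun _ => 1) Φ < ⊤) (I : Finset ℕ)
    (hI : ∀ i ∈ I, i < S.C.N) (z : E n) (hz : ‖z‖ < 1) :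
    ‖DD (n + (al + m)) (fun z => ∑ i ∈ I, YY S (al + m) Φ i z) z‖ₑ ≤
      ∫⁻ w in Metric.ball (0 : E n) 1, (if own S w ∈ I then (1 : ℝ≥0∞) else 0) *
        (ENNReal.ofReal (CK1 n al m C0 hO.one * C0) *
          (RFE.kk (ts n hn) al ((ts n hn).n + 1 + al) z w * src S Φ w)) := by
  have hzb : z ∈ Metric.ball (0 : E n) 1 := by simpa using hz
  have hd : ∀ i ∈ I, DifferentiableAt ℂ (YY S (al + m) Φ i) z := fun i hi =>
    ((YY_diff S hA (al + m) hal Φ hΦ.aestronglyMeasurable hen (hI i hi)).1 z hzb).differentiableAt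
      (Metric.isOpen_ball.mem_nhds hzb)
  have h1 : DD (n + (al + m)) (fun z => ∑ i ∈ I, YY S (al + m) Φ i z) z =
      ∑ i ∈ I, DD (n + (al + m)) (YY S (al + m) Φ i) z := by
    unfold DD rad
    rw [fderiv_fun_sum hd, sum_apply, Finset.mul_sum, ← Finset.sum_add_distrib]
  rw [h1]
  refine (enorm_sum_le _ _).trans ?_
  refine (Finset.sum_le_sum fun i hi => DDY_bound S hA hΛ hO al hal Φ hΦ hen (hI i hi) z hz).trans ?_
  set G : E n → ℝ≥0∞ := fun w => ENNReal.ofReal (CK1 n al m C0 hO.one * C0) *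
          (RFE.kk (ts n hn) al ((ts n hn).n + 1 + al) z w * src S Φ w) with hG
  have h2 : ∀ i, ∫⁻ w in Rg S i, G w = ∫⁻ w in Metric.ball (0 : E n) 1,
      (if own S w = i then (1 : ℝ≥0∞) else 0) * G w := by
    intro i
    unfold Rg
    rw [Set.inter_comm, ← Measure.restrict_restrict (own_meas S hA.2.1 i),
      ← lintegral_indicator (own_meas S hA.2.1 i)]
    refine lintegral_congr fun w => ?_
    by_cases h : own S w = i
    · rw [Set.indicator_of_mem (show w ∈ {w | own S w = i} from h), if_pos h, one_mul]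
    · rw [Set.indicator_of_notMem (show w ∉ {w | own S w = i} from h), if_neg h, zero_mul]
  simp_rw [h2]
  have hGm : Measurable G := by
    refine Measurable.const_mul (Measurable.mul (kk_meas _ _ z) (src_meas S Φ hΦ)) _
  have hiM : ∀ i, Measurable (fun w => (if own S w = i then (1 : ℝ≥0∞) else 0) * G w) := fun i =>
    (Measurable.ite (own_meas S hA.2.1 i) measurable_const measurable_const).mul hGm
  rw [← lintegral_finsetSum _ (fun i _ => hiM i)]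
  refine lintegral_mono fun w => ?_
  rw [← Finset.sum_mul]
  gcongr
  rw [Finset.sum_ite_eq I (own S w) (fun _ => (1 : ℝ≥0∞))]

end

end Pool.Agent.Helper19.RU
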