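import Mathlib
import Pool.Agent.Helper19.RU.LinkA

set_option autoImplicit false

open MeasureTheory Complex
open scoped ENNReal NNReal

namespace Pool.Agent.Helper19.RU

open Pool.Agent.HpBall Pool.Agent.Helper633.Geo

lemma ts_d_meas (n : ℕ) (hn : 1 ≤ n) : Measurable (Function.uncurry (ts n hn).d) := by
  have h : Function.uncurry (ts n hn).d = fun q : E n × E n => ‖1 - inner ℂ (ret q.1) (ret q.2)‖ := rfl
  rw [h]
  have h1 : Measurable (fun q : E n × E n => ret q.1) := ret_meas.comp measurable_fst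
  have h2 : Measurable (fun q : E n × E n => ret q.2) := ret_meas.comp measurable_snd
  exact (measurable_const.sub (h1.inner h2)).norm

lemma ts_V_pos (n : ℕ) (hn : 1 ≤ n) : ∀ᵐ w ∂(ts n hn).V, 0 < (ts n hn).s w := by
  change ∀ᵐ w ∂((volume : Measure (E n)).restrict (Metric.ball 0 1)), _
  filter_upwards [ae_restrict_mem Metric.isOpen_ball.measurableSet] with w hw
  have hw1 : ‖w‖ < 1 := by simpa using hw
  rw [ts_s n hn w hw1.le]
  nlinarith [norm_nonneg w]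

section

variable {n : ℕ} {hn : 1 ≤ n} {CL : ℝ} {b m : ℕ} {τ Λ : ℝ}
  (S : H262RU.Sel (ts n hn) CL b m τ Λ)

/-- (E2): energy bound of X_c -/
theorem XX_energy (n : ℕ) (hn : 1 ≤ n) (m al : ℕ) (hal : 2 ≤ al) (C0 : ℝ) (hC0 : 1 ≤ C0) :
    ∃ C : ℝ, 0 < C ∧ ∀ (CL : ℝ) (b : ℕ) (τ Λ : ℝ) (S : H262RU.Sel (ts n hn) CL b m τ Λ), Adm S →
      1 ≤ Λ → OwnOK S C0 → ∀ (Nc : ℕ) (col : ℕ → Fin Nc) (Φ : E n → ℂ), Measurable Φ →
      energy (fun _ => 1) Φ < ⊤ → ∀ c,
      energy (fun _ => 1) (DD (n + (al + m)) (XX S (al + m) col Φ c)) ≤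
        ENNReal.ofReal C * energy S.a Φ := by
  obtain ⟨CI, hCI, hpart⟩ := RFE.partI (ts n hn) (ts_d_meas n hn) (ts_V_pos n hn) al hal
  set K : ℝ := CK1 n al m C0 hC0 * C0 with hK
  have hK0 : 0 < K := mul_pos (CK1_pos n al m C0 hC0) (by linarith)
  refine ⟨K ^ 2 * (CI * 2), by positivity, ?_⟩
  intro CL b τ Λ S hA hΛ hO Nc col Φ hΦ hen c
  have h1 := hpart (fun _ _ => 1) measurable_const 1 1 1 le_rfl (fun _ _ _ _ => le_rfl)
    (fun _ _ _ _ _ _ => le_rfl) (src S Φ) (src_meas S Φ hΦ)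
  rw [nrm_src] at h1
  rw [energy_one]
  have h2 : ∫⁻ w in Metric.ball (0 : E n) 1, ENNReal.ofReal (‖DD (n + (al + m))
      (XX S (al + m) col Φ c) w‖ ^ 2 * (1 - ‖w‖ ^ 2)) ≤
      ENNReal.ofReal (K ^ 2) * ∫⁻ z, ENNReal.ofReal ((ts n hn).s z) *
        (∫⁻ w, RFE.kk (ts n hn) al ((ts n hn).n + 1 + al) z w * 1 * src S Φ w ∂(ts n hn).V) ^ 2
          ∂(ts n hn).V := by
    rw [← lintegral_const_mul' _ _ ENNReal.ofReal_ne_top]
    refine setLIntegral_mono' Metric.isOpen_ball.measurableSet fun z hz => ?_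
    have hz1 : ‖z‖ < 1 := by simpa using hz
    have h0 : 0 ≤ 1 - ‖z‖ ^ 2 := by nlinarith [norm_nonneg z]
    have h3 := DDsum_bound S hA hΛ hO al (by omega) Φ hΦ hen
      ((sel S).filter (fun i => col i = c))
      (fun i hi => ((mem_sel S).1 (Finset.mem_filter.1 hi).1).1) z hz1
    have h4 : ‖DD (n + (al + m)) (XX S (al + m) col Φ c) z‖ₑ ≤ ENNReal.ofReal K *
        ∫⁻ w, RFE.kk (ts n hn) al ((ts n hn).n + 1 + al) z w * 1 * src S Φ w ∂(ts n hn).V := by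
      refine h3.trans ?_
      rw [← lintegral_const_mul' _ _ ENNReal.ofReal_ne_top]
      refine lintegral_mono fun w => ?_
      calc _ ≤ 1 * (ENNReal.ofReal K *
            (RFE.kk (ts n hn) al ((ts n hn).n + 1 + al) z w * src S Φ w)) := by
            gcongr
            split_ifs
            · exact le_rfl
            · exact zero_le
        _ = _ := by rw [one_mul, mul_one]
    rw [ts_s n hn z hz1.le, mul_comm (‖_‖ ^ 2), ENNReal.ofReal_mul h0, ENNReal.ofReal_pow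
      (norm_nonneg _), ofReal_norm, ENNReal.ofReal_pow hK0.le]
    calc ENNReal.ofReal (1 - ‖z‖ ^ 2) * ‖DD (n + (al + m)) (XX S (al + m) col Φ c) z‖ₑ ^ 2
        ≤ ENNReal.ofReal (1 - ‖z‖ ^ 2) * (ENNReal.ofReal K *
        ∫⁻ w, RFE.kk (ts n hn) al ((ts n hn).n + 1 + al) z w * 1 * src S Φ w ∂(ts n hn).V) ^ 2 := by
          gcongr
      _ = _ := by rw [mul_pow]; ring
  refine h2.trans ((mul_le_mul_right h1 _).trans (le_of_eq ?_))
  rw [ENNReal.ofReal_mul (by positivity), ENNReal.ofReal_mul hCI.le]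
  have e1 : (1 : ℝ≥0∞) ^ 2 + 1 ^ 2 * ENNReal.ofReal (1 / 1) = ENNReal.ofReal 2 := by
    norm_num
  rw [e1]
  ring

end

end Pool.Agent.Helper19.RU
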