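import Mathlib
import Pool.Agent.Helper19.RU.LinkB
import Pool.Agent.Helper157.RF.K4
import Pool.Agent.Helper262.RU10

set_option autoImplicit false

open MeasureTheory Complex
open scoped ENNReal NNReal

/-! The concrete index set, boxes, owner map, colouring for block E (MP_7ebef4_an). -/

namespace Pool.Agent.Helper19.RU

open Pool.Agent.HpBall Pool.Agent.Helper633.Geo

section

variable {n : ℕ} {hn : 1 ≤ n} {CL : ℝ} {b m : ℕ} {τ Λ : ℝ}
  (S : H262RU.Sel (ts n hn) CL b m τ Λ)

/-- index set -/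
abbrev Ix : Type := {i // i ∈ S.selF}

/-- box centres -/
def WW (i : Ix S) : E n := S.C.w i

/-- amplitudes -/
noncomputable def AA (i : Ix S) : ℝ := S.A i

/-- owner as an index -/
noncomputable def oo (hΛ : 1 ≤ Λ) (w : E n) : Ix S := ⟨S.own w, S.own_mem hΛ w⟩

/-- colours of the indices -/
def cc {Nc : ℕ} (col : ℕ → Fin Nc) (i : Ix S) : Fin Nc := col i

lemma own_eq (w : E n) : own S w = S.own w := rfl

lemma mem_sel_iff (i : ℕ) : i ∈ sel S ↔ i ∈ S.selF := by
  rw [mem_sel, H262RU.Sel.mem_selF]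

lemma sel_eq : sel S = S.selF := by
  ext i; exact mem_sel_iff S i

end

end Pool.Agent.Helper19.RU
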