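import Mathlib
import Pool.Agent.Helper19.RU.Defs2
import Pool.Agent.Helper157.RF.E4
import Pool.Agent.Helper157.RF.E6

set_option autoImplicit false

open MeasureTheory Complex
open scoped ENNReal NNReal

namespace Pool.Agent.Helper19.RU

open Pool.Agent.HpBall Pool.Agent.Helper633.Geo

lemma DD_mul {n : ℕ} (N : ℕ) (F G : E n → ℂ) (z : E n) (hF : DifferentiableAt ℂ F z)
    (hG : DifferentiableAt ℂ G z) :
    DD N (fun z => F z * G z) z = F z * DD N G z + rad F z * G z := by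
  unfold DD rad
  rw [fderiv_fun_mul hF hG]
  simp only [add_apply, smul_apply, smul_eq_mul]
  ring

lemma DD_neg_sum {n : ℕ} (N : ℕ) (I : Finset ℕ) (F : ℕ → E n → ℂ) (z : E n)
    (hF : ∀ i ∈ I, DifferentiableAt ℂ (F i) z) :
    DD N (fun z => - ∑ i ∈ I, F i z) z = - ∑ i ∈ I, DD N (F i) z := by
  unfold DD rad
  rw [fderiv_fun_neg, fderiv_fun_sum hF, neg_apply, sum_apply, Finset.sum_add_distrib,
    ← Finset.mul_sum]
  ring

section

variable {n : ℕ} {hn : 1 ≤ n} {CL : ℝ} {b m : ℕ} {τ Λ : ℝ}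
  (S : H262RU.Sel (ts n hn) CL b m τ Λ)

lemma rad_gg (hA : Adm S) {i : ℕ} (hi : i < S.C.N) {z : E n} (hz : ‖z‖ < 1) :
    ‖rad (gg S i) z‖ ≤ m * (‖gg S i z‖ / d z (S.C.w i)) := by
  have hwi := hA.1 i hi
  have hne : (1 - inner ℂ (S.C.w i) z : ℂ) ≠ 0 := one_sub_ne hwi hz.le
  have hg : gg S i = fun z => ((S.A i : ℂ) * (S.C.h i : ℂ) ^ m) * kq m 0 (S.C.w i) 0 z := by
    funext z
    unfold gg kq
    simp
  have hd : HasFDerivAt (gg S i) (((S.A i : ℂ) * (S.C.h i : ℂ) ^ m) •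
      diff_int_dk m 0 (S.C.w i) 0 z) z := by
    rw [hg]
    exact (diff_int_kq_deriv m 0 (w := S.C.w i) (w0 := 0) hne).const_mul _
  have h1 : rad (gg S i) z = ((S.A i : ℂ) * (S.C.h i : ℂ) ^ m) *
      dkq 0 m 0 (S.C.w i) 0 z := by
    unfold rad
    rw [hd.fderiv, smul_apply, smul_eq_mul, ← diff_int_dk_apply 0 m 0]
    simp
  have h2 : rad (gg S i) z = (m : ℂ) * (inner ℂ (S.C.w i) z) * gg S i z *
      (1 - inner ℂ (S.C.w i) z)⁻¹ := by
    rw [h1]
    unfold dkq gg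
    simp only [pow_zero, CharP.cast_eq_zero, zero_mul, sub_zero, mul_one, add_zero]
    rw [pow_succ, mul_inv]
    ring
  rw [h2, norm_mul, norm_mul, norm_mul, norm_inv, d]
  have h3 : ‖(inner ℂ (S.C.w i) z : ℂ)‖ ≤ 1 := by
    refine (norm_inner_le_norm _ _).trans ?_
    nlinarith [norm_nonneg z, norm_nonneg (S.C.w i)]
  have h4 : ‖(1 - inner ℂ z (S.C.w i) : ℂ)‖ = ‖(1 - inner ℂ (S.C.w i) z : ℂ)‖ := by
    rw [← inner_conj_symm z (S.C.w i), ← map_one (starRingEnd ℂ), ← map_sub, RCLike.norm_conj,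
      map_one]
  rw [h4, Complex.norm_natCast]
  have h5 : 0 < ‖1 - inner ℂ (S.C.w i) z‖ := norm_pos_iff.2 hne
  calc (m : ℝ) * ‖(inner ℂ (S.C.w i) z : ℂ)‖ * ‖gg S i z‖ * ‖1 - inner ℂ (S.C.w i) z‖⁻¹
      ≤ (m : ℝ) * 1 * ‖gg S i z‖ * ‖1 - inner ℂ (S.C.w i) z‖⁻¹ := by gcongr
    _ = _ := by rw [div_eq_mul_inv]; ring

lemma aw_eq (z : E n) : RFE.aw (ts n hn) b (WW S) (AA S) z = S.a z := by
  rw [S.a_eq z]
  unfold RFE.aw WW AA H262RU.Cand.kp
  exact Finset.sum_coe_sort S.selF (fun i => S.A i * (ts n hn).kap (S.C.w i) z ^ b)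

lemma om_eq (hA : Adm S) (l : Ix S) {z : E n} (hz : ‖z‖ ≤ 1) :
    RFE.om (ts n hn) b m (WW S) (AA S) l z = ‖gg S l z‖ / S.a z := by
  unfold RFE.om
  rw [aw_eq, norm_gg S hA ((H262RU.Sel.mem_selF S).1 l.2).1 hz]
  rfl

lemma a_pos' (hΛ : 1 ≤ Λ) (z : E n) : 0 < S.a z := by
  have hi := (own_spec S z).1
  have h1 := S.le_a hi z
  have h2 : 0 < S.A (own S z) * S.C.kp (own S z) z ^ b :=
    mul_pos (own_A_pos S hΛ z) (pow_pos (S.C.kp_pos hi z) b)
  linarith

/-- the decomposition of DD EE -/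
lemma DDEE_eq {Nc : ℕ} (hA : Adm S) (al : ℕ) (hal : 1 ≤ al) (N : ℕ) (col : ℕ → Fin Nc)
    (Φ : E n → ℂ) (hΦ : Measurable Φ) (hen : energy (fun _ => 1) Φ < ⊤) (z : E n)
    (hz : ‖z‖ < 1) :
    DD N (EE S al col Φ) z = - ∑ l ∈ sel S, (gg S l z * DD N (ZZ S al col Φ l) z +
      rad (gg S l) z * ZZ S al col Φ l z) := by
  have hzb : z ∈ Metric.ball (0 : E n) 1 := by simpa using hz
  have hg : ∀ l ∈ sel S, DifferentiableAt ℂ (gg S l) z := fun l hl =>
    (gg_diff S hA ((mem_sel S).1 hl).1 z hzb).differentiableAt (Metric.isOpen_ball.mem_nhds hzb)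
  have hZ : ∀ l ∈ sel S, DifferentiableAt ℂ (ZZ S al col Φ l) z := fun l _ =>
    (ZZ_diff S hA al hal col Φ hΦ.aestronglyMeasurable hen l z hzb).differentiableAt
      (Metric.isOpen_ball.mem_nhds hzb)
  have h0 : EE S al col Φ = fun z => - ∑ l ∈ sel S, gg S l z * ZZ S al col Φ l z := rfl
  rw [h0, DD_neg_sum N (sel S) (fun l z => gg S l z * ZZ S al col Φ l z) z
    (fun l hl => (hg l hl).mul (hZ l hl))]
  congr 1
  refine Finset.sum_congr rfl fun l hl => ?_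
  exact DD_mul N _ _ z (hg l hl) (hZ l hl)

lemma sel_sum {M : Type} [AddCommMonoid M] (f : ℕ → M) :
    ∑ l ∈ sel S, f l = ∑ l : Ix S, f l := by
  rw [sel_eq]
  exact (Finset.sum_coe_sort S.selF f).symm

lemma src_DDEE {Nc : ℕ} (hA : Adm S) (hΛ : 1 ≤ Λ) (al : ℕ) (hal : 1 ≤ al) (N : ℕ)
    (col : ℕ → Fin Nc) (Φ : E n → ℂ) (hΦ : Measurable Φ) (hen : energy (fun _ => 1) Φ < ⊤)
    (z : E n) (hz : ‖z‖ < 1) :
    src S (DD N (EE S al col Φ)) z ≤
      ∑ l : Ix S, ENNReal.ofReal (RFE.om (ts n hn) b m (WW S) (AA S) l z) *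
        ‖DD N (ZZ S al col Φ l) z‖ₑ +
      ENNReal.ofReal m * ∑ l : Ix S, ENNReal.ofReal
        (RFE.om (ts n hn) b m (WW S) (AA S) l z / (ts n hn).d z (WW S l)) *
          ‖ZZ S al col Φ l z‖ₑ := by
  have ha := a_pos' S hΛ z
  unfold src
  rw [DDEE_eq S hA al hal N col Φ hΦ hen z hz, norm_neg, Finset.mul_sum,
    ← Finset.sum_add_distrib, sel_sum]
  have h1 : ‖∑ l : Ix S, (gg S l z * DD N (ZZ S al col Φ l) z +
      rad (gg S l) z * ZZ S al col Φ l z)‖ / S.a z ≤ ∑ l : Ix S,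
      (RFE.om (ts n hn) b m (WW S) (AA S) l z * ‖DD N (ZZ S al col Φ l) z‖ +
      m * (RFE.om (ts n hn) b m (WW S) (AA S) l z / (ts n hn).d z (WW S l) *
          ‖ZZ S al col Φ l z‖)) := by
    rw [div_le_iff₀ ha, Finset.sum_mul]
    refine (norm_sum_le _ _).trans (Finset.sum_le_sum fun l _ => ?_)
    have hl := ((H262RU.Sel.mem_selF S).1 l.2).1
    have hr := rad_gg S hA hl hz
    rw [om_eq S hA l hz.le, ts_d n hn z (WW S l) hz.le (hA.1 _ hl).le]
    refine (norm_add_le _ _).trans ?_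
    rw [norm_mul, norm_mul]
    have hdd : ‖1 - inner ℂ z (WW S l)‖ = d z (S.C.w l) := rfl
    rw [hdd, add_mul]
    have e1 : ‖gg S l z‖ / S.a z * ‖DD N (ZZ S al col Φ l) z‖ * S.a z =
        ‖gg S l z‖ * ‖DD N (ZZ S al col Φ l) z‖ := by field_simp
    have e2 : m * (‖gg S l z‖ / S.a z / d z (S.C.w l) * ‖ZZ S al col Φ l z‖) * S.a z =
        (m * (‖gg S l z‖ / d z (S.C.w l))) * ‖ZZ S al col Φ l z‖ := by field_simp
    rw [e1, e2]
    gcongr
  have hom : ∀ l : Ix S, 0 ≤ RFE.om (ts n hn) b m (WW S) (AA S) l z := fun l => by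
    rw [om_eq S hA l hz.le]; exact div_nonneg (norm_nonneg _) ha.le
  have hd0 : ∀ l : Ix S, 0 ≤ (ts n hn).d z (WW S l) := fun l => by
    rw [ts_d n hn z (WW S l) hz.le (hA.1 _ ((H262RU.Sel.mem_selF S).1 l.2).1).le]
    exact norm_nonneg _
  refine (ENNReal.ofReal_le_ofReal h1).trans ?_
  rw [ENNReal.ofReal_sum_of_nonneg (fun l _ => by
    have := hom l
    have := hd0 l
    positivity)]
  refine Finset.sum_le_sum fun l _ => ?_
  have h2 := hom l
  have h3 := hd0 l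
  rw [ENNReal.ofReal_add (by positivity) (by positivity), ENNReal.ofReal_mul h2,
    ENNReal.ofReal_mul (by positivity), ENNReal.ofReal_mul (by positivity), ofReal_norm,
    ofReal_norm]

/-- part one: the sum with DD Z_l is bounded by the positive operator with multiplier chi -/
lemma partOne {Nc : ℕ} (hA : Adm S) (hΛ : 1 ≤ Λ) {C0 : ℝ} (hO : OwnOK S C0) (al : ℕ)
    (hal : 1 ≤ al + m) (col : ℕ → Fin Nc) (Φ : E n → ℂ) (hΦ : Measurable Φ)
    (hen : energy (fun _ => 1) Φ < ⊤) (z : E n) (hz : ‖z‖ < 1) :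
    ∑ l : Ix S, ENNReal.ofReal (RFE.om (ts n hn) b m (WW S) (AA S) l z) *
        ‖DD (n + (al + m)) (ZZ S (al + m) col Φ l) z‖ₑ ≤
      ENNReal.ofReal (CK1 n al m C0 hO.one * C0) *
      ∫⁻ w, RFE.kk (ts n hn) al ((ts n hn).n + 1 + al) z w *
        RFE.chi (ts n hn) b m (WW S) (AA S) (oo S hΛ) (cc S col) z w * src S Φ w
          ∂(ts n hn).V := by
  set K : ℝ := CK1 n al m C0 hO.one * C0 with hK
  set G : E n → ℝ≥0∞ := fun w => ENNReal.ofReal K *
    (RFE.kk (ts n hn) al ((ts n hn).n + 1 + al) z w * src S Φ w) with hG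
  have hGm : Measurable G :=
    Measurable.const_mul (Measurable.mul (kk_meas _ _ z) (src_meas S Φ hΦ)) _
  have h1 : ∀ l : Ix S, ‖DD (n + (al + m)) (ZZ S (al + m) col Φ l) z‖ₑ ≤
      ∫⁻ w, (if cc S col l = cc S col (oo S hΛ w) ∧ l ≠ oo S hΛ w then (1 : ℝ≥0∞) else 0) * G w
        ∂(ts n hn).V := by
    intro l
    refine (DDsum_bound S hA hΛ hO al hal Φ hΦ hen
      ((sel S).filter (fun i => col i = col l ∧ i ≠ l))
      (fun i hi => ((mem_sel S).1 (Finset.mem_filter.1 hi).1).1) z hz).trans (le_of_eq ?_)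
    change ∫⁻ w, _ ∂(ts n hn).V = _
    refine lintegral_congr fun w => ?_
    congr 1
    have h2 : own S w ∈ (sel S).filter (fun i => col i = col l ∧ i ≠ l) ↔
        (cc S col l = cc S col (oo S hΛ w) ∧ l ≠ oo S hΛ w) := by
      rw [Finset.mem_filter]
      have h3 := own_mem_sel S hΛ w
      constructor
      · rintro ⟨_, h4, h5⟩
        refine ⟨h4.symm, fun h6 => h5 ?_⟩
        rw [h6]; rfl
      · rintro ⟨h4, h5⟩
        refine ⟨h3, h4.symm, fun h6 => h5 ?_⟩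
        apply Subtype.ext
        exact h6.symm
    simp only [h2]
  have hset : ∀ l : Ix S, MeasurableSet {w | cc S col l = cc S col (oo S hΛ w) ∧ l ≠ oo S hΛ w} := by
    intro l
    have h3 : {w | cc S col l = cc S col (oo S hΛ w) ∧ l ≠ oo S hΛ w} =
        (own S) ⁻¹' {i | col l = col i ∧ (l : ℕ) ≠ i} := by
      ext w
      simp only [Set.mem_ofPred_eq, Set.mem_preimage]
      constructor
      · rintro ⟨h4, h5⟩
        exact ⟨h4, fun h6 => h5 (Subtype.ext h6)⟩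
      · rintro ⟨h4, h5⟩
        exact ⟨h4, fun h6 => h5 (congrArg Subtype.val h6)⟩
    rw [h3]
    exact own_fun_meas S hA.2.1 (MeasurableSet.of_discrete)
  have hiM : ∀ l : Ix S, Measurable (fun w =>
      (if cc S col l = cc S col (oo S hΛ w) ∧ l ≠ oo S hΛ w then (1 : ℝ≥0∞) else 0) * G w) :=
    fun l => (Measurable.ite (hset l) measurable_const measurable_const).mul hGm
  calc _ ≤ ∑ l : Ix S, ENNReal.ofReal (RFE.om (ts n hn) b m (WW S) (AA S) l z) *
        ∫⁻ w, (if cc S col l = cc S col (oo S hΛ w) ∧ l ≠ oo S hΛ w then (1 : ℝ≥0∞) else 0) * G w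
        ∂(ts n hn).V := Finset.sum_le_sum fun l _ => by
          gcongr
          exact h1 l
    _ = ∫⁻ w, ∑ l : Ix S, ENNReal.ofReal (RFE.om (ts n hn) b m (WW S) (AA S) l z) *
        ((if cc S col l = cc S col (oo S hΛ w) ∧ l ≠ oo S hΛ w then (1 : ℝ≥0∞) else 0) * G w)
        ∂(ts n hn).V := by
        rw [lintegral_finsetSum _ (fun l _ => (hiM l).const_mul _)]
        refine Finset.sum_congr rfl fun l _ => ?_
        rw [lintegral_const_mul' _ _ ENNReal.ofReal_ne_top]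
    _ = _ := by
        rw [← lintegral_const_mul' _ _ ENNReal.ofReal_ne_top]
        refine lintegral_congr fun w => ?_
        unfold RFE.chi
        have h5 : ∀ l : Ix S, ENNReal.ofReal (RFE.om (ts n hn) b m (WW S) (AA S) l z) *
          ((if cc S col l = cc S col (oo S hΛ w) ∧ l ≠ oo S hΛ w then (1 : ℝ≥0∞) else 0) * G w) =
          (if cc S col l = cc S col (oo S hΛ w) ∧ l ≠ oo S hΛ w then
            ENNReal.ofReal (RFE.om (ts n hn) b m (WW S) (AA S) l z) else 0) * G w := by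
          intro l
          split_ifs
          · rw [one_mul]
          · simp
        rw [Finset.sum_congr rfl (fun l _ => h5 l), ← Finset.sum_mul, hG]
        ring

end

end Pool.Agent.Helper19.RU
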