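import Mathlib
import Pool.Agent.Helper19.RU.L1
import Pool.Agent.Helper157.RF.K2
import Pool.Agent.Helper157.RF.K4

set_option autoImplicit false

open MeasureTheory Complex
open scoped ENNReal NNReal

namespace Pool.Agent.Helper19.RU

open Pool.Agent.HpBall Pool.Agent.Helper633.Geo

lemma lt_one_of_s {n : ℕ} {hn : 1 ≤ n} {z : E n} (h : 0 < (ts n hn).s z) : ‖z‖ < 1 := by
  by_contra h1
  rw [not_lt] at h1
  have h2 : (ts n hn).s z = s (ret z) := rfl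
  have h3 : ‖ret z‖ = 1 := by
    unfold ret
    rw [norm_smul, Complex.norm_real, Real.norm_eq_abs, max_eq_right h1, abs_of_pos (by positivity)]
    field_simp
  rw [h2, s, h3] at h
  norm_num at h

lemma s_pos_of_lt {n : ℕ} {hn : 1 ≤ n} {z : E n} (h : ‖z‖ < 1) : 0 < (ts n hn).s z := by
  rw [ts_s n hn z h.le]
  nlinarith [norm_nonneg z]

section

variable {n : ℕ} {hn : 1 ≤ n} {CL : ℝ} {b m : ℕ} {τ Λ : ℝ}
  (S : H262RU.Sel (ts n hn) CL b m τ Λ)

/-- the complex kernel whose integral over the boxes of i is Y_i -/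
noncomputable def KZ (al : ℕ) (Φ : E n → ℂ) (z w : E n) : ℂ :=
  cf S al Φ (own S w) w * kq (n + al) m w (S.C.w (own S w)) z

lemma wown_meas (hN : 0 < S.C.N) : Measurable (fun w => S.C.w (own S w)) :=
  (measurable_of_countable (fun i : ℕ => S.C.w i)).comp (own_fun_meas S hN)

lemma cf_own_meas (hN : 0 < S.C.N) (al : ℕ) (Φ : E n → ℂ) (hΦ : Measurable Φ) :
    Measurable (fun w => cf S al Φ (own S w) w) := by
  unfold cf
  refine (hΦ.mul ?_).mul ?_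
  · refine Measurable.pow_const ?_ _
    exact Complex.measurable_ofReal.comp (by fun_prop)
  · refine Measurable.inv ?_
    exact (measurable_of_countable (fun i : ℕ => (S.A i : ℂ) * (S.C.h i : ℂ) ^ m)).comp
      (own_fun_meas S hN)

lemma KZ_meas (hN : 0 < S.C.N) (al : ℕ) (Φ : E n → ℂ) (hΦ : Measurable Φ) (z : E n) :
    Measurable (KZ S al Φ z) := by
  unfold KZ
  exact (cf_own_meas S hN al Φ hΦ).mul
    (diff_int_kq_meas (n + al) m (fun w => S.C.w (own S w)) (wown_meas S hN) z)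

/-- integrability of the kernel -/
lemma KZ_int (hA : Adm S) (hΛ : 1 ≤ Λ) {C0 : ℝ} (hO : OwnOK S C0) (al : ℕ)
    (Φ : E n → ℂ) (hΦ : Measurable Φ) (hal : 1 ≤ al)
    (hen : energy (fun _ => 1) Φ < ⊤) (z : E n) (hz : ‖z‖ < 1) :
    Integrable (KZ S al Φ z) ((volume : Measure (E n)).restrict (Metric.ball 0 1)) := by
  have hsum : ∀ i ∈ S.selF, IntegrableOn (KZ S al Φ z) (Rg S i) := by
    intro i hi
    have hiN := ((H262RU.Sel.mem_selF S).1 hi).1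
    have h1 := YY_int S al hal Φ hΦ.aestronglyMeasurable hen i
    have h2 := (diff_int_diff_at ((volume : Measure (E n)).restrict (Rg S i))
      (by
        filter_upwards [ae_restrict_mem (Rg_meas S hA.2.1 i)] with w hw
        have : w ∈ Metric.ball (0 : E n) 1 := hw.1
        have : ‖w‖ < 1 := by simpa using this
        exact this.le) _ h1 (fun _ => S.C.w i) measurable_const
      (fun _ => (hA.1 i hiN).le) (n + al) m z hz).1
    refine h2.congr ?_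
    filter_upwards [ae_restrict_mem (Rg_meas S hA.2.1 i)] with w hw
    have hw2 : own S w = i := hw.2
    unfold KZ cf
    rw [hw2]
  have hU : Metric.ball (0 : E n) 1 = ⋃ i ∈ S.selF, Rg S i := by
    ext w
    simp only [Set.mem_iUnion]
    constructor
    · intro hw
      exact ⟨own S w, S.own_mem hΛ w, hw, rfl⟩
    · rintro ⟨i, _, hw, _⟩
      exact hw
  rw [hU]
  exact integrableOn_finset_iUnion.2 hsum

/-- sums of Y_i as integrals of the kernel -/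
lemma YYsum_eq (hA : Adm S) (hΛ : 1 ≤ Λ) {C0 : ℝ} (hO : OwnOK S C0) (al : ℕ)
    (Φ : E n → ℂ) (hΦ : Measurable Φ) (hal : 1 ≤ al)
    (hen : energy (fun _ => 1) Φ < ⊤) (I : Finset ℕ) (z : E n) (hz : ‖z‖ < 1) :
    ∑ i ∈ I, YY S al Φ i z = ∫ w in {w | own S w ∈ I}, KZ S al Φ z w ∂(ts n hn).V := by
  have h1 : ∀ i ∈ I, YY S al Φ i z = ∫ w in {w | own S w = i}, KZ S al Φ z w ∂(ts n hn).V := by
    intro i _
    rw [YY_eq S al Φ hA.2.1 i]
    change _ = ∫ w in {w | own S w = i}, KZ S al Φ z w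
      ∂((volume : Measure (E n)).restrict (Metric.ball 0 1))
    rw [Measure.restrict_restrict (own_meas S hA.2.1 i), Set.inter_comm]
    refine setIntegral_congr_fun (Rg_meas S hA.2.1 i) fun w hw => ?_
    have hw2 : own S w = i := hw.2
    simp only [KZ, cf, hw2]
  rw [Finset.sum_congr rfl h1]
  have h2 : {w | own S w ∈ I} = ⋃ i ∈ I, {w | own S w = i} := by
    ext w; simp
  rw [h2, integral_biUnion_finset I (fun i _ => own_meas S hA.2.1 i)]
  · intro i _ j _ hij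
    refine Set.disjoint_left.2 fun w hw1 hw2 => hij ?_
    have h3 : own S w = i := hw1
    have h4 : own S w = j := hw2
    exact h3.symm.trans h4
  · intro i _
    exact (KZ_int S hA hΛ hO al Φ hΦ hal hen z hz).integrableOn

lemma ZZ_int {Nc : ℕ} (hA : Adm S) (hΛ : 1 ≤ Λ) {C0 : ℝ} (hO : OwnOK S C0) (al : ℕ)
    (Φ : E n → ℂ) (hΦ : Measurable Φ) (hal : 1 ≤ al)
    (hen : energy (fun _ => 1) Φ < ⊤) (col : ℕ → Fin Nc) (l : Ix S) (z : E n) (hz : ‖z‖ < 1) :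
    ZZ S al col Φ l z = ∫ w in {w | cc S col (oo S hΛ w) = cc S col l ∧ oo S hΛ w ≠ l},
      KZ S al Φ z w ∂(ts n hn).V := by
  unfold ZZ
  rw [YYsum_eq S hA hΛ hO al Φ hΦ hal hen _ z hz]
  congr 2
  ext w
  simp only [Set.mem_ofPred_eq, Finset.mem_filter]
  constructor
  · rintro ⟨_, h4, h5⟩
    exact ⟨h4, fun h6 => h5 (congrArg Subtype.val h6)⟩
  · rintro ⟨h4, h5⟩
    exact ⟨own_mem_sel S hΛ w, h4, fun h6 => h5 (Subtype.ext h6)⟩

lemma XX_int {Nc : ℕ} (hA : Adm S) (hΛ : 1 ≤ Λ) {C0 : ℝ} (hO : OwnOK S C0) (al : ℕ)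
    (Φ : E n → ℂ) (hΦ : Measurable Φ) (hal : 1 ≤ al)
    (hen : energy (fun _ => 1) Φ < ⊤) (col : ℕ → Fin Nc) (c : Fin Nc) (z : E n) (hz : ‖z‖ < 1) :
    XX S al col Φ c z = ∫ w in {w | cc S col (oo S hΛ w) = c},
      KZ S al Φ z w ∂(ts n hn).V := by
  unfold XX
  rw [YYsum_eq S hA hΛ hO al Φ hΦ hal hen _ z hz]
  congr 2
  ext w
  simp only [Set.mem_ofPred_eq, Finset.mem_filter]
  constructor
  · rintro ⟨_, h4⟩
    exact h4
  · intro h4
    exact ⟨own_mem_sel S hΛ w, h4⟩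

lemma KZ_le (hA : Adm S) (hΛ : 1 ≤ Λ) {C0 : ℝ} (hO : OwnOK S C0) (al : ℕ) (Φ : E n → ℂ)
    (z w : E n) (hz : 0 < (ts n hn).s z) (hw : 0 < (ts n hn).s w) :
    ‖KZ S (al + m) Φ z w‖ₑ ≤ ENNReal.ofReal (CK0 n al m C0 hO.one * C0) *
        (RFE.kk (ts n hn) al ((ts n hn).n + al) z w * src S Φ w) :=
  cf_kq S hA hΛ hO al Φ w z (lt_one_of_s hw) (lt_one_of_s hz)

/-- constant of the difference estimate -/
noncomputable def CK2 (n al m : ℕ) (C0 : ℝ) (h : 1 ≤ C0) : ℝ :=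
  (RFK.kq_diff (n := n) al m C0 h).choose

lemma CK2_pos (n al m : ℕ) (C0 : ℝ) (h : 1 ≤ C0) : 0 < CK2 n al m C0 h :=
  (RFK.kq_diff (n := n) al m C0 h).choose_spec.1

lemma KZ_diff (hA : Adm S) (hΛ : 1 ≤ Λ) {C0 : ℝ} (hO : OwnOK S C0) (al : ℕ) (Φ : E n → ℂ)
    (v : E n) (hv : ‖v‖ < 1)
    (z w : E n) (x : ℝ) (hz : 0 < (ts n hn).s z) (hw : 0 < (ts n hn).s w) (hx : 0 < x)
    (h1 : x ≤ 8 * (ts n hn).d z w) (h2 : x ≤ 8 * (ts n hn).d v w) (h3 : (ts n hn).d z v ≤ x) :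
    ‖KZ S (al + m) Φ z w - KZ S (al + m) Φ v w‖ₑ ≤ ENNReal.ofReal (CK2 n al m C0 hO.one * C0) *
      (ENNReal.ofReal (Real.sqrt ((ts n hn).d z v / x) *
        ((ts n hn).s w ^ al / x ^ ((ts n hn).n + al))) * src S Φ w) := by
  have hz1 := lt_one_of_s hz
  have hw1 := lt_one_of_s hw
  have hi := (own_spec S w).1
  have e1 : (ts n hn).d z w = d z w := ts_d n hn z w hz1.le hw1.le
  have e2 : (ts n hn).d v w = d v w := ts_d n hn v w hv.le hw1.le
  have e3 : (ts n hn).d z v = d z v := ts_d n hn z v hz1.le hv.le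
  have e4 : (ts n hn).s w = s w := ts_s n hn w hw1.le
  have e5 : (ts n hn).n = n := rfl
  rw [e1] at h1
  rw [e2] at h2
  rw [e3] at h3 ⊢
  rw [e4, e5]
  have h := (RFK.kq_diff (n := n) al m C0 hO.one).choose_spec.2 w (S.C.w (own S w)) z v x hw1
    (hA.1 _ hi) hz1 hv hx (hO.near w hw1) h1 h2 h3
  have e6 : KZ S (al + m) Φ z w - KZ S (al + m) Φ v w = cf S (al + m) Φ (own S w) w *
      (kq (n + (al + m)) m w (S.C.w (own S w)) z - kq (n + (al + m)) m w (S.C.w (own S w)) v) := by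
    unfold KZ; ring
  rw [e6]
  have hs0 : 0 ≤ s w := by rw [← e4]; exact hw.le
  refine cf_bound S hA hΛ hO (al + m) Φ w hw1 _ _ _ (CK2_pos n al m C0 hO.one).le
    (by positivity) ?_
  rw [show n + (al + m) = n + al + m by omega]
  exact h

end

/-- L2 -/
theorem ZZ_bound (n : ℕ) (hn : 1 ≤ n) (al m : ℕ) (hal : 2 ≤ al) (C0 : ℝ) (hC0 : 1 ≤ C0) :
    ∃ C : ℝ, 0 < C ∧ ∀ (CL : ℝ) (b : ℕ) (τ Λ : ℝ) (S : H262RU.Sel (ts n hn) CL b m τ Λ), Adm S →
      ∀ hΛ : 1 ≤ Λ, OwnOK S C0 → ∀ (Nc : ℕ) (col : ℕ → Fin Nc) (r : ℝ), 32 ≤ r → C0 < r ^ 2 →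
      ∀ (v : Ix S → E n) (l : Ix S), ‖v l‖ < 1 →
      (ts n hn).d (v l) (WW S l) ≤ 4 * r * (ts n hn).s (WW S l) →
      ∀ Φ : E n → ℂ, Measurable Φ → energy (fun _ => 1) Φ < ⊤ → ∀ z : E n, ‖z‖ < 1 →
      ‖ZZ S (al + m) col Φ l z‖ₑ ≤ ENNReal.ofReal C *
        RFE.BL (ts n hn) al r (WW S) (oo S hΛ) (cc S col) v
          (fun l' => ‖XX S (al + m) col Φ (col l') (v l')‖ₑ) (src S Φ) l z := by
  have hd : ∀ w, Measurable (fun z => (ts n hn).d z w) := (ts n hn).d_meas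
  obtain ⟨C, hC, hZ⟩ := RFE.Z_bound (ts n hn) hd (ts_V_pos n hn) al C0
    (CK0 n al m C0 hC0 * C0) (CK2 n al m C0 hC0 * C0) hC0
    (mul_nonneg (CK0_pos n al m C0 hC0).le (by linarith))
    (mul_nonneg (CK2_pos n al m C0 hC0).le (by linarith))
  refine ⟨C, hC, ?_⟩
  intro CL b τ Λ S hA hΛ hO Nc col r hr hr2 v l hvl hvd Φ hΦ hen z hz
  have hown : ∀ i : Ix S, MeasurableSet {z | oo S hΛ z = i} := by
    intro i
    have h1 : {z | oo S hΛ z = i} = {z | own S z = i} := by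
      ext w
      simp only [Set.mem_ofPred_eq]
      exact ⟨fun h => congrArg Subtype.val h, fun h => Subtype.ext h⟩
    rw [h1]
    exact own_meas S hA.2.1 i
  have hnear : ∀ z, 0 < (ts n hn).s z → (ts n hn).d z (WW S (oo S hΛ z)) ≤
      C0 * (ts n hn).s (WW S (oo S hΛ z)) := by
    intro w hw
    have hw1 := lt_one_of_s hw
    have hi := hA.1 _ (own_spec S w).1
    have h1 := hO.near w hw1
    have e1 : (ts n hn).d w (S.C.w (own S w)) = d w (S.C.w (own S w)) :=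
      ts_d n hn _ _ hw1.le hi.le
    have e2 : (ts n hn).s (S.C.w (own S w)) = s (S.C.w (own S w)) := ts_s n hn _ hi.le
    change (ts n hn).d w (S.C.w (own S w)) ≤ C0 * (ts n hn).s (S.C.w (own S w))
    rw [e1, e2]
    exact h1
  have hlN := ((H262RU.Sel.mem_selF S).1 l.2).1
  have hWl : 0 < (ts n hn).s (WW S l) := s_pos_of_lt (hA.1 _ hlN)
  have hh := hZ (Ix S) (Fin Nc) (WW S) (oo S hΛ) (cc S col) hown hnear r hr hr2 v l hWl
    (s_pos_of_lt hvl) hvd (KZ S (al + m) Φ) (src S Φ) (src_meas S Φ hΦ)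
    (KZ_meas S hA.2.1 (al + m) Φ hΦ)
    (fun z hz => by
      have h1 := (KZ_int S hA hΛ hO (al + m) Φ hΦ (by omega) hen z (lt_one_of_s hz)).2
      exact h1)
    (fun z w hz hw => KZ_le S hA hΛ hO al Φ z w hz hw)
    (fun z w x hz hw hx h1 h2 h3 => KZ_diff S hA hΛ hO al Φ (v l) hvl z w x hz hw hx h1 h2 h3)
    z (s_pos_of_lt hz)
  rw [← ZZ_int S hA hΛ hO (al + m) Φ hΦ (by omega) hen col l z hz] at hh
  refine hh.trans ?_
  have hXl : ‖XX S (al + m) col Φ (col l) (v l)‖ₑ =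
      ‖∫ w in {w | cc S col (oo S hΛ w) = cc S col l}, KZ S (al + m) Φ (v l) w ∂(ts n hn).V‖ₑ := by
    rw [XX_int S hA hΛ hO (al + m) Φ hΦ (by omega) hen col (col l) (v l) hvl]
    rfl
  gcongr
  unfold RFE.BL
  exact add_le_add (add_le_add le_rfl hXl.symm.le) le_rfl

/-- bound of Z_l by the full integral -/
theorem ZZ_full (n : ℕ) (hn : 1 ≤ n) (al m : ℕ) (hal : 2 ≤ al) {CL : ℝ} {b : ℕ} {τ Λ : ℝ}
    (S : H262RU.Sel (ts n hn) CL b m τ Λ) (hA : Adm S) (hΛ : 1 ≤ Λ) {C0 : ℝ} (hO : OwnOK S C0)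
    (Nc : ℕ) (col : ℕ → Fin Nc) (l : Ix S)
    (Φ : E n → ℂ) (hΦ : Measurable Φ) (hen : energy (fun _ => 1) Φ < ⊤) (z : E n) (hz : ‖z‖ < 1) :
    ‖ZZ S (al + m) col Φ l z‖ₑ ≤ ENNReal.ofReal (CK0 n al m C0 hO.one * C0) *
      ∫⁻ w in {w | cc S col (oo S hΛ w) = cc S col l ∧ oo S hΛ w ≠ l},
        RFE.kk (ts n hn) al ((ts n hn).n + al) z w * src S Φ w ∂(ts n hn).V := by
  rw [ZZ_int S hA hΛ hO (al + m) Φ hΦ (by omega) hen col l z hz]
  refine (enorm_integral_le_lintegral_enorm _).trans ?_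
  rw [← lintegral_const_mul' _ _ ENNReal.ofReal_ne_top]
  refine lintegral_mono_ae ?_
  refine ae_restrict_of_ae ?_
  filter_upwards [ts_V_pos n hn] with w hw
  exact KZ_le S hA hΛ hO al Φ z w (s_pos_of_lt hz) hw

end Pool.Agent.Helper19.RU
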