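import Mathlib
import Pool.Agent.Helper19.RU.L2b
import Pool.Agent.Helper19.RU.Embed
import Pool.Agent.Helper19.RU.F3
import Pool.Agent.Helper157.RF.E10

set_option autoImplicit false

open MeasureTheory Complex
open scoped ENNReal NNReal

namespace Pool.Agent.Helper19.RU

open Pool.Agent.HpBall Pool.Agent.Helper633.Geo

/-- the source restricted to the boxes of one colour -/
noncomputable def srcC {n : ℕ} {hn : 1 ≤ n} {CL : ℝ} {b m : ℕ} {τ Λ : ℝ}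
    (S : H262RU.Sel (ts n hn) CL b m τ Λ) {Nc : ℕ} (col : ℕ → Fin Nc) (Φ : E n → ℂ) (c : Fin Nc)
    (w : E n) : ℝ≥0∞ := if col (own S w) = c then src S Φ w else 0

lemma srcC_meas {n : ℕ} {hn : 1 ≤ n} {CL : ℝ} {b m : ℕ} {τ Λ : ℝ}
    (S : H262RU.Sel (ts n hn) CL b m τ Λ) (hA : Adm S) {Nc : ℕ} (col : ℕ → Fin Nc) (Φ : E n → ℂ)
    (hΦ : Measurable Φ) (c : Fin Nc) : Measurable (srcC S col Φ c) := by
  unfold srcC
  refine Measurable.ite ?_ (src_meas S Φ hΦ) measurable_const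
  have : {w | col (own S w) = c} = (own S) ⁻¹' {i | col i = c} := rfl
  rw [this]
  exact own_fun_meas S hA.2.1 MeasurableSet.of_discrete

lemma sum_srcC {n : ℕ} {hn : 1 ≤ n} {CL : ℝ} {b m : ℕ} {τ Λ : ℝ}
    (S : H262RU.Sel (ts n hn) CL b m τ Λ) (hA : Adm S) {Nc : ℕ} (col : ℕ → Fin Nc) (Φ : E n → ℂ)
    (hΦ : Measurable Φ) :
    ∑ c, RFE.nrm (ts n hn) (srcC S col Φ c) = energy S.a Φ := by
  rw [← nrm_src]
  unfold RFE.nrm
  have hm : ∀ c : Fin Nc, Measurable (fun w => ENNReal.ofReal ((ts n hn).s w) *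
      srcC S col Φ c w ^ 2) := fun c => (ts n hn).s_meas.ennreal_ofReal.mul
    ((srcC_meas S hA col Φ hΦ c).pow_const 2)
  rw [← lintegral_finsetSum _ (fun c _ => hm c)]
  refine lintegral_congr fun w => ?_
  rw [← Finset.mul_sum]
  congr 1
  unfold srcC
  have h1 : ∀ c : Fin Nc, (if col (own S w) = c then src S Φ w else 0) ^ 2 =
      (if col (own S w) = c then src S Φ w ^ 2 else 0) := by
    intro c
    split_ifs
    · rfl
    · simp
  rw [Finset.sum_congr rfl (fun c _ => h1 c), Finset.sum_ite_eq Finset.univ (col (own S w))]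
  simp

/-- energy of X_c by the source of colour c -/
theorem XX_energy_c (n : ℕ) (hn : 1 ≤ n) (m al : ℕ) (hal : 2 ≤ al) (C0 : ℝ) (hC0 : 1 ≤ C0) :
    ∃ C : ℝ, 0 < C ∧ ∀ (CL : ℝ) (b : ℕ) (τ Λ : ℝ) (S : H262RU.Sel (ts n hn) CL b m τ Λ), Adm S →
      1 ≤ Λ → OwnOK S C0 → ∀ (Nc : ℕ) (col : ℕ → Fin Nc) (Φ : E n → ℂ), Measurable Φ →
      energy (fun _ => 1) Φ < ⊤ → ∀ c,
      energy (fun _ => 1) (DD (n + (al + m)) (XX S (al + m) col Φ c)) ≤
        ENNReal.ofReal C * RFE.nrm (ts n hn) (srcC S col Φ c) := by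
  obtain ⟨CI, hCI, hpart⟩ := RFE.partI (ts n hn) (ts_d_meas n hn) (ts_V_pos n hn) al hal
  set K : ℝ := CK1 n al m C0 hC0 * C0 with hK
  have hK0 : 0 < K := mul_pos (CK1_pos n al m C0 hC0) (by linarith)
  refine ⟨K ^ 2 * (CI * 2), by positivity, ?_⟩
  intro CL b τ Λ S hA hΛ hO Nc col Φ hΦ hen c
  have h1 := hpart (fun _ _ => 1) measurable_const 1 1 1 le_rfl (fun _ _ _ _ => le_rfl)
    (fun _ _ _ _ _ _ => le_rfl) (srcC S col Φ c) (srcC_meas S hA col Φ hΦ c)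
  rw [energy_one]
  have h2 : ∫⁻ w in Metric.ball (0 : E n) 1, ENNReal.ofReal (‖DD (n + (al + m))
      (XX S (al + m) col Φ c) w‖ ^ 2 * (1 - ‖w‖ ^ 2)) ≤
      ENNReal.ofReal (K ^ 2) * ∫⁻ z, ENNReal.ofReal ((ts n hn).s z) *
        (∫⁻ w, RFE.kk (ts n hn) al ((ts n hn).n + 1 + al) z w * 1 * srcC S col Φ c w
          ∂(ts n hn).V) ^ 2 ∂(ts n hn).V := by
    rw [← lintegral_const_mul' _ _ ENNReal.ofReal_ne_top]
    refine setLIntegral_mono' Metric.isOpen_ball.measurableSet fun z hz => ?_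
    have hz1 : ‖z‖ < 1 := by simpa using hz
    have h0 : 0 ≤ 1 - ‖z‖ ^ 2 := by nlinarith [norm_nonneg z]
    have h3 := DDsum_bound S hA hΛ hO al (by omega) Φ hΦ hen
      ((sel S).filter (fun i => col i = c))
      (fun i hi => ((mem_sel S).1 (Finset.mem_filter.1 hi).1).1) z hz1
    have h4 : ‖DD (n + (al + m)) (XX S (al + m) col Φ c) z‖ₑ ≤ ENNReal.ofReal K *
        ∫⁻ w, RFE.kk (ts n hn) al ((ts n hn).n + 1 + al) z w * 1 * srcC S col Φ c w
          ∂(ts n hn).V := by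
      refine h3.trans ?_
      rw [← lintegral_const_mul' _ _ ENNReal.ofReal_ne_top]
      refine lintegral_mono fun w => ?_
      unfold srcC
      by_cases hc : col (own S w) = c
      · rw [if_pos hc, if_pos (Finset.mem_filter.2 ⟨own_mem_sel S hΛ w, hc⟩), one_mul, mul_one]
      · have hc2 : own S w ∉ (sel S).filter (fun i => col i = c) :=
          fun h => hc (Finset.mem_filter.1 h).2
        rw [if_neg hc2, zero_mul]
        exact zero_le
    rw [ts_s n hn z hz1.le, mul_comm (‖_‖ ^ 2), ENNReal.ofReal_mul h0, ENNReal.ofReal_pow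
      (norm_nonneg _), ofReal_norm, ENNReal.ofReal_pow hK0.le]
    calc ENNReal.ofReal (1 - ‖z‖ ^ 2) * ‖DD (n + (al + m)) (XX S (al + m) col Φ c) z‖ₑ ^ 2
        ≤ ENNReal.ofReal (1 - ‖z‖ ^ 2) * (ENNReal.ofReal K *
        ∫⁻ w, RFE.kk (ts n hn) al ((ts n hn).n + 1 + al) z w * 1 * srcC S col Φ c w
          ∂(ts n hn).V) ^ 2 := by
          gcongr
      _ = _ := by rw [mul_pow]; ring
  refine h2.trans ((mul_le_mul_right h1 _).trans (le_of_eq ?_))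
  rw [ENNReal.ofReal_mul (by positivity), ENNReal.ofReal_mul hCI.le]
  have e1 : (1 : ℝ≥0∞) ^ 2 + 1 ^ 2 * ENNReal.ofReal (1 / 1) = ENNReal.ofReal 2 := by
    norm_num
  rw [e1]
  ring

/-- L3 -/
theorem x_small (n : ℕ) (hn : 1 ≤ n) (hn2 : 2 ≤ n) (al m b : ℕ) (hal : 2 ≤ al)
    (C0 : ℝ) (hC0 : 1 ≤ C0) (ε : ℝ) (hε : 0 < ε) :
    ∃ r0 : ℝ, 1 ≤ r0 ∧ ∀ r : ℝ, r0 ≤ r → ∃ P0 K0 : ℝ, 1 ≤ P0 ∧ 1 ≤ K0 ∧
      ∀ (CL τ Λ : ℝ) (S : H262RU.Sel (ts n hn) CL b m τ Λ), Adm S →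
      ∀ hΛ : 1 ≤ Λ, OwnOK S C0 →
      RFE.Fam (ts n hn) b m C0 (WW S) (AA S) (oo S hΛ) →
      ∀ (Nc : ℕ) (col : ℕ → Fin Nc) (P K2 : ℝ), P0 ≤ P → K0 ≤ K2 →
      RFE.Sep (ts n hn) (WW S) (AA S) (cc S col) P K2 →
      ∀ (v : Ix S → E n), (∀ l, ‖v l‖ < 1) →
      (∀ l, r ^ 2 * (ts n hn).s (WW S l) ≤ 2 → r * (ts n hn).s (WW S l) / 4 ≤ (ts n hn).s (v l) ∧
        (ts n hn).d (v l) (WW S l) ≤ 4 * r * (ts n hn).s (WW S l)) →
      ∀ Φ : E n → ℂ, Measurable Φ → energy (fun _ => 1) Φ < ⊤ →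
      ∑ l ∈ Finset.univ.filter (fun l => r ^ 2 * (ts n hn).s (WW S l) ≤ 2),
        ENNReal.ofReal ((ts n hn).s (WW S l) ^ n) * ‖XX S (al + m) col Φ (col l) (v l)‖ₑ ^ 2 ≤
        ENNReal.ofReal ε * energy S.a Φ := by
  obtain ⟨C1, hC1, hemb⟩ := embed n hn hn2
  obtain ⟨C2, hC2, hF3⟩ := F3 n hn (n + (al + m)) (by omega)
  obtain ⟨C3, hC3, hX⟩ := XX_energy_c n hn m al hal C0 hC0
  set ε1 : ℝ := ε / (C1 * C2 * C3) with hε1
  have hε1p : 0 < ε1 := by positivity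
  obtain ⟨r0, hr0, hr⟩ := RFE.embed_small (ts n hn) b m C0 hC0 ε1 hε1p
  refine ⟨r0, hr0, fun r hrr => ?_⟩
  obtain ⟨P0, K0, hP0, hK0, hPK⟩ := hr r hrr
  refine ⟨P0, K0, hP0, hK0, ?_⟩
  intro CL τ Λ S hA hΛ hO hFam Nc col P K2 hP hK hSep v hv1 hv2 Φ hΦ hen
  have hmass := hPK (Ix S) (Fin Nc) (WW S) (AA S) (oo S hΛ) (cc S col) hFam P K2 hP hK hSep v hv2
  classical
  have hWp : ∀ l : Ix S, 0 < (ts n hn).s (WW S l) := fun l =>
    s_pos_of_lt (hA.1 _ ((H262RU.Sel.mem_selF S).1 l.2).1)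
  -- one colour
  have hone : ∀ c : Fin Nc, ∑ l ∈ Finset.univ.filter (fun l : Ix S => cc S col l = c ∧
      r ^ 2 * (ts n hn).s (WW S l) ≤ 2), ENNReal.ofReal ((ts n hn).s (WW S l) ^ n) *
        ‖XX S (al + m) col Φ c (v l)‖ₑ ^ 2 ≤
      ENNReal.ofReal ε * RFE.nrm (ts n hn) (srcC S col Φ c) := by
    intro c
    have hH2 := hF3 (XX S (al + m) col Φ c)
      (XX_diff S hA (al + m) (by omega) col Φ hΦ.aestronglyMeasurable hen c)
    have h1 := hemb (Finset.univ.filter (fun l : Ix S => cc S col l = c ∧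
      r ^ 2 * (ts n hn).s (WW S l) ≤ 2)) v (fun l => (ts n hn).s (WW S l) ^ n)
      (fun l _ => pow_nonneg (hWp l).le _) (fun l _ => hv1 l) ε1 hε1p.le
      (by
        intro z ρ hρ J hJ hJd
        refine le_trans ?_ (hmass c z ρ hρ)
        refine Finset.sum_le_sum_of_subset_of_nonneg ?_ (fun l _ _ => pow_nonneg (hWp l).le _)
        intro l hl
        have h2 := Finset.mem_filter.1 (hJ hl)
        exact Finset.mem_filter.2 ⟨Finset.mem_univ _, h2.2.1, h2.2.2, hJd l hl⟩)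
      _ _ hH2
    refine h1.trans ?_
    have h3 := hX CL b τ Λ S hA hΛ hO Nc col Φ hΦ hen c
    calc ENNReal.ofReal (C1 * ε1) * (ENNReal.ofReal C2 * energy (fun _ => 1)
          (DD (n + (al + m)) (XX S (al + m) col Φ c)))
        ≤ ENNReal.ofReal (C1 * ε1) * (ENNReal.ofReal C2 * (ENNReal.ofReal C3 *
          RFE.nrm (ts n hn) (srcC S col Φ c))) := by gcongr
      _ = _ := by
          rw [← mul_assoc, ← mul_assoc, ← ENNReal.ofReal_mul (by positivity),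
            ← ENNReal.ofReal_mul (by positivity)]
          congr 2
          rw [hε1]
          field_simp
  rw [← sum_srcC S hA col Φ hΦ, Finset.mul_sum]
  refine le_trans (le_of_eq ?_) (Finset.sum_le_sum fun c _ => hone c)
  rw [← Finset.sum_fiberwise (Finset.univ.filter (fun l : Ix S =>
    r ^ 2 * (ts n hn).s (WW S l) ≤ 2)) (fun l : Ix S => cc S col l)]
  refine Finset.sum_congr rfl fun c _ => ?_
  rw [Finset.filter_filter]
  have hfil : Finset.univ.filter (fun l : Ix S => r ^ 2 * (ts n hn).s (WW S l) ≤ 2 ∧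
      cc S col l = c) = Finset.univ.filter (fun l : Ix S => cc S col l = c ∧
      r ^ 2 * (ts n hn).s (WW S l) ≤ 2) := by
    ext l
    simp only [Finset.mem_filter, Finset.mem_univ, true_and]
    exact and_comm
  rw [hfil]
  refine Finset.sum_congr rfl fun l hl => ?_
  have h4 : col (l : ℕ) = c := (Finset.mem_filter.1 hl).2.1
  rw [h4]

end Pool.Agent.Helper19.RU
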