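import Mathlib
import Pool.Agent.Helper19.RU.L3
import Pool.Agent.Helper157.RF.K3
import Pool.Agent.Helper157.RF.ETotal

set_option autoImplicit false

open MeasureTheory Complex
open scoped ENNReal NNReal

namespace Pool.Agent.Helper19.RU

open Pool.Agent.HpBall Pool.Agent.Helper633.Geo

section

variable {n : ℕ} {hn : 1 ≤ n} {CL : ℝ} {b m : ℕ} {τ Λ : ℝ}
  (S : H262RU.Sel (ts n hn) CL b m τ Λ)

lemma ownOK_of_fam (hA : Adm S) (hΛ : 1 ≤ Λ) {C0 : ℝ} (hC0 : 1 ≤ C0)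
    (hF : RFE.Fam (ts n hn) b m C0 (WW S) (AA S) (oo S hΛ)) : OwnOK S C0 where
  one := hC0
  near := by
    intro w hw
    have h := hF.near w (s_pos_of_lt hw)
    have hi := hA.1 _ (own_spec S w).1
    have e1 : (ts n hn).d w (S.C.w (own S w)) = d w (S.C.w (own S w)) :=
      ts_d n hn _ _ hw.le hi.le
    have e2 : (ts n hn).s (S.C.w (own S w)) = s (S.C.w (own S w)) := ts_s n hn _ hi.le
    change (ts n hn).d w (S.C.w (own S w)) ≤ C0 * (ts n hn).s (S.C.w (own S w)) at h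
    rw [e1, e2] at h
    exact h
  a_le := by
    intro w hw
    have h := hF.a_le w (s_pos_of_lt hw)
    rw [aw_eq] at h
    exact h

/-- bound of one DD Z_l by an integral over the boxes of the same colour -/
lemma DDZ_bound {Nc : ℕ} (hA : Adm S) (hΛ : 1 ≤ Λ) {C0 : ℝ} (hO : OwnOK S C0) (al : ℕ)
    (hal : 1 ≤ al + m) (col : ℕ → Fin Nc) (Φ : E n → ℂ) (hΦ : Measurable Φ)
    (hen : energy (fun _ => 1) Φ < ⊤) (l : Ix S) (z : E n) (hz : ‖z‖ < 1) :
    ‖DD (n + (al + m)) (ZZ S (al + m) col Φ l) z‖ₑ ≤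
      ENNReal.ofReal (CK1 n al m C0 hO.one * C0) *
      ∫⁻ w in {w | cc S col (oo S hΛ w) = cc S col l ∧ oo S hΛ w ≠ l},
        RFE.kk (ts n hn) al ((ts n hn).n + 1 + al) z w * src S Φ w ∂(ts n hn).V := by
  refine (DDsum_bound S hA hΛ hO al hal Φ hΦ hen
      ((sel S).filter (fun i => col i = col l ∧ i ≠ l))
      (fun i hi => ((mem_sel S).1 (Finset.mem_filter.1 hi).1).1) z hz).trans ?_
  change ∫⁻ w, _ ∂(ts n hn).V ≤ _
  rw [← lintegral_const_mul' _ _ ENNReal.ofReal_ne_top]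
  have hset : MeasurableSet {w | cc S col (oo S hΛ w) = cc S col l ∧ oo S hΛ w ≠ l} := by
    have h3 : {w | cc S col (oo S hΛ w) = cc S col l ∧ oo S hΛ w ≠ l} =
        (own S) ⁻¹' {i | col i = col l ∧ i ≠ (l : ℕ)} := by
      ext w
      simp only [Set.mem_ofPred_eq, Set.mem_preimage]
      constructor
      · rintro ⟨h4, h5⟩
        exact ⟨h4, fun h6 => h5 (Subtype.ext h6)⟩
      · rintro ⟨h4, h5⟩
        exact ⟨h4, fun h6 => h5 (congrArg Subtype.val h6)⟩
    rw [h3]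
    exact own_fun_meas S hA.2.1 (MeasurableSet.of_discrete)
  rw [← lintegral_indicator hset]
  refine lintegral_mono fun w => ?_
  by_cases hw : w ∈ {w | cc S col (oo S hΛ w) = cc S col l ∧ oo S hΛ w ≠ l}
  · rw [Set.indicator_of_mem hw]
    calc _ ≤ 1 * (ENNReal.ofReal (CK1 n al m C0 hO.one * C0) *
          (RFE.kk (ts n hn) al ((ts n hn).n + 1 + al) z w * src S Φ w)) := by
          gcongr
          split_ifs
          · exact le_rfl
          · exact zero_le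
      _ = _ := one_mul _
  · rw [Set.indicator_of_notMem hw]
    have h2 : own S w ∉ (sel S).filter (fun i => col i = col l ∧ i ≠ l) := by
      intro h3
      have h4 := (Finset.mem_filter.1 h3).2
      exact hw ⟨h4.1, fun h5 => h4.2 (congrArg Subtype.val h5)⟩
    rw [if_neg h2, zero_mul]

lemma exists_v' (hA : Adm S) (r : ℝ) (hr : 4 ≤ r) : ∃ v : Ix S → E n, (∀ l, ‖v l‖ < 1) ∧
    (∀ l, r ^ 2 * (ts n hn).s (WW S l) ≤ 2 → r * (ts n hn).s (WW S l) / 4 ≤ (ts n hn).s (v l) ∧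
        (ts n hn).d (v l) (WW S l) ≤ 4 * r * (ts n hn).s (WW S l)) := by
  have h : ∀ l : Ix S, ∃ v : E n, ‖v‖ < 1 ∧ (r ^ 2 * (ts n hn).s (WW S l) ≤ 2 →
      r * (ts n hn).s (WW S l) / 4 ≤ (ts n hn).s v ∧
        (ts n hn).d v (WW S l) ≤ 4 * r * (ts n hn).s (WW S l)) := by
    intro l
    have hW : ‖WW S l‖ < 1 := hA.1 _ ((H262RU.Sel.mem_selF S).1 l.2).1
    have e2 : (ts n hn).s (WW S l) = s (WW S l) := ts_s n hn _ hW.le
    by_cases h1 : r ^ 2 * s (WW S l) ≤ 2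
    · obtain ⟨v, hv1, hv2, hv3⟩ := RFK.exists_v r hr (WW S l) hW h1
      refine ⟨v, hv1, fun _ => ?_⟩
      have e3 : (ts n hn).s v = s v := ts_s n hn _ hv1.le
      have e4 : (ts n hn).d v (WW S l) = d v (WW S l) := ts_d n hn _ _ hv1.le hW.le
      rw [e2, e3, e4]
      exact ⟨hv2, hv3⟩
    · refine ⟨0, by simp, fun h2 => absurd ?_ h1⟩
      rw [← e2]; exact h2
  choose v hv1 hv2 using h
  exact ⟨v, hv1, hv2⟩

end

/-- (E1) from the abstract estimate -/
theorem EE_small (n : ℕ) (hn : 1 ≤ n) (hn2 : 2 ≤ n) (b m al : ℕ) (hal : 2 ≤ al)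
    (C0 : ℝ) (hC0 : 1 ≤ C0) (hb : 1 ≤ b) (hbm : b + n + 2 ≤ m) (κ : ℝ) (hκ : 0 < κ) :
    ∃ P K2 : ℝ, 1 ≤ P ∧ 1 ≤ K2 ∧
      ∀ (CL τ Λ : ℝ) (S : H262RU.Sel (ts n hn) CL b m τ Λ), Adm S →
      ∀ hΛ : 1 ≤ Λ, RFE.Fam (ts n hn) b m C0 (WW S) (AA S) (oo S hΛ) →
      ∀ (Nc : ℕ) (col : ℕ → Fin Nc),
      RFE.Sep (ts n hn) (WW S) (AA S) (cc S col) P K2 →
      ∀ Φ : E n → ℂ, Measurable Φ → energy (fun _ => 1) Φ < ⊤ →
      energy S.a (DD (n + (al + m)) (EE S (al + m) col Φ)) ≤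
        ENNReal.ofReal κ * energy S.a Φ := by
  obtain ⟨C1, hC1, hZ⟩ := ZZ_bound n hn al m hal C0 hC0
  obtain ⟨C2, hC2, hT⟩ := RFE.E_total (ts n hn) (ts_d_meas n hn) (ts_V_pos n hn) b m al hb hbm hal
    C0 hC0
  have hc0 := CK0_pos n al m C0 hC0
  have hc1 := CK1_pos n al m C0 hC0
  -- the global constant
  set K : ℝ := CK1 n al m C0 hC0 * C0 + m * C1 + m * (CK0 n al m C0 hC0 * C0) with hK
  have hKp : 0 < K := by positivity
  obtain ⟨ra, hra, hT2⟩ := hT (κ / (2 * K ^ 2)) (by positivity)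
  obtain ⟨rb, hrb, hx2⟩ := x_small n hn hn2 al m b hal C0 hC0 (κ / (2 * K ^ 2 * C2))
    (by positivity)
  set r : ℝ := max (max ra rb) (32 + C0) with hr
  have h1 : ra ≤ r := (le_max_left _ _).trans (le_max_left _ _)
  have h2 : rb ≤ r := (le_max_right _ _).trans (le_max_left _ _)
  have h3 : 32 + C0 ≤ r := le_max_right _ _
  obtain ⟨P1, K1, hP1, hK1, hT3⟩ := hT2 r h1
  obtain ⟨P2, K2, hP2, hK2, hx3⟩ := hx2 r h2
  refine ⟨max P1 P2, max K1 K2, hP1.trans (le_max_left _ _), hK1.trans (le_max_left _ _), ?_⟩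
  intro CL τ Λ S hA hΛ hF Nc col hSep Φ hΦ hen
  have hO := ownOK_of_fam S hA hΛ hC0 hF
  obtain ⟨v, hv1, hv2⟩ := exists_v' S hA r (by linarith)
  have hx4 := hx3 CL τ Λ S hA hΛ hO hF Nc col (max P1 P2) (max K1 K2) (le_max_right _ _)
    (le_max_right _ _) hSep v hv1 hv2 Φ hΦ hen
  set Ψ : E n → ℂ := DD (n + (al + m)) (EE S (al + m) col Φ) with hΨ
  set u : E n → ℝ≥0∞ := fun z => (ENNReal.ofReal K)⁻¹ * src S Ψ z with hu
  have hKtop : ENNReal.ofReal K ≠ ⊤ := ENNReal.ofReal_ne_top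
  have hK0 : ENNReal.ofReal K ≠ 0 := by
    rw [Ne, ENNReal.ofReal_eq_zero, not_le]; exact hKp
  have hT4 := hT3 (Ix S) (Fin Nc) (WW S) (AA S) (oo S hΛ) (cc S col) hF (max P1 P2) (max K1 K2)
    (le_max_left _ _) (le_max_left _ _) hSep v hv2
    (fun l => ‖XX S (al + m) col Φ (col l) (v l)‖ₑ) (src S Φ) (src_meas S Φ hΦ) u
    (by
      intro z hz
      have hz1 := lt_one_of_s hz
      have hp1 := src_DDEE S hA hΛ (al + m) (by omega) (n + (al + m)) col Φ hΦ hen z hz1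
      rw [hu]
      simp only
      rw [ENNReal.inv_mul_le_iff hK0 hKtop, mul_add]
      refine hp1.trans (add_le_add ?_ ?_)
      · rw [Finset.mul_sum]
        refine Finset.sum_le_sum fun l _ => ?_
        rw [← mul_assoc, mul_comm (ENNReal.ofReal K), mul_assoc]
        refine mul_le_mul_right ((DDZ_bound S hA hΛ hO al (by omega) col Φ hΦ hen l z hz1).trans ?_) _
        refine mul_le_mul_left (ENNReal.ofReal_le_ofReal ?_) _
        rw [hK]
        have : 0 ≤ m * C1 + m * (CK0 n al m C0 hC0 * C0) := by positivity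
        linarith
      · rw [Finset.mul_sum, Finset.mul_sum]
        refine Finset.sum_le_sum fun l _ => ?_
        rw [← mul_assoc, mul_comm (ENNReal.ofReal (m : ℝ)), mul_assoc, ← mul_assoc
          (ENNReal.ofReal K), mul_comm (ENNReal.ofReal K), mul_assoc]
        refine mul_le_mul_right ?_ _
        by_cases hs : r ^ 2 * (ts n hn).s (WW S l) ≤ 2
        · rw [if_pos hs]
          have h5 := hZ CL b τ Λ S hA hΛ hO Nc col r (by linarith)
            (by nlinarith) v l (hv1 l) (hv2 l hs).2 Φ hΦ hen z hz1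
          calc ENNReal.ofReal m * ‖ZZ S (al + m) col Φ l z‖ₑ ≤ ENNReal.ofReal m *
                (ENNReal.ofReal C1 * RFE.BL (ts n hn) al r (WW S) (oo S hΛ) (cc S col) v
                (fun l' => ‖XX S (al + m) col Φ (col l') (v l')‖ₑ) (src S Φ) l z) := by gcongr
            _ ≤ _ := by
                rw [← mul_assoc, ← ENNReal.ofReal_mul (Nat.cast_nonneg m)]
                gcongr
                rw [hK]
                have : 0 ≤ CK1 n al m C0 hC0 * C0 + m * (CK0 n al m C0 hC0 * C0) := by positivity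
                linarith
        · rw [if_neg hs]
          have h5 := ZZ_full n hn al m hal S hA hΛ hO Nc col l Φ hΦ hen z hz1
          calc ENNReal.ofReal m * ‖ZZ S (al + m) col Φ l z‖ₑ ≤ ENNReal.ofReal m *
                (ENNReal.ofReal (CK0 n al m C0 hO.one * C0) *
                ∫⁻ w in {w | cc S col (oo S hΛ w) = cc S col l ∧ oo S hΛ w ≠ l},
                  RFE.kk (ts n hn) al ((ts n hn).n + al) z w * src S Φ w ∂(ts n hn).V) := by
                gcongr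
            _ ≤ _ := by
                rw [← mul_assoc, ← ENNReal.ofReal_mul (Nat.cast_nonneg m)]
                gcongr
                rw [hK]
                have : 0 ≤ CK1 n al m C0 hC0 * C0 + m * C1 := by positivity
                linarith)
  rw [← nrm_src S Ψ]
  have hnu : RFE.nrm (ts n hn) (src S Ψ) = ENNReal.ofReal (K ^ 2) * RFE.nrm (ts n hn) u := by
    unfold RFE.nrm
    rw [← lintegral_const_mul' _ _ ENNReal.ofReal_ne_top]
    refine lintegral_congr fun z => ?_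
    rw [hu]
    simp only
    rw [mul_pow, ENNReal.ofReal_pow hKp.le]
    have e1 : ENNReal.ofReal K ^ 2 * ((ENNReal.ofReal K)⁻¹ ^ 2) = 1 := by
      rw [← mul_pow, ENNReal.mul_inv_cancel hK0 hKtop, one_pow]
    calc ENNReal.ofReal ((ts n hn).s z) * src S Ψ z ^ 2 =
        (ENNReal.ofReal K ^ 2 * ((ENNReal.ofReal K)⁻¹ ^ 2)) *
          (ENNReal.ofReal ((ts n hn).s z) * src S Ψ z ^ 2) := by rw [e1, one_mul]
      _ = _ := by ring
  rw [hnu]
  have hn' : (ts n hn).n = n := rfl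
  rw [hn'] at hT4
  calc ENNReal.ofReal (K ^ 2) * RFE.nrm (ts n hn) u
      ≤ ENNReal.ofReal (K ^ 2) * (ENNReal.ofReal (κ / (2 * K ^ 2)) * RFE.nrm (ts n hn) (src S Φ) +
        ENNReal.ofReal C2 * (ENNReal.ofReal (κ / (2 * K ^ 2 * C2)) * energy S.a Φ)) := by
        gcongr
        exact hT4.trans (by gcongr)
    _ = _ := by
        rw [nrm_src, mul_add, ← mul_assoc, ← mul_assoc, ← mul_assoc,
          ← ENNReal.ofReal_mul (by positivity), ← ENNReal.ofReal_mul (by positivity),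
          ← ENNReal.ofReal_mul (by positivity), ← add_mul,
          ← ENNReal.ofReal_add (by positivity) (by positivity)]
        congr 2
        field_simp
        ring

/-- block E from the abstract estimate -/
theorem eblock (n : ℕ) (hn : 1 ≤ n) (hn2 : 2 ≤ n) : EBlockProp n hn := by
  intro CL hCL
  obtain ⟨τ, Λ, G⟩ := H262RU.exists_good (ts n hn) CL hCL.le (n + 1) (2 * (n + 1) + n + 2) le_rfl
    (by omega)
  set b : ℕ := 2 * (n + 1) with hb
  set m : ℕ := 2 * (n + 1) + n + 2 with hm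
  set C0 : ℝ := H262RU.Sel.CF (ts n hn) CL (n + 1) m τ Λ with hC0
  have hC01 : 1 ≤ C0 := (H262RU.Sel.CF_ge G).2.2.2.2.2
  have hn' : (ts n hn).n = n := rfl
  refine ⟨b, m, (n + 1) + m, τ, Λ, by omega, ?_, ?_⟩
  · exact ⟨G.hCL, by rw [hn']; omega, by rw [hn'], G.hτ, G.hτ1, G.hΛm, G.hτ2, G.hτD⟩
  · intro κ hκ
    obtain ⟨P, K2, hP, hK2, hE⟩ := EE_small n hn hn2 b m (n + 1) (by omega) C0 hC01
      (by omega) (by omega) κ hκ
    obtain ⟨C, hC, hX⟩ := XX_energy n hn m (n + 1) (by omega) C0 hC01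
    refine ⟨⌊P * K2 ^ b / τ⌋₊ + 1, C, ?_⟩
    intro S hA
    obtain ⟨col, hcol⟩ := S.sep G.hτ P K2 (by linarith) (by linarith)
    refine ⟨col, ?_⟩
    intro Φ hΦ hen
    have hF : RFE.Fam (ts n hn) b m C0 (WW S) (AA S) (oo S G.hΛ) := S.fam G
    have hO := ownOK_of_fam S hA G.hΛ hC01 hF
    have hapos := a_pos' S G.hΛ
    obtain ⟨B, hB⟩ : ∃ B : ℝ, ∀ z, S.a z ≤ B := by
      obtain ⟨B, hB⟩ := S.a_bdd
      exact ⟨B, fun z => (le_abs_self _).trans (hB z)⟩
    have hen1 : energy (fun _ => 1) Φ < ⊤ :=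
      (energy_one_le S.a B hapos hB Φ).trans_lt (ENNReal.mul_lt_top ENNReal.ofReal_lt_top hen)
    exact ⟨hE CL τ Λ S hA G.hΛ hF _ col hcol Φ hΦ hen1,
      fun c => hX CL b τ Λ S hA G.hΛ hO _ col Φ hΦ hen1 c⟩

end Pool.Agent.Helper19.RU
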