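import Mathlib
import Pool.Agent.Helper19.RU.StepD

set_option autoImplicit false

open MeasureTheory Complex
open scoped ENNReal NNReal

namespace Pool.Agent.Helper19.RU

open Pool.Agent.HpBall Pool.Agent.Helper633.Geo

/-- the density u = |f|^{1/2} + 1 on the closed ball, 1 elsewhere -/
lemma exists_dens (n : ℕ) (hn : 1 ≤ n) (R : ℝ) (f : E n → ℂ) (hR : 1 < R)
    (hf : DifferentiableOn ℂ f (Metric.ball 0 R)) :
    ∃ u : H262RU.Dens (ts n hn), (∀ ζ, ‖ζ‖ = 1 → u.u ζ = ‖f ζ‖ ^ (1/2 : ℝ) + 1) ∧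
      ∀ ζ, 1 ≤ u.u ζ := by
  classical
  have hcont : ContinuousOn (fun ζ : E n => ‖f ζ‖ ^ (1/2 : ℝ) + 1) (Metric.closedBall 0 1) := by
    refine ContinuousOn.add ?_ continuousOn_const
    refine ContinuousOn.rpow_const ?_ (fun x _ => Or.inr (by norm_num))
    exact (hf.continuousOn.mono (Metric.closedBall_subset_ball hR)).norm
  obtain ⟨U, hU⟩ := (isCompact_closedBall (0 : E n) 1).bddAbove_image hcont
  let u0 : E n → ℝ := (Metric.closedBall (0 : E n) 1).piecewise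
    (fun ζ => ‖f ζ‖ ^ (1/2 : ℝ) + 1) (fun _ => 1)
  have hu0in : ∀ ζ, ‖ζ‖ ≤ 1 → u0 ζ = ‖f ζ‖ ^ (1/2 : ℝ) + 1 := fun ζ hζ =>
    Set.piecewise_eq_of_mem _ _ _ (by simpa using hζ)
  have hu0out : ∀ ζ, ¬ ‖ζ‖ ≤ 1 → u0 ζ = 1 := fun ζ hζ =>
    Set.piecewise_eq_of_notMem _ _ _ (by simpa using hζ)
  have h1 : ∀ ζ, 1 ≤ u0 ζ := by
    intro ζ
    by_cases h : ‖ζ‖ ≤ 1
    · rw [hu0in ζ h]
      have : 0 ≤ ‖f ζ‖ ^ (1/2 : ℝ) := by positivity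
      linarith
    · rw [hu0out ζ h]
  refine ⟨⟨u0, ?_, fun x => by linarith [h1 x], max U 1, ?_⟩, fun ζ hζ => hu0in ζ hζ.le, h1⟩
  · exact hcont.measurable_piecewise continuousOn_const Metric.isClosed_closedBall.measurableSet
  · intro ζ
    by_cases h : ‖ζ‖ ≤ 1
    · refine le_trans ?_ (le_max_left _ _)
      rw [hu0in ζ h]
      exact hU ⟨ζ, by simpa using h, rfl⟩
    · rw [hu0out ζ h]; exact le_max_right _ _

lemma sqrt_le_rpow (x K a : ℝ) (hx : 0 ≤ x) (ha : 0 < a) (hK : 0 < K)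
    (h : x ^ (1/2 : ℝ) + 1 ≤ K * a) : (a ^ 2)⁻¹ ≤ K ^ 2 * (x ^ 2 + 1) ^ (-(1/2) : ℝ) := by
  have h0 : 0 ≤ x ^ (1/2 : ℝ) := by positivity
  have h1 : (x ^ 2 + 1) ^ (1/2 : ℝ) ≤ (K * a) ^ 2 := by
    have h2 : (x ^ 2 + 1) ^ (1/2 : ℝ) ≤ x + 1 := by
      rw [← Real.sqrt_eq_rpow, Real.sqrt_le_left (by linarith)]
      nlinarith
    have h3 : x = (x ^ (1/2 : ℝ)) ^ 2 := by
      rw [← Real.sqrt_eq_rpow, Real.sq_sqrt hx]
    have h4 : x + 1 ≤ (x ^ (1/2 : ℝ) + 1) ^ 2 := by nlinarith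
    have h5 : (x ^ (1/2 : ℝ) + 1) ^ 2 ≤ (K * a) ^ 2 := pow_le_pow_left₀ (by positivity) h 2
    linarith
  have hpos : 0 < (x ^ 2 + 1) ^ (1/2 : ℝ) := by positivity
  rw [Real.rpow_neg (by positivity), ← div_eq_mul_inv, le_div_iff₀ hpos,
    inv_mul_le_iff₀ (by positivity)]
  calc (x ^ 2 + 1) ^ (1/2 : ℝ) ≤ (K * a) ^ 2 := h1
    _ = _ := by ring

/-- the energy of Df -/
lemma energy_Df (n : ℕ) (hn : 1 ≤ n) (hn2 : 2 ≤ n) (CL : ℝ) (b m : ℕ) (τ Λ : ℝ) (hbm : b ≤ m)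
    (hΛ : 1 ≤ Λ) (N : ℕ) : ∃ C : ℝ, 0 < C ∧
    ∀ (R : ℝ) (f : E n → ℂ), 1 < R → DifferentiableOn ℂ f (Metric.ball 0 R) →
      (∫⁻ ζ, ‖f (ζ : E n)‖ₑ ∂(sg n) ≤ 1) → ∃ L0 : ℕ,
        ∀ S : H262RU.Sel (ts n hn) CL b m τ Λ, Adm S → L0 ≤ S.C.Lmax →
          (∀ ζ, ‖ζ‖ = 1 → S.u.u ζ = ‖f ζ‖ ^ (1/2 : ℝ) + 1) → (∀ ζ, 1 ≤ S.u.u ζ) →
            energy S.a (DD N f) ≤ ENNReal.ofReal C := by
  obtain ⟨C5, hC5, hsub⟩ := sub_A0 n hn hn2 b
  obtain ⟨C4, hC4, hF4⟩ := F4 n hn N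
  set K : ℝ := C5 * (52 ^ b * 2 ^ n * (Λ * (28 ^ m * (2 ^ (m - b))))) with hK
  have hK0 : 0 < K := by rw [hK]; positivity
  have hfin : IsFiniteMeasure (sg n) := by unfold sg; infer_instance
  set σ0 : ℝ := (sg n).real Set.univ with hσ0
  have hσ0' : 0 ≤ σ0 := measureReal_nonneg
  refine ⟨K ^ 2 * (C4 * (1 + σ0)) + 1, by positivity, ?_⟩
  intro R f hR hf hint
  have hDD := DD_diff (Metric.isOpen_ball (x := (0 : E n)) (ε := R)) hf N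
  obtain ⟨B, hB⟩ := (isCompact_closedBall (0 : E n) 1).bddAbove_image
    (hDD.continuousOn.mono (Metric.closedBall_subset_ball hR)).norm
  have hB' : ∀ z : E n, ‖z‖ ≤ 1 → ‖DD N f z‖ ≤ B := fun z hz => hB ⟨z, by simpa using hz, rfl⟩
  set cs : ℝ := (sigS n).real Set.univ with hcs
  have hcspos : 0 < cs := by
    have h1 := (ts n hn).σ_ge (0 : E n) 3 (by rw [ts_s n hn 0 (by simp)]; simp)
      (by rw [ts_s n hn 0 (by simp)]; norm_num) (by norm_num)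
    have h2 : ENNReal.ofReal ((ts n hn).cσ * 3 ^ (ts n hn).n) ≤ sigS n Set.univ :=
      h1.trans (measure_mono (Set.subset_univ _))
    have h3 : 0 < (ts n hn).cσ * 3 ^ (ts n hn).n := by
      have := (ts n hn).cσ_pos; positivity
    have h4 : sigS n Set.univ ≠ 0 := fun h => by
      rw [h] at h2
      exact absurd (ENNReal.ofReal_eq_zero.1 (le_antisymm h2 zero_le)) (by linarith)
    have h5 : sigS n Set.univ ≠ ⊤ := by
      have : IsFiniteMeasure (ts n hn).σ := inferInstance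
      exact measure_ne_top (ts n hn).σ Set.univ
    exact ENNReal.toReal_pos h4 h5
  set V0 : ℝ := ((volume : Measure (E n)) (Metric.ball 0 1)).toReal with hV0
  have hVfin : (volume : Measure (E n)) (Metric.ball 0 1) ≠ ⊤ := measure_ball_lt_top.ne
  set Q : ℝ := B ^ 2 * (cs ^ 2)⁻¹ with hQ
  have hQ0 : 0 ≤ Q := by positivity
  obtain ⟨L0, hL0⟩ : ∃ L0 : ℕ, Q * V0 * (1/2 : ℝ) ^ L0 ≤ 1 := by
    obtain ⟨L0, hL0⟩ := exists_pow_lt_of_lt_one (show (0:ℝ) < 1 / (Q * V0 + 1) by positivity)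
      (show (1/2 : ℝ) < 1 by norm_num)
    refine ⟨L0, ?_⟩
    have hQV : 0 ≤ Q * V0 := by positivity
    rw [lt_div_iff₀ (by positivity)] at hL0
    have : (0:ℝ) < (1/2) ^ L0 := by positivity
    nlinarith
  refine ⟨L0, fun S hA hL hu hu1 => ?_⟩
  have hpow : (1/2 : ℝ) ^ S.C.Lmax ≤ (1/2 : ℝ) ^ L0 :=
    pow_le_pow_of_le_one (by norm_num) (by norm_num) hL
  have hpt : ∀ w ∈ Metric.ball (0 : E n) 1, ENNReal.ofReal (‖DD N f w‖ ^ 2 * (S.a w ^ 2)⁻¹ *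
      (1 - ‖w‖ ^ 2)) ≤ ENNReal.ofReal (K ^ 2) * ENNReal.ofReal (‖DD N f w‖ ^ 2 *
        (‖f w‖ ^ 2 + 1) ^ (-(1 / 2) : ℝ) * (1 - ‖w‖ ^ 2)) + ENNReal.ofReal (Q * (1/2) ^ L0) := by
    intro w hw
    have hw1 : ‖w‖ < 1 := by simpa using hw
    have hs0 : 0 < 1 - ‖w‖ ^ 2 := by nlinarith [norm_nonneg w]
    rw [← ENNReal.ofReal_mul (by positivity), ← ENNReal.ofReal_add (by positivity) (by positivity)]
    refine ENNReal.ofReal_le_ofReal ?_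
    have hapos := a_pos S hbm hΛ w
    by_cases hz : (1/2:ℝ) ^ S.C.Lmax ≤ (ts n hn).s w
    · have h1 := A0_le_a S hbm hΛ hz
      have h2 := hsub R f hR hf S.u hu w hw1
      have h3 : ‖f w‖ ^ (1/2 : ℝ) + 1 ≤ K * S.a w := by
        refine h2.trans ?_
        rw [hK, mul_assoc]
        gcongr
      have h4 := sqrt_le_rpow ‖f w‖ K (S.a w) (norm_nonneg _) hapos hK0 h3
      have h5 : 0 ≤ Q * (1/2 : ℝ) ^ L0 := by positivity
      calc ‖DD N f w‖ ^ 2 * (S.a w ^ 2)⁻¹ * (1 - ‖w‖ ^ 2) ≤ ‖DD N f w‖ ^ 2 *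
            (K ^ 2 * (‖f w‖ ^ 2 + 1) ^ (-(1/2) : ℝ)) * (1 - ‖w‖ ^ 2) := by gcongr
        _ = K ^ 2 * (‖DD N f w‖ ^ 2 * (‖f w‖ ^ 2 + 1) ^ (-(1 / 2) : ℝ) * (1 - ‖w‖ ^ 2)) := by ring
        _ ≤ _ := by linarith
    · push Not at hz
      rw [ts_s n hn w hw1.le] at hz
      have h1 := a_lower S hA hu1 w
      have h2 : (S.a w ^ 2)⁻¹ ≤ (cs ^ 2)⁻¹ := by gcongr
      have h3 : 1 - ‖w‖ ^ 2 ≤ (1/2 : ℝ) ^ L0 := hz.le.trans hpow
      have h4 := hB' w hw1.le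
      have h5 : 0 ≤ K ^ 2 * (‖DD N f w‖ ^ 2 * (‖f w‖ ^ 2 + 1) ^ (-(1 / 2) : ℝ) * (1 - ‖w‖ ^ 2)) := by
        positivity
      calc ‖DD N f w‖ ^ 2 * (S.a w ^ 2)⁻¹ * (1 - ‖w‖ ^ 2) ≤ B ^ 2 * (cs ^ 2)⁻¹ * (1/2 : ℝ) ^ L0 := by
            gcongr
        _ ≤ _ := by rw [← hQ]; linarith
  unfold energy
  refine (setLIntegral_mono' Metric.isOpen_ball.measurableSet hpt).trans ?_
  rw [lintegral_add_right _ measurable_const, lintegral_const_mul' _ _ ENNReal.ofReal_ne_top,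
    setLIntegral_const]
  have hF := hF4 R f hR hf 1 one_pos
  have hJ : ∫⁻ ζ, ENNReal.ofReal ((‖f (ζ : E n)‖ ^ 2 + 1) ^ (1 / 2 : ℝ)) ∂(sg n) ≤
      ENNReal.ofReal (1 + σ0) := by
    calc ∫⁻ ζ, ENNReal.ofReal ((‖f (ζ : E n)‖ ^ 2 + 1) ^ (1 / 2 : ℝ)) ∂(sg n)
        ≤ ∫⁻ ζ, (‖f (ζ : E n)‖ₑ + 1) ∂(sg n) := by
          refine lintegral_mono fun ζ => ?_
          rw [← ofReal_norm, ← ENNReal.ofReal_one, ← ENNReal.ofReal_add (norm_nonneg _) zero_le_one]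
          refine ENNReal.ofReal_le_ofReal ?_
          rw [← Real.sqrt_eq_rpow, Real.sqrt_le_left (by positivity)]
          nlinarith [norm_nonneg (f (ζ : E n))]
      _ = ∫⁻ ζ, ‖f (ζ : E n)‖ₑ ∂(sg n) + sg n Set.univ := by
          rw [lintegral_add_right _ measurable_const]; simp
      _ ≤ 1 + sg n Set.univ := by gcongr
      _ = ENNReal.ofReal (1 + σ0) := by
          rw [ENNReal.ofReal_add zero_le_one hσ0', ENNReal.ofReal_one, hσ0, Measure.real,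
            ENNReal.ofReal_toReal (measure_ne_top _ _)]
  have hlast : ENNReal.ofReal (Q * (1/2) ^ L0) * (volume : Measure (E n)) (Metric.ball 0 1) ≤
      ENNReal.ofReal 1 := by
    rw [← ENNReal.ofReal_toReal hVfin, ← ENNReal.ofReal_mul (by positivity)]
    refine ENNReal.ofReal_le_ofReal ?_
    calc Q * (1/2) ^ L0 * V0 = Q * V0 * (1/2) ^ L0 := by ring
      _ ≤ 1 := hL0
  calc _ ≤ ENNReal.ofReal (K ^ 2) * (ENNReal.ofReal C4 * ENNReal.ofReal (1 + σ0)) +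
        ENNReal.ofReal 1 := by
        refine add_le_add (mul_le_mul_right (hF.trans (mul_le_mul_right hJ _)) _) hlast
    _ = _ := by
        rw [← ENNReal.ofReal_mul hC4.le, ← ENNReal.ofReal_mul (by positivity),
          ← ENNReal.ofReal_add (by positivity) zero_le_one]

end Pool.Agent.Helper19.RU
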