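import Mathlib
import Pool.Agent.Helper19.RU.StepE
import Pool.Agent.Helper651.CandBall
import Pool.Agent.Helper262.RU5

set_option autoImplicit false

open MeasureTheory Complex
open scoped ENNReal NNReal

namespace Pool.Agent.Helper19.RU

open Pool.Agent.HpBall Pool.Agent.Helper633.Geo

lemma H2_mono {n : ℕ} {M M' : ℝ≥0∞} (h : M ≤ M') {g : E n → ℂ} (hg : H2 n M g) : H2 n M' g :=
  ⟨hg.1, fun r h0 h1 => (hg.2 r h0 h1).trans h⟩

lemma cs_pos (n : ℕ) (hn : 1 ≤ n) : 0 < (sigS n).real Set.univ := by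
  have h1 := (ts n hn).σ_ge (0 : E n) 3 (by rw [ts_s n hn 0 (by simp)]; simp)
    (by rw [ts_s n hn 0 (by simp)]; norm_num) (by norm_num)
  have h2 : ENNReal.ofReal ((ts n hn).cσ * 3 ^ (ts n hn).n) ≤ sigS n Set.univ :=
    h1.trans (measure_mono (Set.subset_univ _))
  have h3 : 0 < (ts n hn).cσ * 3 ^ (ts n hn).n := by
    have := (ts n hn).cσ_pos; positivity
  have h4 : sigS n Set.univ ≠ 0 := fun h => by
    rw [h] at h2
    exact absurd (ENNReal.ofReal_eq_zero.1 (le_antisymm h2 zero_le)) (by linarith)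
  have h5 : sigS n Set.univ ≠ ⊤ := by
    have : IsFiniteMeasure (ts n hn).σ := inferInstance
    exact measure_ne_top (ts n hn).σ Set.univ
  exact ENNReal.toReal_pos h4 h5

lemma sq_aux (x : ℝ) (hx0 : 0 ≤ x) :
    ENNReal.ofReal ((x ^ (1/2 : ℝ) + 1) ^ 2) ≤ 2 * ENNReal.ofReal x + 2 := by
  have e2 : (2 : ℝ≥0∞) = ENNReal.ofReal 2 := by norm_num
  rw [e2, ← ENNReal.ofReal_mul (by norm_num), ← ENNReal.ofReal_add (by positivity)
    (by norm_num)]
  refine ENNReal.ofReal_le_ofReal ?_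
  have h6 : (x ^ (1/2 : ℝ)) ^ 2 = x := by
    rw [← Real.sqrt_eq_rpow, Real.sq_sqrt hx0]
  nlinarith [sq_nonneg (x ^ (1/2 : ℝ) - 1)]

/-- H² bound for the G_c -/
lemma GG_H2 (n : ℕ) (hn : 1 ≤ n) (CL : ℝ) (b m : ℕ) (τ Λ : ℝ)
    (hP : Par (ts n hn) CL b m τ Λ) : ∃ C : ℝ, 0 < C ∧
    ∀ (R : ℝ) (f : E n → ℂ), 1 < R → DifferentiableOn ℂ f (Metric.ball 0 R) →
      (∫⁻ ζ, ‖f (ζ : E n)‖ₑ ∂(sg n) ≤ 1) →
        ∀ S : H262RU.Sel (ts n hn) CL b m τ Λ, Adm S →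
          (∀ ζ, ‖ζ‖ = 1 → S.u.u ζ = ‖f ζ‖ ^ (1/2 : ℝ) + 1) →
          ∀ (Nc : ℕ) (col : ℕ → Fin Nc) (c : Fin Nc), H2 n (ENNReal.ofReal C) (GG S col c) := by
  have hfin : IsFiniteMeasure (sg n) := by unfold sg; infer_instance
  set σ0 : ℝ := (sg n).real Set.univ with hσ0
  have hσ0' : 0 ≤ σ0 := measureReal_nonneg
  have hbm : b ≤ m := by have := hP.hbm; omega
  set K : ℝ := 2 ^ m * 2 ^ (m - b) with hK
  set c0 : ℝ := H262RU.Sel.Cao (ts n hn) b * (2 / τ + 1) with hc0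
  have hτ := hP.hτ
  have hc0pos : 0 < c0 := by
    have := H262RU.Sel.Cao_pos (T := ts n hn) (b := b)
    rw [hc0]; positivity
  refine ⟨K ^ 2 * (c0 * (2 * c0 * (2 + 2 * σ0))), by positivity, ?_⟩
  intro R f hR hf hint S hA hu Nc col c
  refine ⟨GG_diff S hA col c, fun r hr0 hr1 => ?_⟩
  have h1 : ∫⁻ ζ, ‖GG S col c ((r : ℂ) • (ζ : E n))‖ₑ ^ 2 ∂(sg n) ≤
      ∫⁻ ζ, ENNReal.ofReal (K ^ 2 * S.a (ζ : E n) ^ 2) ∂(sg n) := by
    refine lintegral_mono fun ζ => ?_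
    have hζ : ‖(ζ : E n)‖ = 1 := by simp
    have h := GG_bound S hA hbm col c hr0 hr1 hζ
    rw [← ofReal_norm, ← ENNReal.ofReal_pow (norm_nonneg _)]
    refine ENNReal.ofReal_le_ofReal ?_
    rw [← mul_pow]
    exact pow_le_pow_left₀ (norm_nonneg _) h 2
  have h2 : ∫⁻ ζ, ENNReal.ofReal (K ^ 2 * S.a (ζ : E n) ^ 2) ∂(sg n) =
      ENNReal.ofReal (K ^ 2 * ∫ ζ, S.a ζ ^ 2 ∂(ts n hn).σ) := by
    rw [← integral_const_mul, ofReal_integral_eq_lintegral_ofReal (S.a_sq_int.const_mul _)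
      (Filter.Eventually.of_forall fun x => by positivity)]
    change _ = ∫⁻ ζ, _ ∂(sigS n)
    rw [sigS_lint]
    exact ((S.a_meas.pow_const 2).const_mul _).ennreal_ofReal
  have h3 := S.int_a_sq hP.hb hP.hτ
  have h4 := S.cost hP.hb hP.hτ hP.hτ1 hP.hΛ hP.hτ2
  have hUint : Integrable (fun ζ => S.u.u ζ ^ 2) (ts n hn).σ := by
    refine (ts n hn).integ (S.u.meas.pow_const 2) (C := S.u.U ^ 2) fun x => ?_
    rw [abs_of_nonneg (by positivity)]
    exact pow_le_pow_left₀ (S.u.nonneg x) (S.u.le x) 2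
  have h5 : ∫ ζ, S.u.u ζ ^ 2 ∂(ts n hn).σ ≤ 2 + 2 * σ0 := by
    rw [← ENNReal.ofReal_le_ofReal_iff (by positivity), ofReal_integral_eq_lintegral_ofReal hUint
      (Filter.Eventually.of_forall fun x => by positivity)]
    change ∫⁻ ζ, _ ∂(sigS n) ≤ _
    rw [sigS_lint _ (S.u.meas.pow_const 2).ennreal_ofReal]
    calc ∫⁻ ζ, ENNReal.ofReal (S.u.u (ζ : E n) ^ 2) ∂(sg n)
        ≤ ∫⁻ ζ, (2 * ‖f (ζ : E n)‖ₑ + 2) ∂(sg n) := by
          refine lintegral_mono fun ζ => ?_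
          have hζ : ‖(ζ : E n)‖ = 1 := by simp
          rw [hu ζ hζ, ← ofReal_norm]
          exact sq_aux _ (norm_nonneg _)
      _ = 2 * ∫⁻ ζ, ‖f (ζ : E n)‖ₑ ∂(sg n) + 2 * sg n Set.univ := by
          rw [lintegral_add_right _ measurable_const, lintegral_const_mul' _ _ (by norm_num)]
          simp
      _ ≤ 2 * 1 + 2 * sg n Set.univ := by gcongr
      _ = ENNReal.ofReal (2 + 2 * σ0) := by
          rw [ENNReal.ofReal_add (by norm_num) (by positivity), ENNReal.ofReal_mul (by norm_num),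
            hσ0, Measure.real, ENNReal.ofReal_toReal (measure_ne_top _ _)]
          norm_num
  refine h1.trans (h2.le.trans (ENNReal.ofReal_le_ofReal ?_))
  rw [← hc0] at h3 h4
  gcongr
  calc ∫ ζ, S.a ζ ^ 2 ∂(ts n hn).σ ≤ c0 * S.N2 := h3
    _ ≤ c0 * (2 * c0 * ∫ ζ, S.u.u ζ ^ 2 ∂(ts n hn).σ) := by gcongr
    _ ≤ _ := by gcongr

/-- **Assembly**: the one step theorem from block E -/
theorem step_of_EBlock (n : ℕ) (hn : 1 ≤ n) (hn2 : 2 ≤ n) (hE : EBlockProp n hn) :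
    ∃ (al Nc : ℕ) (C : ℝ), 1 ≤ al ∧ StepProp n al Nc C := by
  obtain ⟨CL, hCL, hcand⟩ := Pool.Agent.Helper651.CandBall.cand n hn
  obtain ⟨b, m, al, τ, Λ, hal, hP, hκ⟩ := hE CL hCL
  obtain ⟨cF, hrep⟩ := repro n al hn hal
  obtain ⟨Nc, CE, hEB⟩ := hκ (1 / (4 * (‖cF‖ ^ 2 + 1))) (by positivity)
  have hbm : b ≤ m := by have := hP.hbm; omega
  have hΛ1 : 1 ≤ Λ := by
    have h := hP.hΛ
    have h16 : (1:ℝ) ≤ 16 ^ m := one_le_pow₀ (by norm_num)
    linarith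
  obtain ⟨C1, hC1, hDf⟩ := energy_Df n hn hn2 CL b m τ Λ hbm hΛ1 (n + al)
  obtain ⟨C2, hC2, hG⟩ := GG_H2 n hn CL b m τ Λ hP
  obtain ⟨C3, hC3, hF3⟩ := F3 n hn (n + al) (by omega)
  refine ⟨al, Nc, C1 + C2 + C3 * max CE 0, hal, ?_⟩
  intro R f hR hf hint
  obtain ⟨L0, hL0⟩ := hDf R f hR hf hint
  obtain ⟨u, hu, hu1⟩ := exists_dens n hn R f hR hf
  obtain ⟨c, hcL, hcn, hcN, hc0, hcw⟩ := hcand L0
  have hA0 : ∀ k, k < c.N → 0 < u.A0 b (c.w k) := by
    intro k hk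
    obtain ⟨C5, hC5, hsub⟩ := sub_A0 n hn hn2 b
    have h1 := hsub R f hR hf u hu (c.w k) (hcn k hk)
    have h2 : 0 ≤ ‖f (c.w k)‖ ^ (1/2 : ℝ) := by positivity
    by_contra h
    push Not at h
    nlinarith
  obtain ⟨S, hSC, hSu⟩ := H262RU.exists_sel c u b m τ Λ hA0
  have hA : Adm S := by
    unfold Adm
    rw [hSC]
    exact ⟨hcn, hcN, hc0, hcw⟩
  have hSu' : ∀ ζ, ‖ζ‖ = 1 → S.u.u ζ = ‖f ζ‖ ^ (1/2 : ℝ) + 1 := by rw [hSu]; exact hu
  have hSu1 : ∀ ζ, 1 ≤ S.u.u ζ := by rw [hSu]; exact hu1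
  have hSL : L0 ≤ S.C.Lmax := by rw [hSC, hcL]
  obtain ⟨col, hcol⟩ := hEB S hA
  obtain ⟨B, hB⟩ := S.a_bdd
  have hB' : ∀ z, S.a z ≤ B := fun z => (le_abs_self _).trans (hB z)
  have hapos : ∀ z, 0 < S.a z := fun z => a_pos S hbm hΛ1 z
  refine ⟨S.a, fun c => GG S col c, S.a_meas, ⟨_, cs_pos n hn, fun z => a_lower S hA hSu1 z⟩,
    ⟨B, hB'⟩, fun c => H2_mono (ENNReal.ofReal_le_ofReal (by
      have : 0 ≤ C3 * max CE 0 := by positivity
      linarith)) (hG R f hR hf hint S hA hSu' Nc col c),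
    (hL0 S hA hSL hSu' hSu1).trans (ENNReal.ofReal_le_ofReal (by
      have : 0 ≤ C3 * max CE 0 := by positivity
      linarith)), ?_⟩
  intro Φ hΦ hen
  obtain ⟨hE1, hE2⟩ := hcol Φ hΦ hen
  have hen1 : energy (fun _ => 1) Φ < ⊤ :=
    (energy_one_le S.a B hapos hB' Φ).trans_lt (ENNReal.mul_lt_top ENNReal.ofReal_lt_top hen)
  have hΦm : AEStronglyMeasurable Φ ((volume : Measure (E n)).restrict (Metric.ball 0 1)) :=
    hΦ.aestronglyMeasurable
  have hEd := EE_diff S hA al hal col Φ hΦm hen1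
  have hDDE := DD_diff Metric.isOpen_ball hEd (n + al)
  classical
  set Ψ : E n → ℂ := DD (n + al) (EE S al col Φ) with hΨ
  set Φ' : E n → ℂ := (Metric.ball (0 : E n) 1).indicator (fun w => cF * Ψ w) with hΦ'
  have hΦ'm : Measurable Φ' := by
    rw [hΦ', ← Set.piecewise_eq_indicator]
    exact (continuousOn_const.mul hDDE.continuousOn).measurable_piecewise continuousOn_const
      Metric.isOpen_ball.measurableSet
  refine ⟨fun c => XX S al col Φ c, Φ', hΦ'm, ?_, ?_, ?_⟩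
  · intro c
    refine H2_mono ?_ (hF3 (XX S al col Φ c) (XX_diff S hA al hal col Φ hΦm hen1 c))
    calc ENNReal.ofReal C3 * energy (fun _ => 1) (DD (n + al) (XX S al col Φ c))
        ≤ ENNReal.ofReal C3 * (ENNReal.ofReal CE * energy S.a Φ) := by gcongr; exact hE2 c
      _ = ENNReal.ofReal (C3 * CE) * energy S.a Φ := by
          rw [← mul_assoc, ← ENNReal.ofReal_mul hC3.le]
      _ ≤ ENNReal.ofReal (C1 + C2 + C3 * max CE 0) * energy S.a Φ := by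
          gcongr
          have h1 : C3 * CE ≤ C3 * max CE 0 := by gcongr; exact le_max_left _ _
          linarith
  · have h1 : energy S.a Φ' = ENNReal.ofReal (‖cF‖ ^ 2) * energy S.a Ψ := by
      unfold energy
      rw [← lintegral_const_mul' _ _ ENNReal.ofReal_ne_top]
      refine setLIntegral_congr_fun Metric.isOpen_ball.measurableSet fun w hw => ?_
      rw [← ENNReal.ofReal_mul (by positivity)]
      congr 1
      rw [hΦ', Set.indicator_of_mem hw, norm_mul]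
      ring
    rw [h1]
    calc 4 * (ENNReal.ofReal (‖cF‖ ^ 2) * energy S.a Ψ)
        ≤ 4 * (ENNReal.ofReal (‖cF‖ ^ 2) * (ENNReal.ofReal (1 / (4 * (‖cF‖ ^ 2 + 1))) *
            energy S.a Φ)) := by gcongr
      _ = ENNReal.ofReal (4 * (‖cF‖ ^ 2 * (1 / (4 * (‖cF‖ ^ 2 + 1))))) * energy S.a Φ := by
          rw [ENNReal.ofReal_mul (by norm_num), ENNReal.ofReal_mul (by positivity)]
          have h4 : ENNReal.ofReal 4 = 4 := by norm_num
          rw [h4]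
          ring
      _ ≤ ENNReal.ofReal 1 * energy S.a Φ := by
          gcongr
          rw [show 4 * (‖cF‖ ^ 2 * (1 / (4 * (‖cF‖ ^ 2 + 1)))) = ‖cF‖ ^ 2 / (‖cF‖ ^ 2 + 1) by
            field_simp]
          rw [div_le_one (by positivity)]
          linarith
      _ = energy S.a Φ := by rw [ENNReal.ofReal_one, one_mul]
  · intro z hz
    have hz1 : ‖z‖ < 1 := by simpa using hz
    rw [synth_split S hA hΛ1 al hal col Φ hΦm hen1 z hz1]
    congr 1
    have henE : energy (fun _ => 1) Ψ < ⊤ := by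
      refine (energy_one_le S.a B hapos hB' Ψ).trans_lt (ENNReal.mul_lt_top ENNReal.ofReal_lt_top ?_)
      exact hE1.trans_lt (ENNReal.mul_lt_top ENNReal.ofReal_lt_top hen)
    rw [hrep (EE S al col Φ) hEd henE z hz]
    unfold synth
    rw [← integral_const_mul]
    refine setIntegral_congr_fun Metric.isOpen_ball.measurableSet fun w hw => ?_
    simp only [hΦ', Set.indicator_of_mem hw]
    ring

end Pool.Agent.Helper19.RU
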